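import Mathlib

set_option autoImplicit false

/-!
Propositional formulas, CNFs and refutations for the short-line lower bound.
-/

namespace Pool.Agent.Lib.MP_51bb46_lc

/-- Propositional formulas over the variables `V` with constants and the connectives
not, and, or, implies. -/
inductive Fml (V : Type) : Type where
  | var : V → Fml V
  | cst : Bool → Fml V
  | neg : Fml V → Fml V
  | and : Fml V → Fml V → Fml V
  | or : Fml V → Fml V → Fml V
  | imp : Fml V → Fml V → Fml V

namespace Fml

variable {V : Type}

/-- truth value under an assignment -/
def eval (x : V → Bool) : Fml V → Bool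
  | var v => x v
  | cst b => b
  | neg A => !(A.eval x)
  | and A B => A.eval x && B.eval x
  | or A B => A.eval x || B.eval x
  | imp A B => !(A.eval x) || B.eval x

/-- number of occurrences of variables (at most the number of symbols) -/
def occurrences : Fml V → ℕ
  | var _ => 1
  | cst _ => 0
  | neg A => A.occurrences
  | and A B => A.occurrences + B.occurrences
  | or A B => A.occurrences + B.occurrences
  | imp A B => A.occurrences + B.occurrences

end Fml

/-- A clause: a finite set of literals; `(v, true)` is the variable `v`, `(v, false)` its
negation. -/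
abbrev Clause (V : Type) : Type := Finset (V × Bool)

/-- the clause contains a literal made true by `x` -/
def Clause.holds {V : Type} (x : V → Bool) (C : Clause V) : Prop := ∃ l ∈ C, x l.1 = l.2

/-- no assignment satisfies all clauses -/
def Unsat {V : Type} (F : Finset (Clause V)) : Prop := ∀ x : V → Bool, ∃ C ∈ F, ¬ C.holds x

/-- `L 0, L 1, ...` is a (semantic) Frege refutation of the CNF `F` with at most `r` premises per
step: every line is implied by a clause of `F` or by at most `r` earlier lines, and some line is
unsatisfiable. -/
def Refutes {V : Type} (r : ℕ) (F : Finset (Clause V)) {ℓ : ℕ} (L : Fin ℓ → Fml V) : Prop :=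
  (∀ i, (∃ C ∈ F, ∀ x, C.holds x → (L i).eval x = true) ∨
    ∃ P : Finset (Fin ℓ), P.card ≤ r ∧ (∀ p ∈ P, p < i) ∧
      ∀ x, (∀ p ∈ P, (L p).eval x = true) → (L i).eval x = true) ∧
  ∃ i, ∀ x, (L i).eval x = false

end Pool.Agent.Lib.MP_51bb46_lc
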