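import Mathlib

section

section

set_option autoImplicit false

namespace Pool.Agent.Lib.MP_51bb46_lc

open Finset

/-- Binary formulas in negation normal form with constants.
`gate true` is a conjunction, `gate false` is a disjunction. -/
inductive G (V : Type) where
  | cst : Bool → G V
  | lit : V → Bool → G V
  | gate : Bool → G V → G V → G V

namespace G

variable {V : Type}

/-- value of a formula -/
def ev (x : V → Bool) : G V → Bool
  | cst c => c
  | lit v s => x v == s
  | gate c A B => if A.ev x = !c then !c else B.ev x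

/-- number of leaves carrying a variable -/
def len : G V → ℕ
  | cst _ => 0
  | lit _ _ => 1
  | gate _ A B => A.len + B.len

variable [DecidableEq V]

/-- number of leaves carrying the variable `v` -/
def occ (v : V) : G V → ℕ
  | cst _ => 0
  | lit w _ => if w = v then 1 else 0
  | gate _ A B => A.occ v + B.occ v

lemma occ_le_len (v : V) (f : G V) : f.occ v ≤ f.len := by
  induction f with
  | cst c => simp [occ, len]
  | lit w s => simp only [occ, len]; split_ifs <;> simp
  | gate c A B hA hB => simp only [occ, len]; omega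

lemma sum_occ [Fintype V] (f : G V) : ∑ v, f.occ v = f.len := by
  induction f with
  | cst c => simp [occ, len]
  | lit w s => simp [occ, len]
  | gate c A B hA hB => simp only [occ, len, Finset.sum_add_distrib, hA, hB]

omit [DecidableEq V] in
lemma ev_of_len_zero (f : G V) (h : f.len = 0) : ∃ c, ∀ x, f.ev x = c := by
  induction f with
  | cst c => exact ⟨c, fun _ => rfl⟩
  | lit w s => simp [len] at h
  | gate c A B hA hB =>
    simp only [len, Nat.add_eq_zero_iff] at h
    obtain ⟨a, ha⟩ := hA h.1
    obtain ⟨b, hb⟩ := hB h.2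
    exact ⟨if a = !c then !c else b, fun x => by simp [ev, ha, hb]⟩

/-- if `v` does not occur then the value does not depend on it -/
lemma ev_update_of_occ_zero (f : G V) (v : V) (h : f.occ v = 0) (x : V → Bool) (b : Bool) :
    f.ev (Function.update x v b) = f.ev x := by
  induction f with
  | cst c => rfl
  | lit w s =>
    have hw : w ≠ v := by
      intro hw; simp [occ, hw] at h
    simp [ev, Function.update_of_ne hw]
  | gate c A B hA hB =>
    simp only [occ, Nat.add_eq_zero_iff] at h
    simp only [ev, hA h.1, hB h.2]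

omit [DecidableEq V] in
lemma gate_comm (c : Bool) (A B : G V) (x : V → Bool) :
    (gate c A B).ev x = (gate c B A).ev x := by
  simp only [ev]
  cases A.ev x <;> cases B.ev x <;> cases c <;> rfl

/-- The data of the one-variable restriction lemma. -/
def Nice (f : G V) (i : V) (f' : G V) (fb : Bool → G V) : Prop :=
  (∀ x, f'.ev x = f.ev x) ∧
  (∀ b x, (fb b).ev x = f.ev (Function.update x i b)) ∧
  (∀ b, (fb b).occ i = 0) ∧
  (∀ j, f'.occ j ≤ f.occ j) ∧
  (∀ b j, (fb b).occ j ≤ f'.occ j) ∧
  ((∃ s, f' = lit i s ∧ ∀ b, fb b = cst (b == s)) ∨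
    3 * f'.occ i + (fb false).len + (fb true).len ≤ 2 * f'.len)

/-- combining a formula equivalent to a literal with another formula -/
lemma nice_lit_gate (c : Bool) (A B : G V) (i : V) (s : Bool) (B' : G V) (Bb : Bool → G V)
    (hA : ∀ x, A.ev x = (x i == s)) (hAo : 1 ≤ A.occ i) (hB : Nice B i B' Bb) :
    ∃ f' fb, Nice (gate c A B) i f' fb := by
  obtain ⟨h1, h2, h3, h4, h5, h6⟩ := hB
  -- the value of the variable which makes the gate equal to `B`
  set s' : Bool := (c == s) with hs'
  have key : ∀ x, (gate c A B).ev x = if x i = s' then (Bb s').ev x else !c := by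
    intro x
    simp only [ev, hA]
    by_cases hx : x i = s'
    · rw [if_pos hx, h2, ← hx, Function.update_eq_self]
      rw [if_neg]
      rw [hx, hs']
      cases c <;> cases s <;> simp
    · rw [if_neg hx, if_pos]
      revert hx
      rw [hs']
      cases x i <;> cases c <;> cases s <;> simp
  by_cases hl : (Bb s').len = 0
  · obtain ⟨e, he⟩ := ev_of_len_zero _ hl
    by_cases hec : e = c
    · -- the gate is a literal
      refine ⟨lit i s, fun b => cst (b == s), ?_, ?_, ?_, ?_, ?_, ?_⟩
      · intro x
        rw [key, he, hec]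
        simp only [ev, hs']
        cases x i <;> cases c <;> cases s <;> simp
      · intro b x
        rw [key, he, hec]
        simp only [ev, hs', Function.update_self]
        cases b <;> cases c <;> cases s <;> simp
      · intro b; rfl
      · intro j
        simp only [occ]
        split_ifs with hj
        · subst hj; omega
        · omega
      · intro b j; simp [occ]
      · left; exact ⟨s, rfl, fun b => rfl⟩
    · refine ⟨cst (!c), fun _ => cst (!c), ?_, ?_, ?_, ?_, ?_, ?_⟩
      · intro x
        rw [key, he]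
        have : e = !c := by cases e <;> cases c <;> simp_all
        simp [ev, this]
      · intro b x
        rw [key, he]
        have : e = !c := by cases e <;> cases c <;> simp_all
        simp [ev, this]
      · intro b; rfl
      · intro j; simp [occ]
      · intro b j; simp [occ]
      · right; simp [occ, len]
  · refine ⟨gate c (lit i s) (Bb s'), fun b => if b = s' then Bb s' else cst (!c),
      ?_, ?_, ?_, ?_, ?_, ?_⟩
    · intro x
      rw [key]
      simp only [ev, hs']
      cases x i <;> cases c <;> cases s <;> simp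
    · intro b x
      rw [key]
      simp only [Function.update_self]
      split_ifs with hb
      · exact (ev_update_of_occ_zero _ _ (h3 _) _ _).symm
      · rfl
    · intro b
      beta_reduce
      split_ifs with hb
      · exact h3 _
      · rfl
    · intro j
      simp only [occ]
      have := h5 s' j
      have := h4 j
      split_ifs with hj
      · subst hj
        have := h3 s'
        omega
      · omega
    · intro b j
      simp only [occ]
      split_ifs with hb <;> simp [occ]
    · right
      have h0 : (Bb s').occ i = 0 := h3 s'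
      have : ((if false = s' then Bb s' else cst (!c)).len +
          (if true = s' then Bb s' else cst (!c)).len) = (Bb s').len := by
        cases s' <;> simp [len]
      simp only [occ, len, if_true, h0]
      omega

/-- **Restriction lemma** (Subbotovskaya). -/
theorem exists_nice (f : G V) (i : V) : ∃ f' fb, Nice f i f' fb := by
  induction f with
  | cst c =>
    exact ⟨cst c, fun _ => cst c, fun _ => rfl, fun _ _ => rfl, fun _ => rfl, fun _ => le_rfl,
      fun _ _ => le_rfl, Or.inr (by simp [occ, len])⟩
  | lit w s =>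
    by_cases hw : w = i
    · subst hw
      refine ⟨lit w s, fun b => cst (b == s), fun _ => rfl, ?_, fun _ => rfl, fun _ => le_rfl, ?_,
        Or.inl ⟨s, rfl, fun _ => rfl⟩⟩
      · intro b x; simp [ev]
      · intro b j; simp [occ]
    · refine ⟨lit w s, fun _ => lit w s, fun _ => rfl, ?_, ?_, fun _ => le_rfl,
        fun _ _ => le_rfl, Or.inr ?_⟩
      · intro b x; simp [ev, Function.update_of_ne hw]
      · intro b; simp [occ, hw]
      · simp [occ, len, hw]
  | gate c A B hA hB =>
    obtain ⟨A', Ab, hA⟩ := hA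
    obtain ⟨B', Bb, hB⟩ := hB
    have hA0 := hA
    have hB0 := hB
    obtain ⟨a1, a2, a3, a4, a5, a6⟩ := hA
    obtain ⟨b1, b2, b3, b4, b5, b6⟩ := hB
    rcases a6 with ⟨s, hs, hs'⟩ | a6
    · apply nice_lit_gate c A B i s B' Bb _ _ hB0
      · intro x; rw [← a1, hs]; rfl
      · have := a4 i; rw [hs] at this; simpa [occ] using this
    · rcases b6 with ⟨s, hs, hs'⟩ | b6
      · obtain ⟨f', fb, h1, h2, h3, h4, h5, h6⟩ :=
          nice_lit_gate c B A i s A' Ab (by intro x; rw [← b1, hs]; rfl)
            (by have := b4 i; rw [hs] at this; simpa [occ] using this) hA0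
        refine ⟨f', fb, ?_, ?_, h3, ?_, h5, h6⟩
        · intro x; rw [h1, gate_comm]
        · intro b x; rw [h2, gate_comm]
        · intro j; have := h4 j; simp only [occ] at this ⊢; omega
      · refine ⟨gate c A' B', fun b => gate c (Ab b) (Bb b), ?_, ?_, ?_, ?_, ?_, Or.inr ?_⟩
        · intro x; simp only [ev, a1, b1]
        · intro b x; simp only [ev, a2, b2]
        · intro b; simp [occ, a3, b3]
        · intro j; have := a4 j; have := b4 j; simp only [occ]; omega
        · intro b j; have := a5 b j; have := b5 b j; simp only [occ]; omega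
        · simp only [occ, len]; omega

/-- A formula is reduced if no equivalent formula uses fewer leaves in the pointwise order. -/
def Reduced (f : G V) : Prop :=
  ∀ g : G V, (∀ x, g.ev x = f.ev x) → (∀ v, g.occ v ≤ f.occ v) → ∀ v, g.occ v = f.occ v

theorem exists_reduced [Fintype V] (f : G V) :
    ∃ g : G V, (∀ x, g.ev x = f.ev x) ∧ (∀ v, g.occ v ≤ f.occ v) ∧ Reduced g := by
  induction hn : f.len using Nat.strong_induction_on generalizing f with
  | _ n ih =>
    by_cases h : Reduced f
    · exact ⟨f, fun _ => rfl, fun _ => le_rfl, h⟩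
    · unfold Reduced at h
      push Not at h
      obtain ⟨g, hg1, hg2, v, hv⟩ := h
      have hlt : g.len < n := by
        rw [← hn, ← sum_occ, ← sum_occ]
        exact Finset.sum_lt_sum (fun w _ => hg2 w) ⟨v, mem_univ v, lt_of_le_of_ne (hg2 v) hv⟩
      obtain ⟨g', h1, h2, h3⟩ := ih g.len hlt g rfl
      exact ⟨g', fun x => (h1 x).trans (hg1 x), fun v => (h2 v).trans (hg2 v), h3⟩

theorem Reduced.step [Fintype V] {f : G V} (hf : Reduced f) (h2 : 2 ≤ f.len) (i : V) :
    ∃ fb : Bool → G V, (∀ b x, (fb b).ev x = f.ev (Function.update x i b)) ∧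
      (∀ b, (fb b).occ i = 0) ∧ (∀ b j, (fb b).occ j ≤ f.occ j) ∧
      3 * f.occ i + (fb false).len + (fb true).len ≤ 2 * f.len := by
  obtain ⟨f', fb, h1, h2', h3, h4, h5, h6⟩ := exists_nice f i
  have h7 := hf f' h1 h4
  refine ⟨fb, h2', h3, fun b j => (h5 b j).trans (h4 j), ?_⟩
  have hlen : f'.len = f.len := by
    rw [← sum_occ, ← sum_occ]; exact Finset.sum_congr rfl (fun v _ => h7 v)
  rcases h6 with ⟨s, hs, _⟩ | h6
  · rw [hs] at hlen
    simp [len] at hlen
    omega
  · rw [← h7 i, ← hlen]; exact h6

end G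

end Pool.Agent.Lib.MP_51bb46_lc
end

section

set_option autoImplicit false

namespace Pool.Agent.Lib.MP_51bb46_lc

open Finset G

/-- decision tree depth at most `d` -/
def HD {B : Type} [DecidableEq B] : ℕ → ((B → Bool) → Bool) → Prop
  | 0, g => ∃ c, ∀ y, g y = c
  | d + 1, g => (∃ c, ∀ y, g y = c) ∨ ∃ b, ∀ v, HD d (fun y => g (Function.update y b v))

lemma HD.const {B : Type} [DecidableEq B] {g : (B → Bool) → Bool} (h : ∃ c, ∀ y, g y = c) (d : ℕ) :
    HD d g := by
  cases d with
  | zero => exact h
  | succ d => exact Or.inl h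

section

variable {B : Type} [Fintype B] [DecidableEq B] {m : ℕ}

/-- average over total assignments -/
noncomputable def avX (F : (B × Fin m → Bool) → ℝ) : ℝ :=
  (∑ x, F x) / 2 ^ Fintype.card (B × Fin m)

lemma avX_mono {F H : (B × Fin m → Bool) → ℝ} (h : ∀ x, F x ≤ H x) : avX F ≤ avX H := by
  unfold avX
  have : ∑ x, F x ≤ ∑ x, H x := Finset.sum_le_sum fun x _ => h x
  gcongr

lemma avX_const (c : ℝ) : avX (fun _ : B × Fin m → Bool => c) = c := by
  unfold avX
  rw [Finset.sum_const, Finset.card_univ, Fintype.card_fun, Fintype.card_bool, nsmul_eq_mul]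
  push_cast
  field_simp

lemma avX_add (F H : (B × Fin m → Bool) → ℝ) : avX (fun x => F x + H x) = avX F + avX H := by
  unfold avX
  rw [Finset.sum_add_distrib, add_div]

lemma avX_split (F : (B × Fin m → Bool) → ℝ) (p : B × Fin m) :
    avX F = (avX (fun x => F (Function.update x p false)) +
      avX (fun x => F (Function.update x p true))) / 2 := by
  have h1 : ∀ x : B × Fin m → Bool, F (Function.update x p false) + F (Function.update x p true)
      = F x + F (Function.update x p (!(x p))) := by
    intro x
    cases hx : x p with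
    | false =>
      have : Function.update x p false = x := by rw [← hx, Function.update_eq_self]
      rw [this]; rfl
    | true =>
      have : Function.update x p true = x := by rw [← hx, Function.update_eq_self]
      rw [this, add_comm]; rfl
  have h2 : ∑ x, F (Function.update x p (!(x p))) = ∑ x, F x := by
    refine Finset.sum_bij' (fun x _ => Function.update x p (!(x p)))
      (fun x _ => Function.update x p (!(x p))) (fun _ _ => mem_univ _) (fun _ _ => mem_univ _)
      ?_ ?_ ?_
    · intro x _; simp
    · intro x _; simp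
    · intro x _; rfl
  unfold avX
  rw [← add_div, ← Finset.sum_add_distrib, Finset.sum_congr rfl (fun x _ => h1 x),
    Finset.sum_add_distrib, h2]
  ring

/-- average over the choice of the surviving candidates -/
noncomputable def avA (J : B → Finset (Fin m)) (H : (B → Fin m) → ℝ) : ℝ :=
  (∑ a ∈ Fintype.piFinset J, H a) / ∏ b, ((J b).card : ℝ)

lemma avA_mono {J : B → Finset (Fin m)} {H H' : (B → Fin m) → ℝ}
    (h : ∀ a ∈ Fintype.piFinset J, H a ≤ H' a) : avA J H ≤ avA J H' := by
  unfold avA
  have := Finset.sum_le_sum h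
  gcongr

lemma avA_congr {J : B → Finset (Fin m)} {H H' : (B → Fin m) → ℝ}
    (h : ∀ a ∈ Fintype.piFinset J, H a = H' a) : avA J H = avA J H' := by
  unfold avA
  rw [Finset.sum_congr rfl h]

lemma avA_add (J : B → Finset (Fin m)) (H H' : (B → Fin m) → ℝ) :
    avA J (fun a => H a + H' a) = avA J H + avA J H' := by
  unfold avA
  rw [Finset.sum_add_distrib, add_div]

lemma avA_half (J : B → Finset (Fin m)) (H : (B → Fin m) → ℝ) :
    avA J (fun a => H a / 2) = avA J H / 2 := by
  unfold avA
  rw [← Finset.sum_div]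
  ring

lemma avA_const {J : B → Finset (Fin m)} (hJ : ∀ b, (J b).Nonempty) (c : ℝ) :
    avA J (fun _ => c) = c := by
  unfold avA
  rw [Finset.sum_const, Fintype.card_piFinset, nsmul_eq_mul]
  have : (∏ b, ((J b).card : ℝ)) ≠ 0 := by
    apply Finset.prod_ne_zero_iff.mpr
    intro b _
    have := (hJ b).card_pos
    positivity
  push_cast
  field_simp

lemma filter_pi (J : B → Finset (Fin m)) (b : B) (i : Fin m) (hi : i ∈ J b) :
    (Fintype.piFinset J).filter (fun a => a b = i) =
      Fintype.piFinset (Function.update J b {i}) := by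
  ext a
  simp only [Finset.mem_filter, Fintype.mem_piFinset]
  constructor
  · rintro ⟨h1, h2⟩ c
    by_cases hc : c = b
    · subst hc; simp [h2]
    · rw [Function.update_of_ne hc]; exact h1 c
  · intro h
    have hb := h b
    rw [Function.update_self, mem_singleton] at hb
    refine ⟨fun c => ?_, hb⟩
    by_cases hc : c = b
    · subst hc; rw [hb]; exact hi
    · have := h c; rwa [Function.update_of_ne hc] at this

lemma prod_update (J : B → Finset (Fin m)) (b : B) (K : Finset (Fin m)) :
    ∏ c, ((Function.update J b K c).card : ℝ) =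
      (K.card : ℝ) * ∏ c ∈ univ.erase b, ((J c).card : ℝ) := by
  rw [← Finset.mul_prod_erase univ _ (mem_univ b), Function.update_self]
  congr 1
  apply Finset.prod_congr rfl
  intro c hc
  rw [Function.update_of_ne (Finset.ne_of_mem_erase hc)]

lemma sum_reveal (J : B → Finset (Fin m)) (b : B) (H : (B → Fin m) → ℝ) :
    ∑ a ∈ Fintype.piFinset J, H a =
      ∑ i ∈ J b, ∑ a ∈ Fintype.piFinset (Function.update J b {i}), H a := by
  rw [← Finset.sum_fiberwise_of_maps_to (g := fun a : B → Fin m => a b) (t := J b)]
  · apply Finset.sum_congr rfl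
    intro i hi
    rw [filter_pi J b i hi]
  · intro a ha
    exact (Fintype.mem_piFinset.mp ha) b

/-- reveal the surviving candidate of a block -/
lemma avA_reveal {J : B → Finset (Fin m)} (hJ : ∀ b, (J b).Nonempty) (b : B)
    (H : (B → Fin m) → ℝ) :
    avA J H = (∑ i ∈ J b, avA (Function.update J b {i}) H) / (J b).card := by
  unfold avA
  have hP : (∏ c ∈ univ.erase b, ((J c).card : ℝ)) ≠ 0 := by
    apply Finset.prod_ne_zero_iff.mpr
    intro c _
    have := (hJ c).card_pos
    positivity
  have hb : ((J b).card : ℝ) ≠ 0 := by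
    have := (hJ b).card_pos
    positivity
  have h1 : ∀ i ∈ J b, (∑ a ∈ Fintype.piFinset (Function.update J b {i}), H a) /
      ∏ c, ((Function.update J b {i} c).card : ℝ) =
      (∑ a ∈ Fintype.piFinset (Function.update J b {i}), H a) /
        ∏ c ∈ univ.erase b, ((J c).card : ℝ) := by
    intro i _
    rw [prod_update]; simp
  rw [Finset.sum_congr rfl h1, ← Finset.sum_div, ← sum_reveal J b H]
  have h2 : ∏ c, ((J c).card : ℝ) = (J b).card * ∏ c ∈ univ.erase b, ((J c).card : ℝ) := by
    rw [← Finset.mul_prod_erase univ _ (mem_univ b)]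
  rw [h2]
  field_simp

lemma avA_erase {J : B → Finset (Fin m)} (hJ : ∀ b, (J b).Nonempty) (b : B) (i : Fin m)
    (hi : i ∈ J b) (hc : 2 ≤ (J b).card) (H : (B → Fin m) → ℝ) :
    avA (Function.update J b ((J b).erase i)) H =
      (∑ i' ∈ (J b).erase i, avA (Function.update J b {i'}) H) / ((J b).card - 1) := by
  have hne : ∀ c, (Function.update J b ((J b).erase i) c).Nonempty := by
    intro c
    by_cases h : c = b
    · subst h
      rw [Function.update_self, ← Finset.card_pos, Finset.card_erase_of_mem hi]
      omega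
    · rw [Function.update_of_ne h]; exact hJ c
  rw [avA_reveal hne b H, Function.update_self, Finset.card_erase_of_mem hi]
  have : (((J b).card - 1 : ℕ) : ℝ) = (J b).card - 1 := by
    rw [Nat.cast_sub (by omega)]; simp
  rw [this]
  congr 1
  apply Finset.sum_congr rfl
  intro i' _
  rw [Function.update_idem]

/-- remove one given candidate, or reveal it as the survivor -/
lemma avA_one {J : B → Finset (Fin m)} (hJ : ∀ b, (J b).Nonempty) (b : B) (i : Fin m)
    (hi : i ∈ J b) (hc : 2 ≤ (J b).card) (H : (B → Fin m) → ℝ) :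
    avA J H = avA (Function.update J b {i}) H / (J b).card +
      (((J b).card - 1) / (J b).card) * avA (Function.update J b ((J b).erase i)) H := by
  rw [avA_reveal hJ b H, avA_erase hJ b i hi hc H, ← Finset.add_sum_erase _ _ hi]
  have h1 : ((J b).card : ℝ) - 1 ≠ 0 := by
    have : (2 : ℝ) ≤ (J b).card := by exact_mod_cast hc
    linarith
  have h2 : ((J b).card : ℝ) ≠ 0 := by
    have : (2 : ℝ) ≤ (J b).card := by exact_mod_cast hc
    linarith
  field_simp

/-- remove a random candidate -/
lemma avA_kill {J : B → Finset (Fin m)} (hJ : ∀ b, (J b).Nonempty) (b : B)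
    (hc : 2 ≤ (J b).card) (H : (B → Fin m) → ℝ) :
    avA J H = (∑ i ∈ J b, avA (Function.update J b ((J b).erase i)) H) / (J b).card := by
  rw [avA_reveal hJ b H]
  congr 1
  have h1 : ((J b).card : ℝ) - 1 ≠ 0 := by
    have : (2 : ℝ) ≤ (J b).card := by exact_mod_cast hc
    linarith
  have h3 : ∀ i ∈ J b, avA (Function.update J b ((J b).erase i)) H =
      ((∑ i' ∈ J b, avA (Function.update J b {i'}) H) -
        avA (Function.update J b {i}) H) / ((J b).card - 1) := by
    intro i hi
    rw [avA_erase hJ b i hi hc H, ← Finset.add_sum_erase _ _ hi]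
    congr 1
    ring
  rw [Finset.sum_congr rfl h3, ← Finset.sum_div, Finset.sum_sub_distrib, Finset.sum_const,
    nsmul_eq_mul]
  field_simp

end

end Pool.Agent.Lib.MP_51bb46_lc
end
end

section

section

set_option autoImplicit false

namespace Pool.Agent.Lib.MP_51bb46_lc

open Finset

lemma choose_le_three (n k : ℕ) (hk : 1 ≤ k) : (n.choose k : ℝ) ≤ (3 * n / k) ^ k := by
  have h1 : (n.choose k : ℝ) ≤ (n : ℝ) ^ k / (k.factorial : ℝ) := Nat.choose_le_pow_div k n
  have hk0 : (0 : ℝ) < k := by exact_mod_cast hk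
  have h2 : ((k : ℝ) / 3) ^ k ≤ (k.factorial : ℝ) := by
    have h3 : (k : ℝ) ^ k / (k.factorial : ℝ) ≤ Real.exp k := by
      exact Real.pow_div_factorial_le_exp (k : ℝ) hk0.le k
    have h4 : Real.exp (k : ℝ) ≤ 3 ^ k := by
      have : Real.exp (k : ℝ) = Real.exp 1 ^ k := by
        rw [← Real.exp_nat_mul]; simp
      rw [this]
      apply pow_le_pow_left₀ (Real.exp_pos 1).le
      exact (Real.exp_one_lt_d9.le).trans (by norm_num)
    have h5 : (0 : ℝ) < (k.factorial : ℝ) := by exact_mod_cast k.factorial_pos
    rw [div_pow, div_le_iff₀ (by positivity)]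
    rw [div_le_iff₀ h5] at h3
    calc (k : ℝ) ^ k ≤ Real.exp k * (k.factorial : ℝ) := h3
      _ ≤ 3 ^ k * (k.factorial : ℝ) := by gcongr
      _ = (k.factorial : ℝ) * 3 ^ k := by ring
  calc (n.choose k : ℝ) ≤ (n : ℝ) ^ k / (k.factorial : ℝ) := h1
    _ ≤ (n : ℝ) ^ k / ((k : ℝ) / 3) ^ k := by
        apply div_le_div_of_nonneg_left (by positivity) (by positivity) h2
    _ = (3 * n / k) ^ k := by
        rw [← div_pow]; congr 1; field_simp

lemma cnt_fun {ι κ : Type*} [Fintype ι] [DecidableEq ι] [Fintype κ] [DecidableEq κ] [Nonempty κ]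
    (I : Finset ι) (E : Finset κ) (Z : Finset (ι → κ)) (hZ : ∀ f, f ∈ Z ↔ ∀ i ∈ I, f i ∈ E) :
    (Z.card : ℝ) =
      ((E.card : ℝ) / Fintype.card κ) ^ I.card * (Fintype.card κ : ℝ) ^ Fintype.card ι := by
  have h : Z =
      Fintype.piFinset (fun i => if i ∈ I then E else univ) := by
    ext f
    rw [hZ, Fintype.mem_piFinset]
    constructor
    · intro h i
      split_ifs with hi
      · exact h i hi
      · simp
    · intro h i hi
      have := h i
      rwa [if_pos hi] at this
  rw [h, Fintype.card_piFinset]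
  have h2 : ∀ i : ι, (if i ∈ I then E else (univ : Finset κ)).card =
      if i ∈ I then E.card else Fintype.card κ := by
    intro i; split_ifs <;> simp
  rw [Finset.prod_congr rfl (fun i _ => h2 i), Finset.prod_ite]
  simp only [Finset.prod_const]
  have hI : (univ.filter (fun i => i ∈ I)).card = I.card := by
    congr 1; ext i; simp
  have hI' : (univ.filter (fun i => ¬ i ∈ I)).card + I.card = Fintype.card ι := by
    have := Finset.card_filter_add_card_filter_not (s := (univ : Finset ι)) (fun i => i ∈ I)
    rw [Finset.card_univ] at this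
    omega
  rw [hI]
  have hκ : (Fintype.card κ : ℝ) ≠ 0 := by
    exact_mod_cast Fintype.card_ne_zero
  rw [← hI', pow_add, div_pow]
  push_cast
  field_simp

lemma geom_aux (n : ℕ) : ∑ s ∈ range (n + 1), (if 1 ≤ s then (1 / 4 : ℝ) ^ s else 0) ≤
    1 / 3 - 1 / 3 * (1 / 4) ^ n := by
  induction n with
  | zero => simp
  | succ n ih =>
    rw [Finset.sum_range_succ, if_pos (by omega)]
    have : (1 / 4 : ℝ) ^ (n + 1) = (1 / 4) ^ n * (1 / 4) := pow_succ _ _
    rw [this]
    linarith

/-- the term of the union bound -/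
lemma term_bound (N s : ℕ) (hs : 1 ≤ s) (hsN : 300 * s ≤ N) :
    ((N + 1).choose s : ℝ) * ((N.choose (6 * s) : ℝ) * (((6 * s : ℕ) : ℝ) / N) ^ (10 * s)) ≤
      (1 / 4) ^ s := by
  have hN1 : 1 ≤ N := by omega
  have hs' : (0 : ℝ) < s := by exact_mod_cast hs
  have hN' : (0 : ℝ) < N := by exact_mod_cast hN1
  have h1 := choose_le_three (N + 1) s hs
  have h2 := choose_le_three N (6 * s) (by omega)
  have hr : (s : ℝ) / N ≤ 1 / 300 := by
    rw [div_le_div_iff₀ hN' (by norm_num)]
    have : ((300 * s : ℕ) : ℝ) ≤ N := by exact_mod_cast hsN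
    push_cast at this
    linarith
  calc ((N + 1).choose s : ℝ) * ((N.choose (6 * s) : ℝ) * (((6 * s : ℕ) : ℝ) / N) ^ (10 * s))
      ≤ (3 * ((N + 1 : ℕ) : ℝ) / s) ^ s * ((3 * N / ((6 * s : ℕ) : ℝ)) ^ (6 * s) *
          (((6 * s : ℕ) : ℝ) / N) ^ (10 * s)) := by gcongr
    _ ≤ (6 * (N : ℝ) / s) ^ s * ((3 * N / ((6 * s : ℕ) : ℝ)) ^ (6 * s) *
          (((6 * s : ℕ) : ℝ) / N) ^ (10 * s)) := by
        have : 3 * ((N + 1 : ℕ) : ℝ) / s ≤ 6 * (N : ℝ) / s := by
          apply div_le_div_of_nonneg_right _ hs'.le
          have : (1 : ℝ) ≤ N := by exact_mod_cast hN1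
          push_cast; linarith
        gcongr
    _ = (5668704 * ((s : ℝ) / N) ^ 3) ^ s := by
        rw [pow_mul, pow_mul, ← mul_pow, ← mul_pow]
        congr 1
        push_cast
        field_simp
        norm_num
    _ ≤ (1 / 4) ^ s := by
        have h3 : ((s : ℝ) / N) ^ 3 ≤ (1 / 300) ^ 3 := by gcongr
        have h4 : 5668704 * ((s : ℝ) / N) ^ 3 ≤ 1 / 4 := by
          calc 5668704 * ((s : ℝ) / N) ^ 3 ≤ 5668704 * (1 / 300) ^ 3 := by gcongr
            _ ≤ 1 / 4 := by norm_num
        gcongr

theorem exists_graph (N : ℕ) (hN : 1 ≤ N) : ∃ g : Fin (N + 1) → Fin 10 → Fin N,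
    ∀ S : Finset (Fin (N + 1)), 1 ≤ S.card → 300 * S.card ≤ N →
      6 * S.card < (S.biUnion (fun e => univ.image (g e))).card := by
  haveI : Nonempty (Fin N) := ⟨⟨0, hN⟩⟩
  set Z : Finset (Fin (N + 1)) → Finset (Fin N) → Finset (Fin (N + 1) × Fin 10 → Fin N) :=
    fun S U => univ.filter (fun f => ∀ p ∈ S ×ˢ (univ : Finset (Fin 10)), f p ∈ U) with hZ
  set w : ℕ → ℝ := fun s => if 1 ≤ s ∧ 300 * s ≤ N then
    (N.choose (6 * s) : ℝ) * (((6 * s : ℕ) : ℝ) / N) ^ (10 * s) else 0 with hw
  set Tot : ℝ := (N : ℝ) ^ (Fintype.card (Fin (N + 1) × Fin 10)) with hTot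
  have hTotpos : 0 < Tot := by
    have : (0 : ℝ) < N := by exact_mod_cast hN
    rw [hTot]; positivity
  set 𝓕 : Finset (Finset (Fin (N + 1))) :=
    univ.filter (fun S => 1 ≤ S.card ∧ 300 * S.card ≤ N) with h𝓕
  set Bad : Finset (Fin (N + 1) × Fin 10 → Fin N) :=
    𝓕.biUnion (fun S => (univ.powersetCard (6 * S.card)).biUnion (fun U => Z S U)) with hBad
  have hZc : ∀ S U, ((Z S U).card : ℝ) = ((U.card : ℝ) / N) ^ (10 * S.card) * Tot := by
    intro S U
    have := cnt_fun (S ×ˢ (univ : Finset (Fin 10))) U (Z S U) (by intro f; simp [hZ])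
    rw [this, Finset.card_product, Finset.card_univ, Fintype.card_fin, Fintype.card_fin,
      mul_comm S.card 10]
  have hBc : (Bad.card : ℝ) ≤ (1 / 3) * Tot := by
    calc (Bad.card : ℝ) ≤ ((∑ S ∈ 𝓕, ∑ U ∈ univ.powersetCard (6 * S.card), (Z S U).card : ℕ) : ℝ) := by
          exact_mod_cast le_trans Finset.card_biUnion_le
            (Finset.sum_le_sum fun S _ => Finset.card_biUnion_le)
      _ = ∑ S ∈ 𝓕, w S.card * Tot := by
          push_cast
          apply Finset.sum_congr rfl
          intro S hS
          rw [h𝓕, mem_filter] at hS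
          have h1 : ∀ U ∈ (univ : Finset (Fin N)).powersetCard (6 * S.card),
              ((Z S U).card : ℝ) = (((6 * S.card : ℕ) : ℝ) / N) ^ (10 * S.card) * Tot := by
            intro U hU
            rw [hZc, (Finset.mem_powersetCard.mp hU).2]
          rw [Finset.sum_congr rfl h1, Finset.sum_const, Finset.card_powersetCard,
            Finset.card_univ, Fintype.card_fin, nsmul_eq_mul]
          simp only [hw, if_pos hS.2]
          ring
      _ ≤ ∑ S ∈ (univ : Finset (Fin (N + 1))).powerset, w S.card * Tot := by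
          apply Finset.sum_le_sum_of_subset_of_nonneg
          · intro S _; simp
          · intro S _ _
            have : 0 ≤ w S.card := by
              simp only [hw]; split_ifs <;> positivity
            positivity
      _ = (∑ s ∈ range (N + 2), ((N + 1).choose s : ℝ) * w s) * Tot := by
          rw [Finset.sum_powerset_apply_card (fun s => w s * Tot), Finset.card_univ,
            Fintype.card_fin, Finset.sum_mul]
          apply Finset.sum_congr rfl
          intro s _
          rw [nsmul_eq_mul]; ring
      _ ≤ (∑ s ∈ range (N + 2), (if 1 ≤ s then (1 / 4 : ℝ) ^ s else 0)) * Tot := by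
          apply mul_le_mul_of_nonneg_right _ hTotpos.le
          apply Finset.sum_le_sum
          intro s _
          simp only [hw]
          by_cases h : 1 ≤ s ∧ 300 * s ≤ N
          · rw [if_pos h, if_pos h.1]
            exact term_bound N s h.1 h.2
          · rw [if_neg h]
            split_ifs <;> simp
      _ ≤ (1 / 3) * Tot := by
          apply mul_le_mul_of_nonneg_right _ hTotpos.le
          have := geom_aux (N + 1)
          have h2 : (0 : ℝ) < (1 / 4) ^ (N + 1) := by positivity
          linarith
  have hlt : Bad.card < (univ : Finset (Fin (N + 1) × Fin 10 → Fin N)).card := by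
    have h1 : (((univ : Finset (Fin (N + 1) × Fin 10 → Fin N)).card : ℕ) : ℝ) = Tot := by
      rw [Finset.card_univ, Fintype.card_fun, Fintype.card_fin]
      push_cast; rfl
    have : (Bad.card : ℝ) < ((univ : Finset (Fin (N + 1) × Fin 10 → Fin N)).card : ℝ) := by
      rw [h1]; linarith
    exact_mod_cast this
  obtain ⟨f, _, hf⟩ := Finset.exists_mem_notMem_of_card_lt_card hlt
  refine ⟨fun e i => f (e, i), fun S hS1 hS2 => ?_⟩
  by_contra hcon
  push Not at hcon
  apply hf
  have hle : 6 * S.card ≤ (univ : Finset (Fin N)).card := by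
    rw [Finset.card_univ, Fintype.card_fin]; omega
  obtain ⟨U, hU1, hU2, hU3⟩ := Finset.exists_subsuperset_card_eq (Finset.subset_univ
    (S.biUnion (fun e => univ.image (fun i => f (e, i))))) hcon hle
  rw [hBad, mem_biUnion]
  refine ⟨S, by rw [h𝓕, mem_filter]; exact ⟨mem_univ _, hS1, hS2⟩, ?_⟩
  rw [mem_biUnion]
  refine ⟨U, Finset.mem_powersetCard.mpr ⟨hU2, hU3⟩, ?_⟩
  simp only [hZ, mem_filter, mem_univ, true_and]
  intro p hp
  apply hU1
  rw [mem_biUnion]
  exact ⟨p.1, (Finset.mem_product.mp hp).1, mem_image.mpr ⟨p.2, mem_univ _, rfl⟩⟩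

end Pool.Agent.Lib.MP_51bb46_lc
end

section

set_option autoImplicit false
set_option linter.unusedSectionVars false

namespace Pool.Agent.Lib.MP_51bb46_lc

open Finset G

variable {B : Type} [Fintype B] [DecidableEq B] {m : ℕ}

/-- the restricted function -/
def R (a : B → Fin m) (x : B × Fin m → Bool) (f : G (B × Fin m)) (y : B → Bool) : Bool :=
  f.ev (fun p => if a p.1 = p.2 then y p.1 else x p)

open Classical in
noncomputable def ind (d : ℕ) (f : G (B × Fin m)) (a : B → Fin m) (x : B × Fin m → Bool) : ℝ :=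
  if HD d (R a x f) then 0 else 1

lemma ind_congr' {d : ℕ} {f g : G (B × Fin m)} {a a' : B → Fin m} {x x' : B × Fin m → Bool}
    (h : R a x f = R a' x' g) : ind d f a x = ind d g a' x' := by
  unfold ind; rw [h]

lemma ind_nonneg (d : ℕ) (f : G (B × Fin m)) (a : B → Fin m) (x : B × Fin m → Bool) :
    0 ≤ ind d f a x := by
  unfold ind; split_ifs <;> norm_num

lemma ind_le_one (d : ℕ) (f : G (B × Fin m)) (a : B → Fin m) (x : B × Fin m → Bool) :
    ind d f a x ≤ 1 := by
  unfold ind; split_ifs <;> norm_num

/-- probability that the restricted function has large decision tree depth -/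
noncomputable def Pr (f : G (B × Fin m)) (J : B → Finset (Fin m)) (d : ℕ) : ℝ :=
  avA J (fun a => avX (fun x => ind d f a x))

lemma R_congr {f g : G (B × Fin m)} (h : ∀ x, f.ev x = g.ev x) (a : B → Fin m)
    (x : B × Fin m → Bool) : R a x f = R a x g := by
  funext y; exact h _

lemma Pr_congr {f g : G (B × Fin m)} (h : ∀ x, f.ev x = g.ev x) (J : B → Finset (Fin m)) (d : ℕ) :
    Pr f J d = Pr g J d := by
  unfold Pr
  have : ∀ a x, ind d f a x = ind d g a x := fun a x => ind_congr' (R_congr h a x)
  simp only [this]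

lemma Pr_le_one {J : B → Finset (Fin m)} (hJ : ∀ b, (J b).Nonempty) (f : G (B × Fin m)) (d : ℕ) :
    Pr f J d ≤ 1 := by
  calc Pr f J d ≤ avA J (fun _ => 1) := by
        apply avA_mono
        intro a _
        calc avX (fun x => ind d f a x) ≤ avX (fun _ => 1) := avX_mono (fun x => ind_le_one d f a x)
          _ = 1 := avX_const 1
    _ = 1 := avA_const hJ 1

lemma R_dead {f : G (B × Fin m)} {p : B × Fin m} {fb : Bool → G (B × Fin m)}
    (h : ∀ b x, (fb b).ev x = f.ev (Function.update x p b)) {a : B → Fin m} (ha : a p.1 ≠ p.2)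
    (x : B × Fin m → Bool) (u : Bool) : R a (Function.update x p u) f = R a x (fb u) := by
  funext y
  unfold R
  rw [h]
  congr 1
  funext q
  by_cases hq : q = p
  · subst hq; simp [ha]
  · simp [Function.update_of_ne hq]

lemma Pr_dead {f : G (B × Fin m)} {p : B × Fin m} {fb : Bool → G (B × Fin m)}
    (h : ∀ b x, (fb b).ev x = f.ev (Function.update x p b)) {J : B → Finset (Fin m)}
    (hp : p.2 ∉ J p.1) (d : ℕ) :
    Pr f J d = (Pr (fb false) J d + Pr (fb true) J d) / 2 := by
  unfold Pr
  rw [← avA_add, ← avA_half]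
  apply avA_congr
  intro a ha
  have hap : a p.1 ≠ p.2 := by
    intro hh
    apply hp
    rw [← hh]
    exact (Fintype.mem_piFinset.mp ha) _
  rw [avX_split _ p]
  have h5 : ∀ u x, ind d f a (Function.update x p u) = ind d (fb u) a x :=
    fun u x => ind_congr' (R_dead h hap x u)
  simp only [h5]

lemma R_alive {f : G (B × Fin m)} {p : B × Fin m} {fb : Bool → G (B × Fin m)}
    (h : ∀ b x, (fb b).ev x = f.ev (Function.update x p b)) {a : B → Fin m} (ha : a p.1 = p.2)
    (x : B × Fin m → Bool) (v : Bool) (y : B → Bool) :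
    R a x f (Function.update y p.1 v) = R a x (fb v) y := by
  unfold R
  rw [h]
  congr 1
  funext q
  by_cases hq : q = p
  · subst hq; simp [ha]
  · rw [Function.update_of_ne hq]
    by_cases hq1 : q.1 = p.1
    · have h2 : ¬ a q.1 = q.2 := by
        intro h2
        apply hq
        exact Prod.ext hq1 (by rw [← h2, hq1, ha])
      simp [h2]
    · rw [Function.update_of_ne hq1]

lemma ind_alive {f : G (B × Fin m)} {p : B × Fin m} {fb : Bool → G (B × Fin m)}
    (h : ∀ b x, (fb b).ev x = f.ev (Function.update x p b)) {a : B → Fin m} (ha : a p.1 = p.2)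
    (x : B × Fin m → Bool) (d : ℕ) :
    ind (d + 1) f a x ≤ ind d (fb false) a x + ind d (fb true) a x := by
  by_cases h0 : HD d (R a x (fb false))
  · by_cases h1 : HD d (R a x (fb true))
    · have : HD (d + 1) (R a x f) := by
        right
        refine ⟨p.1, fun v => ?_⟩
        have : (fun y => R a x f (Function.update y p.1 v)) = R a x (fb v) := by
          funext y; exact R_alive h ha x v y
        rw [this]
        cases v
        · exact h0
        · exact h1
      simp [ind, this, h0, h1]
    · have := ind_le_one (d + 1) f a x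
      simp only [ind, h0, h1, if_true, if_false] at this ⊢
      linarith
  · have := ind_le_one (d + 1) f a x
    have h2 := ind_nonneg d (fb true) a x
    have h3 : ind d (fb false) a x = 1 := by simp [ind, h0]
    linarith

lemma Pr_alive {f : G (B × Fin m)} {p : B × Fin m} {fb : Bool → G (B × Fin m)}
    (h : ∀ b x, (fb b).ev x = f.ev (Function.update x p b)) {J : B → Finset (Fin m)}
    (hp : J p.1 = {p.2}) (d : ℕ) :
    Pr f J (d + 1) ≤ Pr (fb false) J d + Pr (fb true) J d := by
  unfold Pr
  rw [← avA_add]
  apply avA_mono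
  intro a ha
  have hap : a p.1 = p.2 := by
    have := (Fintype.mem_piFinset.mp ha) p.1
    rw [hp] at this
    exact mem_singleton.mp this
  rw [← avX_add]
  exact avX_mono (fun x => ind_alive h hap x d)

lemma exists_fb (f : G (B × Fin m)) (p : B × Fin m) :
    ∃ fb : Bool → G (B × Fin m), (∀ b x, (fb b).ev x = f.ev (Function.update x p b)) ∧
      (∀ b, (fb b).occ p = 0) ∧ (∀ b j, (fb b).occ j ≤ f.occ j) := by
  obtain ⟨f', fb, h1, h2, h3, h4, h5, h6⟩ := exists_nice f p
  exact ⟨fb, h2, h3, fun b j => (h5 b j).trans (h4 j)⟩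

lemma ind_zero_of_len_zero {f : G (B × Fin m)} (hf : f.len = 0) (d : ℕ) (a : B → Fin m)
    (x : B × Fin m → Bool) : ind d f a x = 0 := by
  obtain ⟨c, hc⟩ := ev_of_len_zero f hf
  have : HD d (R a x f) := HD.const ⟨c, fun y => hc _⟩ d
  simp [ind, this]

lemma ind_zero_of_len_le_one {f : G (B × Fin m)} (hf : f.len ≤ 1) (d : ℕ) (a : B → Fin m)
    (x : B × Fin m → Bool) : ind (d + 1) f a x = 0 := by
  rcases Nat.lt_or_ge 0 f.len with h0 | h0
  · have hne : ∃ p, 0 < f.occ p := by
      by_contra hcon
      push Not at hcon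
      have : f.len = 0 := by
        rw [← sum_occ]
        exact Finset.sum_eq_zero (fun p _ => Nat.le_zero.mp (hcon p))
      omega
    obtain ⟨p, hp⟩ := hne
    obtain ⟨fb, h1, h2, h3⟩ := exists_fb f p
    have hfb : ∀ b, (fb b).len = 0 := by
      intro b
      have : (fb b).len < f.len := by
        rw [← sum_occ, ← sum_occ]
        exact Finset.sum_lt_sum (fun j _ => h3 b j) ⟨p, mem_univ p, by rw [h2]; exact hp⟩
      omega
    by_cases hap : a p.1 = p.2
    · have := ind_alive h1 hap x d
      rw [ind_zero_of_len_zero (hfb _), ind_zero_of_len_zero (hfb _)] at this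
      have := ind_nonneg (d + 1) f a x
      linarith
    · have h4 := R_dead h1 hap x (x p)
      rw [Function.update_eq_self] at h4
      have := ind_zero_of_len_zero (hfb (x p)) (d + 1) a x
      unfold ind at this ⊢
      rw [h4]; exact this
  · exact ind_zero_of_len_zero (by omega) _ a x

/-- the potential -/
noncomputable def Psi (lam : ℕ → ℝ) (f : G (B × Fin m)) (J : B → Finset (Fin m)) : ℝ :=
  ∑ b, lam (J b).card * ∑ i ∈ J b, (f.occ (b, i) : ℝ)

/-- the potential outside a block -/
noncomputable def TT (lam : ℕ → ℝ) (f : G (B × Fin m)) (J : B → Finset (Fin m)) (b : B) : ℝ :=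
  ∑ c ∈ univ.erase b, lam (J c).card * ∑ i ∈ J c, (f.occ (c, i) : ℝ)

lemma Psi_update (lam : ℕ → ℝ) (f : G (B × Fin m)) (J : B → Finset (Fin m)) (b : B)
    (K : Finset (Fin m)) :
    Psi lam f (Function.update J b K) =
      TT lam f J b + lam K.card * ∑ i ∈ K, (f.occ (b, i) : ℝ) := by
  unfold Psi TT
  rw [← Finset.add_sum_erase univ _ (mem_univ b), Function.update_self, add_comm]
  congr 1
  apply Finset.sum_congr rfl
  intro c hc
  rw [Function.update_of_ne (Finset.ne_of_mem_erase hc)]

lemma Psi_self (lam : ℕ → ℝ) (f : G (B × Fin m)) (J : B → Finset (Fin m)) (b : B) :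
    Psi lam f J = TT lam f J b + lam (J b).card * ∑ i ∈ J b, (f.occ (b, i) : ℝ) := by
  conv_lhs => rw [← Function.update_eq_self b J]
  exact Psi_update lam f J b (J b)

lemma Psi_mono {lam : ℕ → ℝ} (hl : ∀ j, 1 ≤ j → 0 ≤ lam j) {f g : G (B × Fin m)}
    (h : ∀ p, g.occ p ≤ f.occ p) {J : B → Finset (Fin m)} (hJ : ∀ b, (J b).Nonempty) :
    Psi lam g J ≤ Psi lam f J := by
  unfold Psi
  apply Finset.sum_le_sum
  intro b _
  apply mul_le_mul_of_nonneg_left _ (hl _ (hJ b).card_pos)
  apply Finset.sum_le_sum
  intro i _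
  exact_mod_cast h (b, i)

lemma TT_mono {lam : ℕ → ℝ} (hl : ∀ j, 1 ≤ j → 0 ≤ lam j) {f g : G (B × Fin m)}
    (h : ∀ p, g.occ p ≤ f.occ p) {J : B → Finset (Fin m)} (hJ : ∀ b, (J b).Nonempty) (b : B) :
    TT lam g J b ≤ TT lam f J b := by
  unfold TT
  apply Finset.sum_le_sum
  intro c _
  apply mul_le_mul_of_nonneg_left _ (hl _ (hJ c).card_pos)
  apply Finset.sum_le_sum
  intro i _
  exact_mod_cast h (c, i)

lemma Psi_nonneg {lam : ℕ → ℝ} (hl : ∀ j, 1 ≤ j → 0 ≤ lam j) (f : G (B × Fin m))
    {J : B → Finset (Fin m)} (hJ : ∀ b, (J b).Nonempty) : 0 ≤ Psi lam f J := by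
  unfold Psi
  apply Finset.sum_nonneg
  intro b _
  exact mul_nonneg (hl _ (hJ b).card_pos) (Finset.sum_nonneg fun _ _ => Nat.cast_nonneg _)

/-- sharp potential drop for restrictions of reduced formulas -/
lemma Psi_drop {lam : ℕ → ℝ} {f g : G (B × Fin m)} {J : B → Finset (Fin m)} {b : B} {i : Fin m}
    (hi : i ∈ J b) {μ : ℝ}
    (hdead : ∀ p : B × Fin m, p.2 ∉ J p.1 → f.occ p = 0)
    (hw : ∀ p : B × Fin m, 0 < f.occ p →
      μ ≤ lam ((Function.update J b ((J b).erase i)) p.1).card)
    (h : ∀ p, g.occ p ≤ f.occ p) (hg : g.occ (b, i) = 0) :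
    Psi lam g (Function.update J b ((J b).erase i)) ≤
      Psi lam f (Function.update J b ((J b).erase i)) -
        μ * ((f.len : ℝ) - f.occ (b, i) - g.len) := by
  set J' := Function.update J b ((J b).erase i) with hJ'
  have h1 : Psi lam f J' - Psi lam g J' =
      ∑ c, ∑ i' ∈ J' c, lam (J' c).card * ((f.occ (c, i') : ℝ) - g.occ (c, i')) := by
    unfold Psi
    rw [← Finset.sum_sub_distrib]
    apply Finset.sum_congr rfl
    intro c _
    rw [← mul_sub, ← Finset.sum_sub_distrib, Finset.mul_sum]
  have h2 : ∑ c, ∑ i' ∈ J' c, μ * ((f.occ (c, i') : ℝ) - g.occ (c, i')) ≤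
      ∑ c, ∑ i' ∈ J' c, lam (J' c).card * ((f.occ (c, i') : ℝ) - g.occ (c, i')) := by
    apply Finset.sum_le_sum
    intro c _
    apply Finset.sum_le_sum
    intro i' _
    rcases Nat.eq_zero_or_pos (f.occ (c, i')) with h0 | h0
    · have := h (c, i')
      have h3 : g.occ (c, i') = 0 := by omega
      rw [h0, h3]; simp
    · apply mul_le_mul_of_nonneg_right (hw (c, i') h0)
      have := h (c, i')
      have : (g.occ (c, i') : ℝ) ≤ f.occ (c, i') := by exact_mod_cast this
      linarith
  have h3 : ∑ c, ∑ i' ∈ J' c, μ * ((f.occ (c, i') : ℝ) - g.occ (c, i')) =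
      μ * ((f.len : ℝ) - f.occ (b, i) - g.len) := by
    simp only [← Finset.mul_sum]
    congr 1
    have h4 : ∀ c, ∑ i' ∈ J' c, ((f.occ (c, i') : ℝ) - g.occ (c, i')) =
        ∑ i', (((f.occ (c, i') : ℝ) - g.occ (c, i')) -
          if (c, i') = (b, i) then (f.occ (b, i) : ℝ) else 0) := by
      intro c
      rw [← Finset.sum_subset (Finset.subset_univ (J' c))]
      · apply Finset.sum_congr rfl
        intro i' hi'
        have : ¬ ((c, i') = (b, i)) := by
          intro he
          rw [Prod.mk.injEq] at he
          obtain ⟨rfl, rfl⟩ := he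
          simp [hJ'] at hi'
        rw [if_neg this, sub_zero]
      · intro i' _ hi'
        by_cases he : (c, i') = (b, i)
        · rw [if_pos he, he, hg]; simp
        · rw [if_neg he, sub_zero]
          have hnot : i' ∉ J c := by
            intro hin
            apply hi'
            by_cases hc : c = b
            · subst hc
              rw [hJ', Function.update_self, mem_erase]
              exact ⟨fun h => he (by rw [h]), hin⟩
            · rw [hJ', Function.update_of_ne hc]; exact hin
          have h5 := hdead (c, i') hnot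
          have h6 := h (c, i')
          have h7 : g.occ (c, i') = 0 := by omega
          rw [h5, h7]; simp
    rw [Finset.sum_congr rfl (fun c _ => h4 c)]
    rw [← Fintype.sum_prod_type' (f := fun c i' => ((f.occ (c, i') : ℝ) - g.occ (c, i')) -
          if (c, i') = (b, i) then (f.occ (b, i) : ℝ) else 0)]
    rw [Finset.sum_sub_distrib, Finset.sum_sub_distrib]
    have h8 : ∑ p : B × Fin m, (f.occ (p.1, p.2) : ℝ) = f.len := by
      rw [← sum_occ]; push_cast; rfl
    have h9 : ∑ p : B × Fin m, (g.occ (p.1, p.2) : ℝ) = g.len := by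
      rw [← sum_occ]; push_cast; rfl
    have h10 : ∑ p : B × Fin m, (if (p.1, p.2) = (b, i) then (f.occ (b, i) : ℝ) else 0) =
        f.occ (b, i) := by
      simp
    rw [h8, h9, h10]; ring
  linarith

/-- number of occurring variables -/
noncomputable def nv (f : G (B × Fin m)) : ℕ := (univ.filter (fun p => 0 < f.occ p)).card

lemma nv_le {f g : G (B × Fin m)} (h : ∀ p, g.occ p ≤ f.occ p) : nv g ≤ nv f := by
  apply Finset.card_le_card
  intro p hp
  rw [mem_filter] at hp ⊢
  exact ⟨hp.1, lt_of_lt_of_le hp.2 (h p)⟩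

lemma nv_lt {f g : G (B × Fin m)} (h : ∀ p, g.occ p ≤ f.occ p) {p : B × Fin m}
    (hp : g.occ p = 0) (hf : 0 < f.occ p) : nv g < nv f := by
  apply Finset.card_lt_card
  refine ⟨?_, ?_⟩
  · intro p hp
    rw [mem_filter] at hp ⊢
    exact ⟨hp.1, lt_of_lt_of_le hp.2 (h p)⟩
  · intro hsub
    have : p ∈ univ.filter (fun p => 0 < g.occ p) := hsub (by simp [hf])
    rw [mem_filter] at this
    omega

/-- size of the candidate system -/
def cs (J : B → Finset (Fin m)) : ℕ := ∑ b, (J b).card

lemma cs_update (J : B → Finset (Fin m)) (b : B) (K : Finset (Fin m)) :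
    cs (Function.update J b K) + (J b).card = cs J + K.card := by
  unfold cs
  rw [← Finset.add_sum_erase univ _ (mem_univ b),
    ← Finset.add_sum_erase univ (fun c => (J c).card) (mem_univ b), Function.update_self]
  have : ∑ c ∈ univ.erase b, (Function.update J b K c).card =
      ∑ c ∈ univ.erase b, (J c).card := by
    apply Finset.sum_congr rfl
    intro c hc
    rw [Function.update_of_ne (Finset.ne_of_mem_erase hc)]
  rw [this]
  omega

end Pool.Agent.Lib.MP_51bb46_lc
end

section

set_option autoImplicit false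
set_option linter.unusedSectionVars false

namespace Pool.Agent.Lib.MP_51bb46_lc

open Finset G

/-- the weight sequence is admissible -/
structure LamOK (lam : ℕ → ℝ) (J0 : ℕ) (z0 : ℝ) : Prop where
  one_le : 1 ≤ J0
  pos : ∀ j, 1 ≤ j → 0 < lam j
  anti : ∀ i j, 1 ≤ i → i ≤ j → lam j ≤ lam i
  base : ∀ j, 1 ≤ j → j ≤ J0 → 3 ≤ j * lam j
  hB : ∀ j : ℕ, J0 < j → ∀ o O : ℕ, o ≤ O → z0 < lam j * o → lam j * O < Real.log 4 →
    4 / j * Real.exp (-(lam j * O)) +
      (((j : ℝ) - 1) / j) * Real.exp (lam (j - 1) * ((O : ℝ) - o) - lam j * O) ≤ 1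
  hC : ∀ j : ℕ, J0 < j → ∀ m : ℕ, ∀ K : Finset (Fin m), K.card = j → ∀ o : Fin m → ℕ,
    (∀ i ∈ K, lam j * o i ≤ z0) →
    (∑ i ∈ K, Real.exp (lam (j - 1) * ((∑ i' ∈ K, (o i' : ℝ)) - o i) -
      lam j * ∑ i' ∈ K, (o i' : ℝ)) * ((1 + Real.exp (-(lam j * o i))) / 2)) / j ≤ 1

variable {B : Type} [Fintype B] [DecidableEq B] {m : ℕ}

lemma exp_two_le {a b c : ℝ} (ha : 0 ≤ a) (hb : 0 ≤ b) (h : c ≤ a + b) :
    Real.exp (-a) + Real.exp (-b) ≤ 1 + Real.exp (-c) := by
  have h1 : Real.exp (-a) ≤ 1 := Real.exp_le_one_iff.mpr (by linarith)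
  have h2 : Real.exp (-b) ≤ 1 := Real.exp_le_one_iff.mpr (by linarith)
  have h3 : Real.exp (-a) * Real.exp (-b) ≤ Real.exp (-c) := by
    rw [← Real.exp_add]; exact Real.exp_le_exp.mpr (by linarith)
  nlinarith

lemma nonempty_update {J : B → Finset (Fin m)} (hJ : ∀ b, (J b).Nonempty) (b : B)
    {K : Finset (Fin m)} (hK : K.Nonempty) : ∀ c, (Function.update J b K c).Nonempty := by
  intro c
  by_cases h : c = b
  · subst h; rwa [Function.update_self]
  · rw [Function.update_of_ne h]; exact hJ c

theorem main_bound {lam : ℕ → ℝ} {J0 : ℕ} {z0 : ℝ} (hl : LamOK lam J0 z0) (n : ℕ) :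
    ∀ (f : G (B × Fin m)) (J : B → Finset (Fin m)), (∀ b, (J b).Nonempty) →
      cs J + nv f ≤ n → ∀ d, Pr f J d ≤ (1 / 2) ^ d * Real.exp (Psi lam f J) := by
  have hl0 : ∀ j, 1 ≤ j → 0 ≤ lam j := fun j hj => (hl.pos j hj).le
  induction n using Nat.strong_induction_on with
  | _ n ih =>
  intro f₀ J hJ hn₀ d
  obtain ⟨f, hf1, hf2, hred⟩ := exists_reduced f₀
  have hn : cs J + nv f ≤ n := le_trans (Nat.add_le_add_left (nv_le hf2) _) hn₀
  have hIH : ∀ (g : G (B × Fin m)) (J' : B → Finset (Fin m)), (∀ b, (J' b).Nonempty) →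
      cs J' + nv g < cs J + nv f → ∀ d, Pr g J' d ≤ (1 / 2) ^ d * Real.exp (Psi lam g J') := by
    intro g J' h1 h2 d
    exact ih (cs J' + nv g) (by omega) g J' h1 le_rfl d
  clear ih
  rw [Pr_congr (fun x => (hf1 x).symm)]
  suffices hmain : Pr f J d ≤ (1 / 2) ^ d * Real.exp (Psi lam f J) by
    refine le_trans hmain ?_
    have := Psi_mono (lam := lam) hl0 hf2 hJ
    gcongr
  clear hf1 hf2 hn₀ f₀ hn
  have hhalf : (0 : ℝ) < (1 / 2) ^ d := by positivity
  -- small formulas
  by_cases hlen : f.len ≤ 1
  · rcases Nat.eq_zero_or_pos d with hd | hd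
    · subst hd
      have h1 := Pr_le_one hJ f 0
      have h2 : 1 ≤ Real.exp (Psi lam f J) := Real.one_le_exp (Psi_nonneg hl0 f hJ)
      simp only [pow_zero, one_mul]
      linarith
    · obtain ⟨d', rfl⟩ : ∃ d', d = d' + 1 := ⟨d - 1, by omega⟩
      have : Pr f J (d' + 1) = 0 := by
        unfold Pr
        simp only [ind_zero_of_len_le_one hlen]
        rw [avX_const, avA_const hJ]
      rw [this]; positivity
  have hlen2 : 2 ≤ f.len := by omega
  -- dead leaves
  by_cases hdead : ∃ p : B × Fin m, p.2 ∉ J p.1 ∧ 0 < f.occ p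
  · obtain ⟨p, hp, hpo⟩ := hdead
    obtain ⟨fb, h1, h2, h3⟩ := exists_fb f p
    rw [Pr_dead h1 hp]
    have h4 : ∀ u, Pr (fb u) J d ≤ (1 / 2) ^ d * Real.exp (Psi lam f J) := by
      intro u
      have h5 := hIH (fb u) J hJ (Nat.add_lt_add_left (nv_lt (h3 u) (h2 u) hpo) _) d
      refine le_trans h5 ?_
      have := Psi_mono (lam := lam) hl0 (h3 u) hJ
      gcongr
    linarith [h4 false, h4 true]
  push Not at hdead
  have hdead' : ∀ p : B × Fin m, p.2 ∉ J p.1 → f.occ p = 0 := fun p hp => by
    have := hdead p hp; omega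
  -- choose the block
  have hne : (univ.filter (fun b : B => ∃ i, 0 < f.occ (b, i))).Nonempty := by
    by_contra hcon
    rw [Finset.not_nonempty_iff_eq_empty, Finset.filter_eq_empty_iff] at hcon
    have : f.len = 0 := by
      rw [← sum_occ]
      apply Finset.sum_eq_zero
      intro p _
      have := hcon (mem_univ p.1)
      push Not at this
      have := this p.2
      exact Nat.le_zero.mp this
    omega
  obtain ⟨b, hb, hbmax⟩ := Finset.exists_max_image _ (fun b => (J b).card) hne
  rw [mem_filter] at hb
  obtain ⟨i1, hi1⟩ := hb.2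
  have hi1J : i1 ∈ J b := by
    by_contra hcon
    have := hdead' (b, i1) hcon
    omega
  set j := (J b).card with hj
  have hj1 : 1 ≤ j := (hJ b).card_pos
  have hjpos : (0 : ℝ) < j := by exact_mod_cast hj1
  set O : ℕ := ∑ i ∈ J b, f.occ (b, i) with hO
  have hOr : (O : ℝ) = ∑ i ∈ J b, (f.occ (b, i) : ℝ) := by rw [hO]; push_cast; rfl
  set T := TT lam f J b with hT
  have hPsi : Psi lam f J = T + lam j * O := by rw [Psi_self lam f J b, hOr]
  rw [hPsi]
  -- revealing the survivor
  have hrev : ∀ i ∈ J b, 0 < f.occ (b, i) →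
      Pr f (Function.update J b {i}) d ≤ 4 * ((1 / 2) ^ d * Real.exp T) := by
    intro i hi hoi
    have hJ' := nonempty_update hJ b (singleton_nonempty i)
    rcases Nat.eq_zero_or_pos d with hd | hd
    · subst hd
      have h1 := Pr_le_one hJ' f 0
      have h2 : 1 ≤ Real.exp T := by
        apply Real.one_le_exp
        rw [hT]
        unfold TT
        apply Finset.sum_nonneg
        intro c _
        exact mul_nonneg (hl0 _ (hJ c).card_pos) (Finset.sum_nonneg fun _ _ => Nat.cast_nonneg _)
      simp only [pow_zero, one_mul]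
      linarith
    · obtain ⟨d', rfl⟩ : ∃ d', d = d' + 1 := ⟨d - 1, by omega⟩
      obtain ⟨fb, h1, h2, h3⟩ := exists_fb f (b, i)
      have h4 := Pr_alive (p := (b, i)) h1 (J := Function.update J b {i})
        (by rw [Function.update_self]) d'
      have hcs := cs_update J b {i}
      rw [card_singleton] at hcs
      have h5 : ∀ u, Pr (fb u) (Function.update J b {i}) d' ≤ (1 / 2) ^ d' * Real.exp T := by
        intro u
        have hnv := nv_lt (h3 u) (h2 u) hoi
        refine le_trans (hIH (fb u) _ hJ' (by omega) d') ?_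
        have h6 : Psi lam (fb u) (Function.update J b {i}) ≤ T := by
          rw [Psi_update, sum_singleton, h2 u]
          have := TT_mono (lam := lam) hl0 (h3 u) hJ b
          simp only [Nat.cast_zero, mul_zero, add_zero]
          exact this
        gcongr
      have h7 := h5 false
      have h8 := h5 true
      rw [pow_succ]
      nlinarith [h4, h7, h8]
  have hrev0 : 2 ≤ j → ∀ i ∈ J b, f.occ (b, i) = 0 →
      Pr f (Function.update J b {i}) d ≤ (1 / 2) ^ d * Real.exp T := by
    intro hj2 i hi hoi
    have hJ' := nonempty_update hJ b (singleton_nonempty i)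
    have hcs := cs_update J b {i}
    rw [card_singleton] at hcs
    refine le_trans (hIH f _ hJ' (by omega) d) ?_
    rw [Psi_update, sum_singleton, hoi]
    simp only [Nat.cast_zero, mul_zero, add_zero]
    exact le_rfl
  -- reveal case
  have hreveal : ∀ C : ℝ, (∑ i ∈ J b, (if 0 < f.occ (b, i) then (4 : ℝ) else 1)) ≤ C * j →
      C ≤ Real.exp (lam j * O) → Pr f J d ≤ (1 / 2) ^ d * Real.exp (T + lam j * O) := by
    intro C hC1 hC2
    have h1 : ∀ i ∈ J b, Pr f (Function.update J b {i}) d ≤
        (if 0 < f.occ (b, i) then (4 : ℝ) else 1) * ((1 / 2) ^ d * Real.exp T) := by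
      intro i hi
      by_cases ho : 0 < f.occ (b, i)
      · rw [if_pos ho]; exact hrev i hi ho
      · rw [if_neg ho, one_mul]
        by_cases hj2 : 2 ≤ j
        · exact hrev0 hj2 i hi (by omega)
        · exfalso
          have hcard : (J b).card = 1 := by omega
          obtain ⟨i', hi'⟩ := card_eq_one.mp hcard
          rw [hi', mem_singleton] at hi hi1J
          rw [hi, ← hi1J] at ho
          exact ho hi1
    rw [avA_reveal hJ b (fun a => avX (fun x => ind d f a x)) |> fun h => (show Pr f J d = _ from h)]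
    rw [div_le_iff₀ hjpos]
    calc ∑ i ∈ J b, avA (Function.update J b {i}) (fun a => avX (fun x => ind d f a x))
        ≤ ∑ i ∈ J b, (if 0 < f.occ (b, i) then (4 : ℝ) else 1) * ((1 / 2) ^ d * Real.exp T) :=
          Finset.sum_le_sum h1
      _ = (∑ i ∈ J b, (if 0 < f.occ (b, i) then (4 : ℝ) else 1)) *
            ((1 / 2) ^ d * Real.exp T) := by rw [Finset.sum_mul]
      _ ≤ (C * j) * ((1 / 2) ^ d * Real.exp T) := by gcongr
      _ ≤ (Real.exp (lam j * O) * j) * ((1 / 2) ^ d * Real.exp T) := by gcongr
      _ = (1 / 2) ^ d * Real.exp (T + lam j * O) * j := by rw [Real.exp_add]; ring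
  by_cases hcase1 : j ≤ J0
  · apply hreveal (1 + 3 * O / j)
    · calc (∑ i ∈ J b, (if 0 < f.occ (b, i) then (4 : ℝ) else 1))
          ≤ ∑ i ∈ J b, (1 + 3 * (f.occ (b, i) : ℝ)) := by
            apply Finset.sum_le_sum
            intro i _
            split_ifs with h
            · have : (1 : ℝ) ≤ f.occ (b, i) := by exact_mod_cast h
              linarith
            · have : (0 : ℝ) ≤ f.occ (b, i) := Nat.cast_nonneg _
              linarith
        _ = (1 + 3 * O / j) * j := by
            rw [Finset.sum_add_distrib, ← Finset.mul_sum, ← hOr, Finset.sum_const, nsmul_eq_mul,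
              mul_one, ← hj]
            field_simp
    · have h1 := Real.add_one_le_exp (3 * (O : ℝ) / j)
      have h2 : 3 * (O : ℝ) / j ≤ lam j * O := by
        rw [div_le_iff₀ hjpos]
        have := hl.base j hj1 hcase1
        have h3 : (0 : ℝ) ≤ O := Nat.cast_nonneg _
        nlinarith
      have h4 := Real.exp_le_exp.mpr h2
      linarith
  push Not at hcase1
  by_cases hcase2 : Real.log 4 ≤ lam j * O
  · apply hreveal 4
    · calc (∑ i ∈ J b, (if 0 < f.occ (b, i) then (4 : ℝ) else 1)) ≤ ∑ i ∈ J b, (4 : ℝ) := by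
            apply Finset.sum_le_sum
            intro i _
            split_ifs <;> norm_num
        _ = 4 * j := by rw [Finset.sum_const, nsmul_eq_mul]; ring
    · rw [← Real.exp_log (by norm_num : (0 : ℝ) < 4)]
      exact Real.exp_le_exp.mpr hcase2
  push Not at hcase2
  have hJ0 := hl.one_le
  have hj2 : 2 ≤ j := by omega
  by_cases hcase3 : ∃ i ∈ J b, z0 < lam j * f.occ (b, i)
  · -- a frequent candidate
    obtain ⟨i, hi, hz⟩ := hcase3
    set o := f.occ (b, i) with ho
    have hoO : o ≤ O := Finset.single_le_sum (f := fun i => f.occ (b, i))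
      (fun _ _ => Nat.zero_le _) hi
    have hB := hl.hB j hcase1 o O hoO hz hcase2
    have hK : ((J b).erase i).Nonempty := by
      rw [← Finset.card_pos, Finset.card_erase_of_mem hi]; omega
    have hJ' := nonempty_update hJ b hK
    have hcs := cs_update J b ((J b).erase i)
    rw [card_erase_of_mem hi, ← hj] at hcs
    obtain ⟨fb, h1, h2, h3⟩ := exists_fb f (b, i)
    have hPsi' : Psi lam f (Function.update J b ((J b).erase i)) =
        T + lam (j - 1) * ((O : ℝ) - o) := by
      rw [Psi_update, card_erase_of_mem hi, ← hj, ← hT]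
      congr 2
      have := Finset.add_sum_erase (J b) (fun i => (f.occ (b, i) : ℝ)) hi
      rw [hOr, ← this]
      ring
    have h4 : Pr f (Function.update J b ((J b).erase i)) d ≤
        (1 / 2) ^ d * Real.exp (T + lam (j - 1) * ((O : ℝ) - o)) := by
      rw [Pr_dead (p := (b, i)) h1 (by simp)]
      have h5 : ∀ u, Pr (fb u) (Function.update J b ((J b).erase i)) d ≤
          (1 / 2) ^ d * Real.exp (T + lam (j - 1) * ((O : ℝ) - o)) := by
        intro u
        have hnv : nv (fb u) ≤ nv f := nv_le (h3 u)
        refine le_trans (hIH (fb u) _ hJ' (by omega) d) ?_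
        rw [← hPsi']
        have := Psi_mono (lam := lam) hl0 (h3 u) hJ'
        gcongr
      linarith [h5 false, h5 true]
    have h6 : Pr f (Function.update J b {i}) d ≤ 4 * ((1 / 2) ^ d * Real.exp T) := by
      by_cases ho0 : 0 < f.occ (b, i)
      · exact hrev i hi ho0
      · have := hrev0 hj2 i hi (by omega)
        have h7 : 0 ≤ (1 / 2) ^ d * Real.exp T := by positivity
        linarith
    have h8 : Pr f J d = Pr f (Function.update J b {i}) d / j +
        (((j : ℝ) - 1) / j) * Pr f (Function.update J b ((J b).erase i)) d :=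
      avA_one hJ b i hi hj2 _
    rw [h8]
    have hj1' : (0 : ℝ) ≤ ((j : ℝ) - 1) / j := by
      apply div_nonneg _ hjpos.le
      have : (1 : ℝ) ≤ j := by exact_mod_cast hj1
      linarith
    calc Pr f (Function.update J b {i}) d / j +
          (((j : ℝ) - 1) / j) * Pr f (Function.update J b ((J b).erase i)) d
        ≤ 4 * ((1 / 2) ^ d * Real.exp T) / j + (((j : ℝ) - 1) / j) *
            ((1 / 2) ^ d * Real.exp (T + lam (j - 1) * ((O : ℝ) - o))) := by gcongr
      _ = ((1 / 2) ^ d * Real.exp (T + lam j * O)) * (4 / j * Real.exp (-(lam j * O)) +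
      (((j : ℝ) - 1) / j) * Real.exp (lam (j - 1) * ((O : ℝ) - o) - lam j * O)) := by
          have e1 : Real.exp T = Real.exp (T + lam j * O) * Real.exp (-(lam j * O)) := by
            rw [← Real.exp_add]; congr 1; ring
          have e2 : Real.exp (T + lam (j - 1) * ((O : ℝ) - o)) = Real.exp (T + lam j * O) *
              Real.exp (lam (j - 1) * ((O : ℝ) - o) - lam j * O) := by
            rw [← Real.exp_add]; congr 1; ring
          rw [e1, e2]; ring
      _ ≤ ((1 / 2) ^ d * Real.exp (T + lam j * O)) * 1 := by gcongr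
      _ = _ := by ring
  · -- all candidates infrequent
    push Not at hcase3
    have hC := hl.hC j hcase1 m (J b) rfl (fun i => f.occ (b, i)) hcase3
    rw [← hOr] at hC
    have h0 : Pr f J d = (∑ i ∈ J b, Pr f (Function.update J b ((J b).erase i)) d) / j :=
      avA_kill hJ b hj2 _
    rw [h0]
    have key : ∀ i ∈ J b, Pr f (Function.update J b ((J b).erase i)) d ≤
        ((1 / 2) ^ d * Real.exp (T + lam j * O)) *
        (Real.exp (lam (j - 1) * ((O : ℝ) - f.occ (b, i)) - lam j * O) *
          ((1 + Real.exp (-(lam j * f.occ (b, i)))) / 2)) := by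
      intro i hi
      have hK : ((J b).erase i).Nonempty := by
        rw [← Finset.card_pos, Finset.card_erase_of_mem hi]; omega
      have hJ' := nonempty_update hJ b hK
      have hcs := cs_update J b ((J b).erase i)
      rw [card_erase_of_mem hi, ← hj] at hcs
      obtain ⟨fb, h1, h2, h3, h4⟩ := hred.step hlen2 (b, i)
      have hPsi' : Psi lam f (Function.update J b ((J b).erase i)) =
          T + lam (j - 1) * ((O : ℝ) - f.occ (b, i)) := by
        rw [Psi_update, card_erase_of_mem hi, ← hj, ← hT]
        congr 2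
        have := Finset.add_sum_erase (J b) (fun i => (f.occ (b, i) : ℝ)) hi
        rw [hOr, ← this]
        ring
      have hw : ∀ p : B × Fin m, 0 < f.occ p →
          lam j ≤ lam ((Function.update J b ((J b).erase i)) p.1).card := by
        intro p hp
        by_cases hpb : p.1 = b
        · rw [hpb, Function.update_self, card_erase_of_mem hi, ← hj]
          exact hl.anti _ _ (by omega) (by omega)
        · rw [Function.update_of_ne hpb]
          apply hl.anti _ _ (hJ p.1).card_pos
          exact hbmax p.1 (by rw [mem_filter]; exact ⟨mem_univ _, p.2, hp⟩)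
      have hlb : ∀ u, (fb u).len + f.occ (b, i) ≤ f.len := by
        intro u
        have e1 : (fb u).len = ∑ p ∈ univ.erase (b, i), (fb u).occ p := by
          rw [← sum_occ, ← Finset.add_sum_erase univ _ (mem_univ (b, i)), h2 u, zero_add]
        have e2 : f.len = f.occ (b, i) + ∑ p ∈ univ.erase (b, i), f.occ p := by
          rw [← sum_occ, ← Finset.add_sum_erase univ _ (mem_univ (b, i))]
        have e3 : ∑ p ∈ univ.erase (b, i), (fb u).occ p ≤ ∑ p ∈ univ.erase (b, i), f.occ p :=
          Finset.sum_le_sum (fun p _ => h3 u p)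
        omega
      set D : Bool → ℝ := fun u => (f.len : ℝ) - f.occ (b, i) - (fb u).len with hD
      have hD0 : ∀ u, 0 ≤ D u := by
        intro u
        have : (((fb u).len + f.occ (b, i) : ℕ) : ℝ) ≤ f.len := by exact_mod_cast hlb u
        push_cast at this
        simp only [hD]; linarith
      have hDs : (f.occ (b, i) : ℝ) ≤ D false + D true := by
        have : ((3 * f.occ (b, i) + (fb false).len + (fb true).len : ℕ) : ℝ) ≤ (2 * f.len : ℕ) := by
          exact_mod_cast h4
        push_cast at this
        simp only [hD]; linarith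
      have h5 : ∀ u, Pr (fb u) (Function.update J b ((J b).erase i)) d ≤
          (1 / 2) ^ d * (Real.exp (T + lam (j - 1) * ((O : ℝ) - f.occ (b, i))) *
            Real.exp (-(lam j * D u))) := by
        intro u
        have hnv : nv (fb u) ≤ nv f := nv_le (h3 u)
        refine le_trans (hIH (fb u) _ hJ' (by omega) d) ?_
        rw [← Real.exp_add]
        have h6 := Psi_drop (lam := lam) (J := J) hi (μ := lam j) hdead' hw (h3 u) (h2 u)
        rw [hPsi'] at h6
        have h7 : Psi lam (fb u) (Function.update J b ((J b).erase i)) ≤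
            T + lam (j - 1) * ((O : ℝ) - f.occ (b, i)) + -(lam j * D u) := by
          simp only [hD]; linarith
        gcongr
      have h6 : Real.exp (-(lam j * D false)) + Real.exp (-(lam j * D true)) ≤
          1 + Real.exp (-(lam j * f.occ (b, i))) := by
        have hlj := hl0 j hj1
        apply exp_two_le (mul_nonneg hlj (hD0 _)) (mul_nonneg hlj (hD0 _))
        rw [← mul_add]
        exact mul_le_mul_of_nonneg_left hDs hlj
      rw [Pr_dead (p := (b, i)) h1 (by simp)]
      calc (Pr (fb false) (Function.update J b ((J b).erase i)) d +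
            Pr (fb true) (Function.update J b ((J b).erase i)) d) / 2
          ≤ ((1 / 2) ^ d * (Real.exp (T + lam (j - 1) * ((O : ℝ) - f.occ (b, i))) *
            Real.exp (-(lam j * D false))) +
            (1 / 2) ^ d * (Real.exp (T + lam (j - 1) * ((O : ℝ) - f.occ (b, i))) *
            Real.exp (-(lam j * D true)))) / 2 := by
            linarith [h5 false, h5 true]
        _ = (1 / 2) ^ d * Real.exp (T + lam (j - 1) * ((O : ℝ) - f.occ (b, i))) *
            ((Real.exp (-(lam j * D false)) + Real.exp (-(lam j * D true))) / 2) := by ring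
        _ ≤ (1 / 2) ^ d * Real.exp (T + lam (j - 1) * ((O : ℝ) - f.occ (b, i))) *
            ((1 + Real.exp (-(lam j * f.occ (b, i)))) / 2) := by gcongr
        _ = _ := by
          have e2 : Real.exp (T + lam (j - 1) * ((O : ℝ) - f.occ (b, i))) =
              Real.exp (T + lam j * O) *
              Real.exp (lam (j - 1) * ((O : ℝ) - f.occ (b, i)) - lam j * O) := by
            rw [← Real.exp_add]; congr 1; ring
          rw [e2]; ring
    calc (∑ i ∈ J b, Pr f (Function.update J b ((J b).erase i)) d) / j
        ≤ (∑ i ∈ J b, ((1 / 2) ^ d * Real.exp (T + lam j * O)) *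
        (Real.exp (lam (j - 1) * ((O : ℝ) - f.occ (b, i)) - lam j * O) *
          ((1 + Real.exp (-(lam j * f.occ (b, i)))) / 2))) / j := by
          have := Finset.sum_le_sum key
          gcongr
      _ = ((1 / 2) ^ d * Real.exp (T + lam j * O)) *
        ((∑ i ∈ J b, (Real.exp (lam (j - 1) * ((O : ℝ) - f.occ (b, i)) - lam j * O) *
          ((1 + Real.exp (-(lam j * f.occ (b, i)))) / 2))) / j) := by
          rw [← Finset.mul_sum]; ring
      _ ≤ ((1 / 2) ^ d * Real.exp (T + lam j * O)) * 1 := by gcongr
      _ = _ := by ring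

end Pool.Agent.Lib.MP_51bb46_lc
end

section

set_option autoImplicit false
set_option linter.unusedSectionVars false

namespace Pool.Agent.Lib.MP_51bb46_lc

open Finset

/-- bits as residues -/
def zb (b : Bool) : ZMod 2 := if b then 1 else 0

lemma zb_inj {a b : Bool} (h : zb a = zb b) : a = b := by
  revert h; cases a <;> cases b <;> simp [zb]

lemma zb_not (a : Bool) : zb (!a) = zb a + 1 := by
  cases a
  · simp [zb]
  · simp only [zb]; decide

lemma zb_xor (a b : Bool) : zb (xor a b) = zb a + zb b := by
  cases a <;> cases b <;> decide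

section Sys

variable {N t : ℕ}

/-- equation `e` of the linear system -/
def Eqn (g : Fin (N + 1) → Fin t → Fin N) (rhs : Fin (N + 1) → ZMod 2) (e : Fin (N + 1))
    (y : Fin N → Bool) : Prop := ∑ i, zb (y (g e i)) = rhs e

lemma exists_rhs (g : Fin (N + 1) → Fin t → Fin N) :
    ∃ rhs : Fin (N + 1) → ZMod 2, ∀ y, ∃ e, ¬ Eqn g rhs e y := by
  by_contra hcon
  push Not at hcon
  have hsurj : Function.Surjective
      (fun (y : Fin N → Bool) => fun e => ∑ i, zb (y (g e i))) := by
    intro rhs
    obtain ⟨y, hy⟩ := hcon rhs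
    exact ⟨y, funext hy⟩
  have := Fintype.card_le_of_surjective _ hsurj
  rw [Fintype.card_fun, Fintype.card_fun, Fintype.card_bool, Fintype.card_fin, Fintype.card_fin,
    ZMod.card] at this
  have h2 : 2 ^ N < 2 ^ (N + 1) := Nat.pow_lt_pow_right (by norm_num) (by omega)
  omega

/-- partial assignments -/
def Agree (α : Fin N → Option Bool) (y : Fin N → Bool) : Prop := ∀ v c, α v = some c → y v = c

def dom (α : Fin N → Option Bool) : Finset (Fin N) := univ.filter (fun v => α v ≠ none)

def Sub (α β : Fin N → Option Bool) : Prop := ∀ v c, α v = some c → β v = some c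

lemma Sub.agree {α β : Fin N → Option Bool} (h : Sub α β) {y : Fin N → Bool} (hy : Agree β y) :
    Agree α y := fun v c hv => hy v c (h v c hv)

lemma Sub.trans {α β γ : Fin N → Option Bool} (h : Sub α β) (h' : Sub β γ) : Sub α γ :=
  fun v c hv => h' v c (h v c hv)

lemma dom_update (α : Fin N → Option Bool) (v : Fin N) (c : Bool) :
    (dom (Function.update α v (some c))).card ≤ (dom α).card + 1 := by
  have : dom (Function.update α v (some c)) ⊆ insert v (dom α) := by
    intro w hw
    rw [mem_insert]
    by_cases h : w = v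
    · exact Or.inl h
    · right
      simpa [dom, Function.update_of_ne h] using hw
  exact (Finset.card_le_card this).trans (Finset.card_insert_le _ _)

variable (g : Fin (N + 1) → Fin t → Fin N) (rhs : Fin (N + 1) → ZMod 2)

/-- locally consistent partial assignments -/
def Good (q : ℕ) (α : Fin N → Option Bool) : Prop :=
  ∀ S : Finset (Fin (N + 1)), S.card ≤ q → ∃ y, Agree α y ∧ ∀ e ∈ S, Eqn g rhs e y

variable {g rhs}

lemma Good.sub {q : ℕ} {α β : Fin N → Option Bool} (h : Good g rhs q β) (hs : Sub α β) :
    Good g rhs q α := by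
  intro S hS
  obtain ⟨y, hy, h2⟩ := h S hS
  exact ⟨y, hs.agree hy, h2⟩

/-- the unique neighbours of a minimal inconsistent set are assigned -/
lemma unique_mem_dom {α : Fin N → Option Bool} {S : Finset (Fin (N + 1))}
    (hS : ¬ ∃ y, Agree α y ∧ ∀ e ∈ S, Eqn g rhs e y)
    (hmin : ∀ e ∈ S, ∃ y, Agree α y ∧ ∀ e' ∈ S.erase e, Eqn g rhs e' y)
    (v : Fin N) (hv : ((S ×ˢ (univ : Finset (Fin t))).filter (fun p => g p.1 p.2 = v)).card = 1) :
    v ∈ dom α := by
  by_contra hdom
  have hα : α v = none := by
    by_contra h; exact hdom (by simp [dom, h])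
  obtain ⟨p, hp⟩ := Finset.card_eq_one.mp hv
  have hpm : p ∈ (S ×ˢ (univ : Finset (Fin t))).filter (fun p => g p.1 p.2 = v) := by
    rw [hp]; exact mem_singleton_self p
  rw [mem_filter, mem_product] at hpm
  obtain ⟨⟨hpS, _⟩, hpv⟩ := hpm
  have honly : ∀ e ∈ S, ∀ i, g e i = v → (e, i) = p := by
    intro e he i hi
    have : (e, i) ∈ (S ×ˢ (univ : Finset (Fin t))).filter (fun p => g p.1 p.2 = v) := by
      rw [mem_filter, mem_product]; exact ⟨⟨he, mem_univ _⟩, hi⟩
    rw [hp, mem_singleton] at this
    exact this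
  obtain ⟨y, hy, hy2⟩ := hmin p.1 hpS
  by_cases hE : Eqn g rhs p.1 y
  · apply hS
    refine ⟨y, hy, fun e he => ?_⟩
    by_cases h : e = p.1
    · rw [h]; exact hE
    · exact hy2 e (mem_erase.mpr ⟨h, he⟩)
  · apply hS
    refine ⟨Function.update y v (!(y v)), ?_, ?_⟩
    · intro w c hw
      have : w ≠ v := by rintro rfl; rw [hα] at hw; cases hw
      rw [Function.update_of_ne this]; exact hy w c hw
    · intro e he
      by_cases h : e = p.1
      · subst h
        unfold Eqn at hE ⊢
        have h1 : ∀ i ∈ univ.erase p.2, zb (Function.update y v (!(y v)) (g p.1 i)) =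
            zb (y (g p.1 i)) := by
          intro i hi
          have : g p.1 i ≠ v := by
            intro hh
            have := honly p.1 hpS i hh
            have : i = p.2 := by rw [← this]
            exact (mem_erase.mp hi).1 this
          rw [Function.update_of_ne this]
        rw [← Finset.add_sum_erase univ _ (mem_univ p.2)] at hE ⊢
        rw [Finset.sum_congr rfl h1, hpv, Function.update_self, zb_not]
        rw [hpv] at hE
        set s := ∑ i ∈ univ.erase p.2, zb (y (g p.1 i))
        set u := zb (y v)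
        set b := rhs p.1
        clear_value s u b
        revert hE
        revert s u b
        decide
      · have h1 : ∀ i, g e i ≠ v := by
          intro i hi
          have := honly e he i hi
          apply h
          rw [← this]
        have h2 := hy2 e (mem_erase.mpr ⟨h, he⟩)
        unfold Eqn at h2 ⊢
        rw [← h2]
        apply Finset.sum_congr rfl
        intro i _
        rw [Function.update_of_ne (h1 i)]

lemma unique_count (S : Finset (Fin (N + 1))) :
    2 * (S.biUnion (fun e => univ.image (g e))).card ≤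
      (univ.filter (fun v => ((S ×ˢ (univ : Finset (Fin t))).filter
        (fun p => g p.1 p.2 = v)).card = 1)).card + t * S.card := by
  set c : Fin N → ℕ := fun v => ((S ×ˢ (univ : Finset (Fin t))).filter
        (fun p => g p.1 p.2 = v)).card with hc
  have h1 : ∑ v, c v = t * S.card := by
    have := Finset.card_eq_sum_card_fiberwise (s := S ×ˢ (univ : Finset (Fin t)))
      (f := fun p => g p.1 p.2) (t := univ) (fun _ _ => mem_univ _)
    rw [Finset.card_product, Finset.card_univ, Fintype.card_fin] at this
    rw [mul_comm, this]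
  have h2 : (S.biUnion (fun e => univ.image (g e))).card =
      ∑ v, if 1 ≤ c v then 1 else 0 := by
    rw [Finset.sum_boole]
    simp only [Nat.cast_id]
    congr 1
    ext v
    simp only [mem_biUnion, mem_image, mem_univ, true_and, mem_filter, hc]
    constructor
    · rintro ⟨e, he, i, hi⟩
      exact Finset.card_pos.mpr ⟨(e, i), by simp [he, hi]⟩
    · intro h
      obtain ⟨p, hp⟩ := Finset.card_pos.mp h
      rw [mem_filter, mem_product] at hp
      exact ⟨p.1, hp.1.1, p.2, hp.2⟩
  have h3 : (univ.filter (fun v => c v = 1)).card = ∑ v, if c v = 1 then 1 else 0 := by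
    rw [Finset.sum_boole]; simp
  rw [h2, h3, ← h1, Finset.mul_sum, ← Finset.sum_add_distrib]
  apply Finset.sum_le_sum
  intro v _
  split_ifs <;> omega

end Sys

section Sys10

variable {N : ℕ} {g : Fin (N + 1) → Fin 10 → Fin N} {rhs : Fin (N + 1) → ZMod 2}

lemma Good.extend {q : ℕ}
    (hg : ∀ S : Finset (Fin (N + 1)), 1 ≤ S.card → S.card ≤ 2 * q →
      6 * S.card < (S.biUnion (fun e => univ.image (g e))).card)
    {α : Fin N → Option Bool} (h : Good g rhs q α) (hα : (dom α).card ≤ 2 * q) (v : Fin N) :
    ∃ c, Good g rhs q (Function.update α v (some c)) ∧ Sub α (Function.update α v (some c)) := by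
  rcases hv : α v with _ | c
  · -- unassigned
    suffices hc : ∃ c, Good g rhs q (Function.update α v (some c)) by
      obtain ⟨c, hc⟩ := hc
      refine ⟨c, hc, fun w c' hw => ?_⟩
      have : w ≠ v := by rintro rfl; rw [hv] at hw; cases hw
      rw [Function.update_of_ne this]; exact hw
    by_contra hcon
    push Not at hcon
    unfold Good at hcon
    push Not at hcon
    obtain ⟨S0, hS0, h0⟩ := hcon false
    obtain ⟨S1, hS1, h1⟩ := hcon true
    have hun : ¬ ∃ y, Agree α y ∧ ∀ e ∈ S0 ∪ S1, Eqn g rhs e y := by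
      rintro ⟨y, hy, hE⟩
      have hag : ∀ c, y v = c → Agree (Function.update α v (some c)) y := by
        intro c hc w c' hw
        by_cases hwv : w = v
        · subst hwv
          rw [Function.update_self] at hw
          rw [hc]; exact Option.some.inj hw
        · rw [Function.update_of_ne hwv] at hw; exact hy w c' hw
      cases hyv : y v with
      | false =>
        obtain ⟨e, he, hne⟩ := h0 y (hag _ hyv)
        exact hne (hE e (mem_union_left _ he))
      | true =>
        obtain ⟨e, he, hne⟩ := h1 y (hag _ hyv)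
        exact hne (hE e (mem_union_right _ he))
    -- a minimal inconsistent subset
    obtain ⟨S, hSsub, hSmin⟩ : ∃ S, S ⊆ S0 ∪ S1 ∧
        Minimal (fun S : Finset (Fin (N + 1)) =>
          ¬ ∃ y, Agree α y ∧ ∀ e ∈ S, Eqn g rhs e y) S := by
      obtain ⟨S, h1, h2⟩ := exists_minimal_le_of_wellFoundedLT
        (fun S : Finset (Fin (N + 1)) => ¬ ∃ y, Agree α y ∧ ∀ e ∈ S, Eqn g rhs e y) (S0 ∪ S1) hun
      exact ⟨S, h1, h2⟩
    have hScard : S.card ≤ 2 * q := by
      have h3 := Finset.card_le_card hSsub
      have h4 := Finset.card_union_le S0 S1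
      omega
    have hSq : q < S.card := by
      by_contra hle
      push Not at hle
      exact hSmin.prop (h S hle)
    have hmin : ∀ e ∈ S, ∃ y, Agree α y ∧ ∀ e' ∈ S.erase e, Eqn g rhs e' y := by
      intro e he
      by_contra hcon
      have h5 := hSmin.le_of_le hcon (Finset.erase_subset e S)
      exact Finset.notMem_erase e S (h5 he)
    have hcount := unique_count (g := g) S
    have hexp := hg S (by omega) hScard
    have hsub : (univ.filter (fun v => ((S ×ˢ (univ : Finset (Fin 10))).filter
        (fun p => g p.1 p.2 = v)).card = 1)) ⊆ dom α := by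
      intro w hw
      rw [mem_filter] at hw
      exact unique_mem_dom hSmin.prop hmin w hw.2
    have := Finset.card_le_card hsub
    omega
  · refine ⟨c, ?_, ?_⟩
    · rw [← hv, Function.update_eq_self]; exact h
    · rw [← hv, Function.update_eq_self]; exact fun _ _ h => h

lemma query {q : ℕ}
    (hg : ∀ S : Finset (Fin (N + 1)), 1 ≤ S.card → S.card ≤ 2 * q →
      6 * S.card < (S.biUnion (fun e => univ.image (g e))).card) (d : ℕ) :
    ∀ (f : (Fin N → Bool) → Bool) (α : Fin N → Option Bool), HD d f → Good g rhs q α →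
      (dom α).card + d ≤ 2 * q →
      ∃ α' π c, Sub α α' ∧ Sub π α' ∧ Good g rhs q α' ∧ (dom α').card ≤ (dom α).card + d ∧
        (dom π).card ≤ d ∧ ∀ y, Agree π y → f y = c := by
  have hconst : ∀ (d : ℕ) (f : (Fin N → Bool) → Bool) (α : Fin N → Option Bool),
      (∃ c, ∀ y, f y = c) → Good g rhs q α →
      ∃ α' π c, Sub α α' ∧ Sub π α' ∧ Good g rhs q α' ∧ (dom α').card ≤ (dom α).card + d ∧
        (dom π).card ≤ d ∧ ∀ y, Agree π y → f y = c := by
    rintro d f α ⟨c, hc⟩ hα
    refine ⟨α, fun _ => none, c, fun _ _ h => h, ?_, hα, by omega, ?_, fun y _ => hc y⟩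
    · intro v c hv; cases hv
    · simp [dom]
  induction d with
  | zero => intro f α hf hα _; exact hconst 0 f α hf hα
  | succ d ih =>
    intro f α hf hα hsz
    rcases hf with hf | ⟨b, hb⟩
    · exact hconst (d + 1) f α hf hα
    · obtain ⟨c0, hc0, hsub⟩ := Good.extend hg hα (by omega) b
      have hd := dom_update α b c0
      obtain ⟨α', π, c, h1, h2, h3, h4, h5, h6⟩ := ih _ _ (hb c0) hc0 (by omega)
      have hα'b : α' b = some c0 := h1 b c0 (by rw [Function.update_self])
      refine ⟨α', Function.update π b (some c0), c, hsub.trans h1, ?_, h3, by omega, ?_, ?_⟩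
      · intro v c' hv
        by_cases h : v = b
        · subst h
          rw [Function.update_self] at hv
          rw [hα'b]; exact hv
        · rw [Function.update_of_ne h] at hv; exact h2 v c' hv
      · exact (dom_update π b c0).trans (by omega)
      · intro y hy
        have hyb : y b = c0 := hy b c0 (by rw [Function.update_self])
        have h7 := h6 y (by
          intro v c' hv
          by_cases h : v = b
          · subst h
            have := h2 v c' hv
            rw [hα'b] at this
            rw [hyb]; exact Option.some.inj this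
          · exact hy v c' (by rw [Function.update_of_ne h]; exact hv))
        rw [← hyb, Function.update_eq_self] at h7
        exact h7

lemma query_all {q : ℕ}
    (hg : ∀ S : Finset (Fin (N + 1)), 1 ≤ S.card → S.card ≤ 2 * q →
      6 * S.card < (S.biUnion (fun e => univ.image (g e))).card) (d : ℕ) {ι : Type}
    [DecidableEq ι] (h : ι → (Fin N → Bool) → Bool) (P : Finset ι) :
    ∀ (α : Fin N → Option Bool), (∀ p ∈ P, HD d (h p)) → Good g rhs q α →
      (dom α).card + P.card * d ≤ 2 * q →
      ∃ α', Sub α α' ∧ Good g rhs q α' ∧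
        ∀ p ∈ P, ∃ π c, Sub π α' ∧ (dom π).card ≤ d ∧ ∀ y, Agree π y → h p y = c := by
  induction P using Finset.induction_on with
  | empty => intro α _ hα _; exact ⟨α, fun _ _ h => h, hα, fun p hp => by simp at hp⟩
  | insert p P hp ih =>
    intro α hP hα hsz
    rw [Finset.card_insert_of_notMem hp, add_mul, one_mul] at hsz
    obtain ⟨α', π, c, h1, h2, h3, h4, h5, h6⟩ :=
      query hg d (h p) α (hP p (mem_insert_self p P)) hα (by omega)
    obtain ⟨α'', k1, k2, k3⟩ := ih α' (fun p' hp' => hP p' (mem_insert_of_mem hp')) h3 (by omega)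
    refine ⟨α'', h1.trans k1, k2, fun p' hp' => ?_⟩
    rcases mem_insert.mp hp' with rfl | hp'
    · exact ⟨π, c, h2.trans k1, h5, h6⟩
    · exact k3 p' hp'

/-- **Descent.** -/
theorem descent {q : ℕ}
    (hg : ∀ S : Finset (Fin (N + 1)), 1 ≤ S.card → S.card ≤ 2 * q →
      6 * S.card < (S.biUnion (fun e => univ.image (g e))).card)
    {ℓ r t d : ℕ} (h : Fin ℓ → (Fin N → Bool) → Bool) (Ax : Finset (Fin ℓ))
    (hAx : ∀ i ∈ Ax, ∃ e, ∀ y, Eqn g rhs e y → h i y = true)
    (hInf : ∀ i, i ∉ Ax → ∃ P : Finset (Fin ℓ), P.card ≤ r ∧ (∀ p ∈ P, p < i) ∧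
      ∀ y, (∀ p ∈ P, h p y = true) → h i y = true)
    (Lg : Finset (Fin ℓ)) (hLg : Lg.card ≤ t) (hSh : ∀ i, i ∉ Lg → HD d (h i))
    (hq : 1 ≤ q) (hrq : r * (t + 1) ≤ q) (hd : d * (r * (t + 1) + 1) ≤ 2 * q)
    (hlast : ∃ i, ∀ y, h i y = false) : False := by
  choose! prem hp1 hp2 hp3 using hInf
  -- expansion of the premises
  have hexp : ∀ i, i ∉ Ax → ∃ P : Finset (Fin ℓ), P.card ≤ r * (t + 1) ∧ (∀ p ∈ P, p < i) ∧
      (∀ p ∈ P, p ∈ Ax ∨ p ∉ Lg) ∧ ∀ y, (∀ p ∈ P, h p y = true) → h i y = true := by
    intro i hi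
    set Z := (Lg \ Ax).filter (fun z => z < i) with hZ
    have hZi : ∀ z ∈ insert i Z, z ∉ Ax ∧ z ≤ i := by
      intro z hz
      rcases mem_insert.mp hz with rfl | hz
      · exact ⟨hi, le_rfl⟩
      · rw [hZ, mem_filter, mem_sdiff] at hz
        exact ⟨hz.1.2, hz.2.le⟩
    refine ⟨((insert i Z).biUnion prem) \ (Lg \ Ax), ?_, ?_, ?_, ?_⟩
    · calc (((insert i Z).biUnion prem) \ (Lg \ Ax)).card ≤ ((insert i Z).biUnion prem).card :=
            Finset.card_le_card Finset.sdiff_subset
        _ ≤ (insert i Z).card * r :=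
            Finset.card_biUnion_le_card_mul _ _ _ (fun z hz => hp1 z (hZi z hz).1)
        _ ≤ (t + 1) * r := by
            apply Nat.mul_le_mul_right
            have h1 := Finset.card_insert_le i Z
            have h2 : Z.card ≤ Lg.card := Finset.card_le_card
              ((Finset.filter_subset _ _).trans Finset.sdiff_subset)
            omega
        _ = r * (t + 1) := Nat.mul_comm _ _
    · intro p hp
      rw [mem_sdiff, mem_biUnion] at hp
      obtain ⟨⟨z, hz, hpz⟩, _⟩ := hp
      exact lt_of_lt_of_le (hp2 z (hZi z hz).1 p hpz) (hZi z hz).2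
    · intro p hp
      rw [mem_sdiff, mem_sdiff] at hp
      by_cases h1 : p ∈ Ax
      · exact Or.inl h1
      · exact Or.inr (fun h2 => hp.2 ⟨h2, h1⟩)
    · intro y hy
      have hall : ∀ n : ℕ, ∀ z : Fin ℓ, z.val ≤ n → z ∈ insert i Z → h z y = true := by
        intro n
        induction n using Nat.strong_induction_on with
        | _ n ih =>
          intro z hzn hz
          apply hp3 z (hZi z hz).1
          intro p hp
          by_cases hpL : p ∈ Lg \ Ax
          · have hpz := hp2 z (hZi z hz).1 p hp
            have hpz' : p.val < z.val := hpz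
            apply ih p.val (by omega) p le_rfl
            apply mem_insert_of_mem
            rw [hZ, mem_filter]
            exact ⟨hpL, lt_of_lt_of_le hpz (hZi z hz).2⟩
          · exact hy p (by rw [mem_sdiff, mem_biUnion]; exact ⟨⟨z, hz, hp⟩, hpL⟩)
      exact hall i.val i le_rfl (mem_insert_self i Z)
  -- the walk
  have hwalk : ∀ n : ℕ, ∀ i : Fin ℓ, i.val ≤ n → ∀ α : Fin N → Option Bool, Good g rhs q α →
      (dom α).card ≤ d → (∀ y, Agree α y → h i y = false) → False := by
    intro n
    induction n using Nat.strong_induction_on with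
    | _ n ih =>
      intro i hin α hα hsz hfalse
      by_cases hi : i ∈ Ax
      · obtain ⟨e, he⟩ := hAx i hi
        obtain ⟨y, hy, hE⟩ := hα {e} (by rw [card_singleton]; exact hq)
        have h1 := he y (hE e (mem_singleton_self e))
        have h2 := hfalse y hy
        rw [h1] at h2; cases h2
      · obtain ⟨P, hPc, hPlt, hPt, hPs⟩ := hexp i hi
        have hsz' : (dom α).card + (P \ Ax).card * d ≤ 2 * q := by
          have h1 : (P \ Ax).card ≤ r * (t + 1) := (Finset.card_le_card sdiff_subset).trans hPc
          have h2 : (P \ Ax).card * d ≤ r * (t + 1) * d := Nat.mul_le_mul_right _ h1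
          have h3 : d * (r * (t + 1) + 1) = r * (t + 1) * d + d := by ring
          omega
        obtain ⟨α', k1, k2, k3⟩ := query_all hg d h (P \ Ax) α (by
          intro p hp
          rw [mem_sdiff] at hp
          rcases hPt p hp.1 with h1 | h1
          · exact absurd h1 hp.2
          · exact hSh p h1) hα hsz'
        choose! ea hea using hAx
        obtain ⟨y, hy, hE⟩ := k2 ((P ∩ Ax).image ea) (by
          calc ((P ∩ Ax).image ea).card ≤ (P ∩ Ax).card := Finset.card_image_le
            _ ≤ P.card := Finset.card_le_card Finset.inter_subset_left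
            _ ≤ q := hPc.trans hrq)
        have hiy := hfalse y (k1.agree hy)
        have : ∃ p ∈ P, h p y ≠ true := by
          by_contra hcon
          push Not at hcon
          rw [hPs y hcon] at hiy; cases hiy
        obtain ⟨p, hpP, hpy⟩ := this
        by_cases hpA : p ∈ Ax
        · apply hpy
          apply hea p hpA
          apply hE
          exact mem_image_of_mem _ (mem_inter.mpr ⟨hpP, hpA⟩)
        · obtain ⟨π, c, m1, m2, m3⟩ := k3 p (mem_sdiff.mpr ⟨hpP, hpA⟩)
          have hlt : p.val < i.val := hPlt p hpP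
          apply ih p.val (by omega) p le_rfl π (k2.sub m1) m2
          intro y' hy'
          have hc : c = false := by
            have := m3 y (m1.agree hy)
            rw [this] at hpy
            cases c
            · rfl
            · exact absurd rfl hpy
          rw [m3 y' hy', hc]
  obtain ⟨i, hi⟩ := hlast
  refine hwalk i.val i le_rfl (fun _ => none) ?_ (by simp [dom]) (fun y _ => hi y)
  -- the empty assignment is good
  intro S hS
  by_contra hcon
  obtain ⟨S', hS'sub, hSmin⟩ := exists_minimal_le_of_wellFoundedLT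
        (fun S : Finset (Fin (N + 1)) => ¬ ∃ y, Agree (fun _ => none) y ∧
          ∀ e ∈ S, Eqn g rhs e y) S hcon
  have hmin : ∀ e ∈ S', ∃ y, Agree (fun _ => none) y ∧ ∀ e' ∈ S'.erase e, Eqn g rhs e' y := by
    intro e he
    by_contra hcon
    have h5 := hSmin.le_of_le hcon (Finset.erase_subset e S')
    exact Finset.notMem_erase e S' (h5 he)
  have hScard : S'.card ≤ 2 * q := by
    have := Finset.card_le_card hS'sub
    omega
  have hne : 1 ≤ S'.card := by
    rw [Nat.one_le_iff_ne_zero]
    intro h0
    rw [Finset.card_eq_zero] at h0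
    apply hSmin.prop
    rw [h0]
    exact ⟨fun _ => false, (fun _ _ h => by cases h), (fun e he => by simp at he)⟩
  have hcount := unique_count (g := g) S'
  have hexp' := hg S' hne hScard
  have hsub : (univ.filter (fun v => ((S' ×ˢ (univ : Finset (Fin 10))).filter
        (fun p => g p.1 p.2 = v)).card = 1)) ⊆ dom (fun _ => none) := by
    intro w hw
    rw [mem_filter] at hw
    exact unique_mem_dom hSmin.prop hmin w hw.2
  have h6 := Finset.card_le_card hsub
  have h7 : (dom (fun _ : Fin N => (none : Option Bool))).card = 0 := by simp [dom]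
  omega

end Sys10

end Pool.Agent.Lib.MP_51bb46_lc
end
end
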