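import Mathlib

set_option autoImplicit false

/-!
Symmetric circuits, and Extended Frege (circuit Frege) in sequent form over them.
-/

namespace Pool.Agent.Lib.MP_51bb46_lc.Sym

open Equiv

/-- A finite acyclic circuit with negations and disjunctions of unbounded fan-in over the
variables `V`. A signed gate `(g, true)` stands for `g` and `(g, false)` for the negation of `g`.
If `var g = some v` then `g` is the variable `v`; otherwise `g` is the disjunction of the signed
gates in `ch g`. -/
structure Circ (V : Type) where
  Gate : Type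
  fin : Finite Gate
  var : Gate → Option V
  ch : Gate → Set (Gate × Bool)
  rank : Gate → ℕ
  ch_rank : ∀ g, ∀ p ∈ ch g, rank p.1 < rank g

/-- rename the gates of a set of signed gates -/
def rename {A B : Type} (f : A → B) (Γ : Set (A × Bool)) : Set (B × Bool) :=
  (fun p => (f p.1, p.2)) '' Γ

variable {V : Type} {n : ℕ}

/-- The relation `R` between gates is a simulation over the map `a` of the variables: related
gates are the variables `v` and `a v`, or they are disjunctions whose children are related. -/
def IsSim (C : Circ V) (a : V → V) (R : C.Gate → C.Gate → Prop) : Prop :=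
  ∀ x y, R x y → C.var y = (C.var x).map a ∧ (C.var x = none →
    (∀ p ∈ C.ch x, ∃ q ∈ C.ch y, q.2 = p.2 ∧ R p.1 q.1) ∧
    (∀ q ∈ C.ch y, ∃ p ∈ C.ch x, q.2 = p.2 ∧ R p.1 q.1))

/-- The gate `y` is the image of the gate `x` under the map `a` of the variables: if both are
unfolded to formulas, with each disjunction read as a set of signed formulas, then renaming the
variables by `a` turns the first formula into the second. -/
def Img (C : Circ V) (a : V → V) (x y : C.Gate) : Prop := ∃ R, IsSim C a R ∧ R x y

/-- The permutations of the `n` points that preserve the gate `g`. (The number of images of `g`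
under the permutations of the points is `n !` divided by the number of these.) -/
def symGate (C : Circ V) (act : Perm (Fin n) → V → V) (g : C.Gate) : Set (Perm (Fin n)) :=
  {π | Img C (act π) g g}

/-- The permutations of the `n` points that preserve the sequent `Γ`. -/
def symSeq (C : Circ V) (act : Perm (Fin n) → V → V) (Γ : Set (C.Gate × Bool)) :
    Set (Perm (Fin n)) :=
  {π | (∀ p ∈ Γ, ∃ q ∈ Γ, q.2 = p.2 ∧ Img C (act π) p.1 q.1) ∧
    (∀ q ∈ Γ, ∃ p ∈ Γ, q.2 = p.2 ∧ Img C (act π) p.1 q.1)}

/-- The permutation `f` of the gates is an automorphism of the circuit over the map `a` of the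
variables. -/
def IsAut (C : Circ V) (a : V → V) (f : Perm C.Gate) : Prop :=
  (∀ g, C.var (f g) = (C.var g).map a) ∧ ∀ g, C.ch (f g) = rename f (C.ch g)

/-- The circuit is symmetric: each permutation of the `n` points extends to an automorphism of
the circuit. -/
def Symmetric (C : Circ V) (act : Perm (Fin n) → V → V) : Prop :=
  ∀ π, ∃ f, IsAut C (act π) f

/-- `Der F C L Γ`: the sequent `Γ` (a set of signed gates of `C`, read as their disjunction) is
derivable from the clauses `F` by a derivation all of whose lines are in `L`. -/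
inductive Der (F : Set (Set (V × Bool))) (C : Circ V) (L : Set (Set (C.Gate × Bool))) :
    Set (C.Gate × Bool) → Prop
  /-- a superset of a clause of `F` -/
  | ax (Γ : Set (C.Gate × Bool)) (hΓ : Γ ∈ L) (c : Set (V × Bool)) (hc : c ∈ F)
      (h : ∀ x ∈ c, ∃ g, C.var g = some x.1 ∧ (g, x.2) ∈ Γ) : Der F C L Γ
  /-- excluded middle -/
  | em (Γ : Set (C.Gate × Bool)) (hΓ : Γ ∈ L) (g : C.Gate)
      (h1 : (g, true) ∈ Γ) (h0 : (g, false) ∈ Γ) : Der F C L Γ
  /-- weakening -/
  | weak (Γ : Set (C.Gate × Bool)) (hΓ : Γ ∈ L) (Γ' : Set (C.Gate × Bool)) (h : Γ' ⊆ Γ)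
      (d : Der F C L Γ') : Der F C L Γ
  /-- cut -/
  | cut (Γ : Set (C.Gate × Bool)) (hΓ : Γ ∈ L) (g : C.Gate)
      (d1 : Der F C L (insert (g, true) Γ)) (d0 : Der F C L (insert (g, false) Γ)) : Der F C L Γ
  /-- introduction of a disjunction -/
  | orI (Γ : Set (C.Gate × Bool)) (hΓ : Γ ∈ L) (g : C.Gate) (hg : C.var g = none)
      (hgΓ : (g, true) ∈ Γ) (p : C.Gate × Bool) (hp : p ∈ C.ch g)
      (d : Der F C L (insert p Γ)) : Der F C L Γ
  /-- introduction of a negated disjunction -/
  | orE (Γ : Set (C.Gate × Bool)) (hΓ : Γ ∈ L) (g : C.Gate) (hg : C.var g = none)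
      (hgΓ : (g, false) ∈ Γ) (d : ∀ p ∈ C.ch g, Der F C L (insert (p.1, !p.2) Γ)) : Der F C L Γ

/-- The lower bound for refutations of the clauses `F`, where the permutations of `n` points act
on the variables by `act`. For every refutation, over any circuit:
* some gate is preserved by at most `n ! / 2 ^ (n / (16 s))` permutations of the points, or some
  line with more than `s` literals is preserved by at most `n ! / 2 ^ (n / 16)` of them;
* if the circuit is symmetric and all images of the lines with more than `s` literals are lines,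
  then there are at least `2 ^ (n / (16 s))` gates or at least `2 ^ (n / 16)` lines. -/
def LowerBound (n s : ℕ) (act : Perm (Fin n) → V → V) (F : Set (Set (V × Bool))) : Prop :=
  ∀ (C : Circ V) (L : Set (Set (C.Gate × Bool))), Der F C L ∅ →
    ((∃ g, 2 ^ (n / (16 * s)) * (symGate C act g).ncard ≤ n.factorial) ∨
      ∃ Γ ∈ L, s < Γ.ncard ∧ 2 ^ (n / 16) * (symSeq C act Γ).ncard ≤ n.factorial) ∧
    (Symmetric C act →
      (∀ Γ ∈ L, s < Γ.ncard → ∀ π f, IsAut C (act π) f → rename f Γ ∈ L) →
      2 ^ (n / (16 * s)) ≤ Nat.card C.Gate ∨ 2 ^ (n / 16) ≤ L.ncard)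

/-! ### relational schemes -/

/-- a relational signature -/
structure Sig where
  Rel : Type
  ar : Rel → ℕ

/-- atoms `R(d_1, ..., d_r)` with arguments in `D` -/
abbrev Atom (S : Sig) (D : Type) : Type := Σ R : S.Rel, (Fin (S.ar R) → D)

/-- rename the arguments of an atom -/
def mapAtom {S : Sig} {D E : Type} (f : D → E) (a : Atom S D) : Atom S E := ⟨a.1, f ∘ a.2⟩

/-- The sentence `∀ x_1 ... x_k ∃ y_1 ... y_l` followed by the disjunction of the relational
literals in `lits` (an atom and a sign) and of the equality literals in `eqs` (two variables and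
a sign). The arguments of an atom are variables and parameters from `P`. -/
structure AE (S : Sig) (P : Type) where
  k : ℕ
  l : ℕ
  lits : Set (Atom S ((Fin k ⊕ Fin l) ⊕ P) × Bool)
  eqs : Set (((Fin k ⊕ Fin l) × (Fin k ⊕ Fin l)) × Bool)

/-- some equality literal of `φ` holds under the assignment `z` of points to its variables -/
def EqTrue {S : Sig} {P X : Type} (φ : AE S P) (z : Fin φ.k ⊕ Fin φ.l → X) : Prop :=
  ∃ e ∈ φ.eqs, (z e.1.1 = z e.1.2 ↔ e.2 = true)

/-- The structure with the points `X`, the parameters `P` and the true atoms `I` is a model of the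
sentence `φ`; the variables of `φ` range over `X`. -/
def Holds {S : Sig} {P X : Type} (I : Atom S (X ⊕ P) → Prop) (φ : AE S P) : Prop :=
  ∀ x : Fin φ.k → X, ∃ y : Fin φ.l → X, EqTrue φ (Sum.elim x y) ∨
    ∃ p ∈ φ.lits, (I (mapAtom (Sum.map (Sum.elim x y) id) p.1) ↔ p.2 = true)

/-- The propositional translation of the sentences `K` over the points `Fin n`: the variables are
the atoms with arguments in `Fin n` and `P`, and for every `φ ∈ K` and all values `x` in `Fin n` of
the universally quantified variables there is the clause of all instances of literals of `φ`,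
unless some equality literal makes it trivially true. -/
def cnf {S : Sig} {P : Type} (K : Set (AE S P)) (n : ℕ) :
    Set (Set (Atom S (Fin n ⊕ P) × Bool)) :=
  {c | ∃ φ ∈ K, ∃ x : Fin φ.k → Fin n, (∀ y, ¬ EqTrue φ (Sum.elim x y)) ∧
    c = {q | ∃ y : Fin φ.l → Fin n, ∃ p ∈ φ.lits,
      q = (mapAtom (Sum.map (Sum.elim x y) id) p.1, p.2)}}

/-- a permutation of the points acts on atoms and fixes the parameters -/
def actAtom (S : Sig) (P : Type) (n : ℕ) (π : Perm (Fin n)) :
    Atom S (Fin n ⊕ P) → Atom S (Fin n ⊕ P) :=
  mapAtom (Sum.map π id)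

end Pool.Agent.Lib.MP_51bb46_lc.Sym
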