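import Mathlib

set_option autoImplicit false

/-!
Subgroups of small index in the symmetric group have small supports.

For a subgroup `H` of `Perm α` call two points related if some 3-cycle of `H` moves both.
If the index of `H` is less than `2 ^ q` and `5 q + 3 ≤ |α|` then one class of this equivalence
relation has at least `|α| - 3 q` points, and `H` contains every even permutation of that class.
-/

namespace Pool.Agent.Lib.MP_51bb46_lc.SymPerm

open Equiv Equiv.Perm Finset

variable {α : Type} [DecidableEq α]

/-- the 3-cycle `a ↦ b ↦ c ↦ a` -/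
def tc (a b c : α) : Perm α := swap a b * swap b c

theorem tc_a {a b c : α} (hab : a ≠ b) (hac : a ≠ c) : tc a b c a = b := by
  simp [tc, swap_apply_of_ne_of_ne hab hac]

theorem tc_b {a b c : α} (hac : a ≠ c) (hbc : b ≠ c) : tc a b c b = c := by
  simp [tc, swap_apply_of_ne_of_ne hac.symm hbc.symm]

theorem tc_c (a b c : α) : tc a b c c = a := by
  simp [tc]

theorem tc_of {a b c x : α} (ha : x ≠ a) (hb : x ≠ b) (hc : x ≠ c) : tc a b c x = x := by
  simp [tc, swap_apply_of_ne_of_ne hb hc, swap_apply_of_ne_of_ne ha hb]

theorem tc_conj (g : Perm α) (a b c : α) : g * tc a b c * g⁻¹ = tc (g a) (g b) (g c) := by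
  unfold tc
  rw [swap_apply_apply, swap_apply_apply]
  group

theorem tc_rot {a b c : α} (hab : a ≠ b) (hac : a ≠ c) (hbc : b ≠ c) : tc a b c = tc b c a := by
  ext x
  by_cases hxa : x = a
  · subst hxa; rw [tc_a hab hac, tc_c]
  by_cases hxb : x = b
  · subst hxb; rw [tc_b hac hbc, tc_a hbc hab.symm]
  by_cases hxc : x = c
  · subst hxc; rw [tc_c, tc_b hab.symm hac.symm]
  · rw [tc_of hxa hxb hxc, tc_of hxb hxc hxa]

theorem tc_inv (a b c : α) : (tc a b c)⁻¹ = tc c b a := by
  unfold tc
  rw [mul_inv_rev, swap_inv, swap_inv, swap_comm b c, swap_comm a b]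

/-- two points are related if they are equal or some 3-cycle in `H` moves both -/
def rel (H : Subgroup (Perm α)) (a b : α) : Prop :=
  a = b ∨ ∃ c, a ≠ b ∧ a ≠ c ∧ b ≠ c ∧ tc a b c ∈ H

variable {H : Subgroup (Perm α)}

theorem rel_refl (a : α) : rel H a a := Or.inl rfl

theorem rel_symm {a b : α} (h : rel H a b) : rel H b a := by
  rcases h with rfl | ⟨c, hab, hac, hbc, h⟩
  · exact rel_refl _
  · refine Or.inr ⟨c, hab.symm, hbc, hac, ?_⟩
    have := H.inv_mem h
    rw [tc_inv, tc_rot hbc.symm hac.symm hab.symm] at this
    exact this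

theorem rel_trans {a b c : α} (h1 : rel H a b) (h2 : rel H b c) : rel H a c := by
  by_cases hac : a = c
  · exact Or.inl hac
  rcases h1 with rfl | ⟨u, hab, hau, hbu, h1⟩
  · exact h2
  rcases h2 with rfl | ⟨v, hbc, hbv, hcv, h2⟩
  · exact Or.inr ⟨u, hab, hau, hbu, h1⟩
  by_cases hva : v = a
  · subst hva
    -- tc b c v ∈ H, v = a
    refine Or.inr ⟨b, hac, hab, hbc.symm, ?_⟩
    have := H.inv_mem h2
    rw [tc_inv] at this
    exact this
  · have hc := H.mul_mem (H.mul_mem h2 h1) (H.inv_mem h2)
    rw [tc_conj] at hc
    have e1 : tc b c v a = a := tc_of hab hac (Ne.symm hva)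
    have e2 : tc b c v b = c := tc_a hbc hbv
    rw [e1, e2] at hc
    refine Or.inr ⟨tc b c v u, hac, ?_, ?_, hc⟩
    · intro h
      rw [← e1] at h
      exact hau ((tc b c v).injective (by rw [e1] at h; rw [e1]; exact h))
    · intro h
      rw [← e2] at h
      exact hbu ((tc b c v).injective (by rw [e2] at h; rw [e2]; exact h))

theorem rel_conj (g : Perm α) {a b : α} {H' : Subgroup (Perm α)}
    (hH : ∀ x ∈ H, g * x * g⁻¹ ∈ H') (h : rel H a b) : rel H' (g a) (g b) := by
  rcases h with rfl | ⟨c, hab, hac, hbc, h⟩
  · exact rel_refl _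
  · refine Or.inr ⟨g c, g.injective.ne hab, g.injective.ne hac, g.injective.ne hbc, ?_⟩
    rw [← tc_conj]
    exact hH _ h

theorem rel_mem {g : Perm α} (hg : g ∈ H) {a b : α} (h : rel H a b) : rel H (g a) (g b) :=
  rel_conj g (fun _ hx => H.mul_mem (H.mul_mem hg hx) (H.inv_mem hg)) h

theorem tc_mem {a b c : α} (hab : a ≠ b) (hac : a ≠ c) (hbc : b ≠ c) (h1 : rel H a b)
    (h2 : rel H b c) : tc a b c ∈ H := by
  rcases h1 with h | ⟨x, -, hax, hbx, h1⟩
  · exact absurd h hab
  rcases h2 with h | ⟨y, -, hby, hcy, h2⟩
  · exact absurd h hbc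
  by_cases hxc : x = c
  · subst hxc; exact h1
  by_cases hya : y = a
  · subst hya; rw [tc_rot hab hac hbc]; exact h2
  -- conjugate
  have hc := H.mul_mem (H.mul_mem h2 h1) (H.inv_mem h2)
  rw [tc_conj, tc_of hab hac (Ne.symm hya), tc_a hbc hby] at hc
  by_cases hxy : x = y
  · subst hxy
    rw [tc_c] at hc
    have := H.inv_mem hc
    rw [tc_inv, ← tc_rot hab hac hbc] at this
    exact this
  · rw [tc_of hbx.symm hxc hxy] at hc
    -- hc : tc a c x ∈ H, h1 : tc a b x ∈ H
    have hw := H.mul_mem hc (H.inv_mem h1)
    have hfin := H.mul_mem (H.mul_mem hw h1) (H.inv_mem hw)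
    rw [tc_conj] at hfin
    have ea : (tc a c x * (tc a b x)⁻¹) a = a := by
      rw [tc_inv, Perm.mul_apply, tc_c, tc_c]
    have eb : (tc a c x * (tc a b x)⁻¹) b = c := by
      rw [tc_inv, Perm.mul_apply, tc_b hax.symm hab.symm, tc_a hac hax]
    have ex : (tc a c x * (tc a b x)⁻¹) x = b := by
      rw [tc_inv, Perm.mul_apply, tc_a hbx.symm hax.symm, tc_of hab.symm hbc hbx]
    rw [ea, eb, ex] at hfin
    have := H.inv_mem hfin
    rw [tc_inv, ← tc_rot hab hac hbc] at this
    exact this

variable [Fintype α]

/-- an even permutation moving only points of one class is in `H` -/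
theorem even_mem {σ : Perm α} (hσ : sign σ = 1)
    (h : ∀ x y, σ x ≠ x → σ y ≠ y → rel H x y) : σ ∈ H := by
  classical
  let p : α → Prop := fun x => σ x ≠ x
  have h1 : ∀ x, p (σ x) ↔ p x := by
    intro x
    exact ⟨fun hx hxx => hx (by rw [hxx, hxx]), fun hx hxx => hx (σ.injective hxx)⟩
  have h2 : ∀ x, σ x ≠ x → p x := fun x hx => hx
  have e : ofSubtype (subtypePerm σ h1) = σ := ofSubtype_subtypePerm h1 h2
  have hs : sign (subtypePerm σ h1) = 1 := by
    rw [← sign_ofSubtype, e, hσ]
  have hmem : subtypePerm σ h1 ∈ alternatingGroup {x // p x} := mem_alternatingGroup.mpr hs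
  rw [← closure_three_cycles_eq_alternating] at hmem
  have key : ∀ τ ∈ Subgroup.closure {τ : Perm {x // p x} | IsThreeCycle τ},
      ofSubtype τ ∈ H := by
    intro τ hτ
    have : Subgroup.closure {τ : Perm {x // p x} | IsThreeCycle τ} ≤
        H.comap (ofSubtype : Perm {x // p x} →* Perm α) := by
      rw [Subgroup.closure_le]
      intro τ hτ
      have hτ' : IsThreeCycle τ := hτ
      obtain ⟨a, ha⟩ : ∃ a, a ∈ τ.support := by
        by_contra hcon
        push Not at hcon
        have h0 : τ.support = ∅ := Finset.eq_empty_of_forall_notMem hcon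
        have := hτ'.card_support
        rw [h0] at this
        simp at this
      have hnd := (hτ'.nodup_iff_mem_support).mpr ha
      have heq := (hτ'.eq_swap_mul_swap_iff_mem_support).mpr ha
      simp only [List.nodup_cons, List.mem_cons, List.not_mem_nil, or_false, not_or,
        not_false_eq_true, List.nodup_nil, and_true] at hnd
      obtain ⟨⟨n1, n2⟩, n3⟩ := hnd
      change ofSubtype τ ∈ H
      have e2 : ofSubtype τ = tc (a : α) (τ a : α) (τ (τ a) : α) := by
        rw [tc, ← ofSubtype_swap_eq, ← ofSubtype_swap_eq, ← map_mul, ← heq]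
      rw [e2]
      refine tc_mem ?_ ?_ ?_ (h _ _ a.2 (τ a).2) (h _ _ (τ a).2 (τ (τ a)).2)
      · exact fun hh => n1 (Subtype.ext hh)
      · exact fun hh => n2 (Subtype.ext hh)
      · exact fun hh => n3 (Subtype.ext hh)
    exact this hτ
  rw [← e]
  exact key _ hmem

/-! ### index bounds -/

/-- a family of `q` disjoint triples `(a i, c i, b i)` with `a i ~ c i` and `a i ≁ b i` forces
index at least `2 ^ q` -/
theorem index_of_triples {q : ℕ} (a b c : Fin q → α)
    (hab : Function.Injective (Sum.elim a b : Fin q ⊕ Fin q → α))
    (hac : ∀ i j, a i ≠ c j) (hbc : ∀ i j, b i ≠ c j)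
    (h1 : ∀ i, rel H (a i) (c i)) (h2 : ∀ i, ¬ rel H (a i) (b i)) :
    2 ^ q ≤ H.index := by
  classical
  let ι : (Fin q ⊕ Fin q) ↪ α := ⟨Sum.elim a b, hab⟩
  let fl : (Fin q → Bool) → (Fin q ⊕ Fin q) → (Fin q ⊕ Fin q) := fun T =>
    Sum.elim (fun i => if T i then Sum.inr i else Sum.inl i)
      (fun i => if T i then Sum.inl i else Sum.inr i)
  have hfl : ∀ T, Function.Involutive (fl T) := by
    intro T x
    rcases x with i | i
    · by_cases h : T i <;> simp [fl, h]
    · by_cases h : T i <;> simp [fl, h]
  let P : (Fin q → Bool) → Perm α := fun T => ((hfl T).toPerm (fl T)).viaEmbedding ι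
  have hPa : ∀ T i, P T (a i) = if T i then b i else a i := by
    intro T i
    have : P T (ι (Sum.inl i)) = ι (fl T (Sum.inl i)) := viaEmbedding_apply _ _ _
    have e : ι (Sum.inl i) = a i := rfl
    rw [e] at this
    rw [this]
    by_cases h : T i <;> simp [fl, h, ι]
  have hPb : ∀ T i, P T (b i) = if T i then a i else b i := by
    intro T i
    have : P T (ι (Sum.inr i)) = ι (fl T (Sum.inr i)) := viaEmbedding_apply _ _ _
    have e : ι (Sum.inr i) = b i := rfl
    rw [e] at this
    rw [this]
    by_cases h : T i <;> simp [fl, h, ι]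
  have hPc : ∀ T i, P T (c i) = c i := by
    intro T i
    apply viaEmbedding_apply_of_notMem
    rintro ⟨x, hx⟩
    rcases x with j | j
    · exact hac j i hx
    · exact hbc j i hx
  have hinj : Function.Injective (fun T : Fin q → Bool => (P T : Perm α ⧸ H)) := by
    intro T T' hTT
    by_contra hne
    obtain ⟨i, hi⟩ := Function.ne_iff.mp hne
    have hmem : (P T)⁻¹ * P T' ∈ H := QuotientGroup.eq.mp hTT
    have hc : ((P T)⁻¹ * P T') (c i) = c i := by
      rw [Perm.mul_apply, hPc, Perm.inv_eq_iff_eq, hPc]
    have ha : ((P T)⁻¹ * P T') (a i) = b i := by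
      rw [Perm.mul_apply, hPa, Perm.inv_eq_iff_eq, hPb]
      by_cases ht : T i <;> by_cases ht' : T' i <;> simp_all
    have := rel_mem hmem (h1 i)
    rw [hc, ha] at this
    exact h2 i (rel_trans (h1 i) (rel_symm this))
  have := Nat.card_le_card_of_injective _ hinj
  simpa [Subgroup.index, Nat.card_eq_fintype_card] using this

/-- a transversal set `U` forces index at least `k!` with `2 k ≥ |U|` -/
theorem index_of_transversal (U : Finset α) (hU : ∀ x ∈ U, ∀ y ∈ U, rel H x y → x = y) :
    ∃ k : ℕ, U.card ≤ 2 * k ∧ k.factorial ≤ H.index := by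
  classical
  let Pr : Finset α → Prop := fun B => ∀ g ∈ H, (∀ x, x ∉ U ∨ x ∈ B → g x = x) → g = 1
  let S : Finset (Finset α) := U.powerset.filter Pr
  have hS : S.Nonempty := by
    refine ⟨U, ?_⟩
    simp only [S, mem_filter, mem_powerset, subset_refl, true_and]
    intro g _ hg
    ext x
    simp [hg x (by tauto)]
  obtain ⟨B, hBS, hBmin⟩ := S.exists_min_image Finset.card hS
  simp only [S, mem_filter, mem_powerset] at hBS hBmin
  obtain ⟨hBU, hB⟩ := hBS
  have hcard : B.card + (U \ B).card = U.card := by
    rw [card_sdiff_of_subset hBU]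
    have := card_le_card hBU
    omega
  have hle : B.card ≤ (U \ B).card := by
    by_contra hcon
    push Not at hcon
    have hn1 : ¬ Pr (U \ B) := by
      intro hp
      have := hBmin (U \ B) ⟨sdiff_subset, hp⟩
      omega
    simp only [Pr, not_forall] at hn1
    obtain ⟨h, hhH, hhfix, hh1⟩ := hn1
    obtain ⟨s, hs⟩ : ∃ s, h s ≠ s := by
      by_contra hc
      push Not at hc
      exact hh1 (Equiv.ext fun x => by simp [hc x])
    have hsB : s ∈ B := by
      by_contra hsB
      apply hs
      apply hhfix
      simp only [mem_sdiff]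
      tauto
    have hn2 : ¬ Pr (B.erase s) := by
      intro hp
      have := hBmin (B.erase s) ⟨(erase_subset _ _).trans hBU, hp⟩
      have h3 := card_erase_lt_of_mem hsB
      omega
    simp only [Pr, not_forall] at hn2
    obtain ⟨g, hgH, hgfix, hg1⟩ := hn2
    have hgs : g s ≠ s := by
      intro hgs
      apply hg1
      apply hB g hgH
      intro x hx
      by_cases hxs : x = s
      · rw [hxs, hgs]
      · apply hgfix
        rcases hx with hx | hx
        · exact Or.inl hx
        · exact Or.inr (mem_erase.mpr ⟨hxs, hx⟩)
    -- supports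
    have hhB : ∀ x, h x ≠ x → x ∈ B := by
      intro x hx
      by_contra hxB
      apply hx
      apply hhfix
      simp only [mem_sdiff]
      tauto
    have hgB : ∀ x, g x ≠ x → x ≠ s → x ∈ U ∧ x ∉ B := by
      intro x hx hxs
      constructor
      · by_contra hxU
        exact hx (hgfix x (Or.inl hxU))
      · intro hxB
        exact hx (hgfix x (Or.inr (mem_erase.mpr ⟨hxs, hxB⟩)))
    have hdis : ∀ x, x ≠ s → h x ≠ x → g x = x := by
      intro x hxs hx
      by_contra hgx
      exact (hgB x hgx hxs).2 (hhB x hx)
    have hdis' : ∀ x, x ≠ s → g x ≠ x → h x = x := by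
      intro x hxs hx
      by_contra hhx
      exact (hgB x hx hxs).2 (hhB x hhx)
    have hgmv : ∀ x, g x ≠ x → g (g x) ≠ g x := fun x hx hh => hx (g.injective hh)
    have hhmv : ∀ x, h x ≠ x → h (h x) ≠ h x := fun x hx hh => hx (h.injective hh)
    have hgs_hs : g s ≠ h s := by
      intro he
      have h3 := hdis (h s) hs (hhmv s hs)
      rw [← he] at h3
      exact hgmv s hgs h3
    have hcomm : g * h * g⁻¹ * h⁻¹ = tc s (g s) (h s) := by
      have hsg : s ≠ g s := Ne.symm hgs
      have hsh : s ≠ h s := Ne.symm hs
      have e1 : tc s (g s) (h s) * h * g = g * h := by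
        ext x
        simp only [Perm.mul_apply]
        by_cases hxs : x = s
        · subst hxs
          rw [hdis' (g x) hgs (hgmv x hgs), tc_b hsh hgs_hs, hdis (h x) hs (hhmv x hs)]
        · by_cases hgx : g x = x
          · rw [hgx]
            by_cases hhx : h x = x
            · rw [hhx, hgx, tc_of hxs]
              · intro he
                rw [he] at hgx
                exact hgmv s hgs hgx
              · intro he
                rw [he] at hhx
                exact hhmv s hs hhx
            · by_cases hhs : h x = s
              · rw [hhs, tc_a hsg hsh]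
              · rw [hdis (h x) hhs (hhmv x hhx)]
                apply tc_of hhs
                · intro he
                  apply hgmv s hgs
                  have := hdis (h x) hhs (hhmv x hhx)
                  rw [he] at this
                  exact this
                · intro he
                  exact hxs (h.injective he)
          · rw [hdis' x hxs hgx]
            by_cases hgxs : g x = s
            · rw [hgxs, tc_c]
            · rw [hdis' (g x) hgxs (hgmv x hgx)]
              apply tc_of hgxs
              · intro he
                exact hxs (g.injective he)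
              · intro he
                apply hgs_hs
                exfalso
                have h4 := hdis' (g x) hgxs (hgmv x hgx)
                rw [he] at h4
                exact hhmv s hs h4
      have e2 : g * h * g⁻¹ * h⁻¹ = (tc s (g s) (h s) * h * g) * g⁻¹ * h⁻¹ := by rw [e1]
      rw [e2]; group
    have hcm : tc s (g s) (h s) ∈ H := by
      rw [← hcomm]
      exact H.mul_mem (H.mul_mem (H.mul_mem hgH hhH) (H.inv_mem hgH)) (H.inv_mem hhH)
    have hgsU : g s ∈ U := (hgB (g s) (hgmv s hgs) hgs).1
    have := hU s (hBU hsB) (g s) hgsU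
      (Or.inr ⟨h s, Ne.symm hgs, Ne.symm hs, hgs_hs, hcm⟩)
    exact hgs this.symm
  refine ⟨(U \ B).card, by omega, ?_⟩
  have hinj : Function.Injective
      (fun p : Perm {x // x ∈ U \ B} => ((ofSubtype p : Perm α) : Perm α ⧸ H)) := by
    intro p p' hpp
    have hmem : (ofSubtype p : Perm α)⁻¹ * ofSubtype p' ∈ H := QuotientGroup.eq.mp hpp
    have h1 : (ofSubtype p : Perm α)⁻¹ * ofSubtype p' = 1 := by
      apply hB _ hmem
      intro x hx
      have hx' : ¬ (x ∈ U \ B) := by
        simp only [mem_sdiff]
        tauto
      rw [Perm.mul_apply, ofSubtype_apply_of_not_mem p' hx', Perm.inv_eq_iff_eq,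
        ofSubtype_apply_of_not_mem p hx']
    have h2 : (ofSubtype p : Perm α) = ofSubtype p' := by
      rw [inv_mul_eq_one] at h1
      exact h1
    exact ofSubtype_injective h2
  have := Nat.card_le_card_of_injective _ hinj
  rw [Nat.card_eq_fintype_card, Fintype.card_perm, Fintype.card_coe] at this
  exact this

theorem two_pow_lt_fact (q : ℕ) : 2 ^ q < (q + 3).factorial := by
  induction q with
  | zero => decide
  | succ q ih =>
    rw [show q + 1 + 3 = (q + 3) + 1 by ring, Nat.factorial_succ, pow_succ]
    nlinarith [Nat.zero_le q]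

open Classical in
/-- small index forces a large class -/
theorem exists_class {q : ℕ} (hq : H.index < 2 ^ q) (hn : 5 * q + 3 ≤ Fintype.card α) :
    ∃ a : α, Fintype.card α ≤ (univ.filter (fun x => rel H a x)).card + 3 * q := by
  classical
  -- families of m triples
  let Fam : ℕ → Prop := fun m => ∃ a b c : Fin m → α,
    Function.Injective (Sum.elim a b : Fin m ⊕ Fin m → α) ∧ Function.Injective c ∧
    (∀ i j, a i ≠ c j) ∧ (∀ i j, b i ≠ c j) ∧ (∀ i, rel H (a i) (c i)) ∧
    (∀ i, ¬ rel H (a i) (b i))
  have hFq : ¬ Fam q := by
    rintro ⟨a, b, c, h1, -, h2, h3, h4, h5⟩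
    have := index_of_triples a b c h1 h2 h3 h4 h5
    omega
  have hF0 : Fam 0 := by
    refine ⟨Fin.elim0, Fin.elim0, Fin.elim0, ?_, ?_, ?_, ?_, ?_, ?_⟩
    · rintro (i | i) <;> exact i.elim0
    all_goals intro i; exact i.elim0
  obtain ⟨m, hmq, hFm, hFm1⟩ : ∃ m, m < q ∧ Fam m ∧ ¬ Fam (m + 1) := by
    by_contra hcon
    push Not at hcon
    have : ∀ m, m ≤ q → Fam m := by
      intro m
      induction m with
      | zero => intro _; exact hF0
      | succ m ih => intro hm; exact hcon m (by omega) (ih (by omega))
    exact hFq (this q le_rfl)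
  obtain ⟨a, b, c, h1, hc, h2, h3, h4, h5⟩ := hFm
  let P : Finset α := (univ.image a ∪ univ.image b) ∪ univ.image c
  have hP : P.card ≤ 3 * m := by
    calc P.card ≤ (univ.image a ∪ univ.image b).card + (univ.image c).card := card_union_le _ _
      _ ≤ ((univ.image a).card + (univ.image b).card) + (univ.image c).card := by
          gcongr; exact card_union_le _ _
      _ ≤ (m + m) + m := by
          have := card_image_le (s := (univ : Finset (Fin m))) (f := a)
          have := card_image_le (s := (univ : Finset (Fin m))) (f := b)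
          have := card_image_le (s := (univ : Finset (Fin m))) (f := c)
          simp only [card_univ, Fintype.card_fin] at *
          omega
      _ = 3 * m := by ring
  let U : Finset α := univ \ P
  have hUcard : Fintype.card α ≤ U.card + 3 * m := by
    have := card_sdiff_of_subset (subset_univ P)
    rw [card_univ] at this
    change U.card = _ at this
    omega
  have ha' : ∀ i, a i ∈ P := fun i => by simp [P]
  have hb' : ∀ i, b i ∈ P := fun i => by simp [P]
  have hc' : ∀ i, c i ∈ P := fun i => by simp [P]
  -- no triple in U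
  have hno : ∀ x ∈ U, ∀ y ∈ U, ∀ z ∈ U, x ≠ y → rel H x y → rel H x z := by
    intro x hx y hy z hz hxy hrel
    by_contra hnrel
    apply hFm1
    have hxz : x ≠ z := fun h => hnrel (h ▸ rel_refl _)
    have hyz : y ≠ z := fun h => hnrel (h ▸ hrel)
    have hUP : ∀ u ∈ U, ∀ v ∈ P, u ≠ v := by
      intro u hu v hv huv
      subst huv
      simp only [U, mem_sdiff, mem_univ, true_and] at hu
      exact hu hv
    refine ⟨Fin.cons x a, Fin.cons z b, Fin.cons y c, ?_, ?_, ?_, ?_, ?_, ?_⟩
    · have hai : Function.Injective a := fun i j h => Sum.inl_injective (h1 (by simpa using h))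
      have hbi : Function.Injective b := fun i j h => Sum.inr_injective (h1 (by simpa using h))
      have habi : ∀ i j, a i ≠ b j := fun i j h => by
        have := @h1 (Sum.inl i) (Sum.inr j) (by simpa using h)
        simp at this
      refine Function.Injective.sumElim ?_ ?_ ?_
      · intro i j hij
        refine Fin.cases ?_ (fun i' => ?_) i hij <;> clear hij i
        · intro hij
          refine Fin.cases ?_ (fun j' => ?_) j hij <;> clear hij j
          · intro _; rfl
          · intro hij
            simp only [Fin.cons_zero, Fin.cons_succ] at hij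
            exact absurd hij (hUP x hx _ (ha' _))
        · intro hij
          refine Fin.cases ?_ (fun j' => ?_) j hij <;> clear hij j
          · intro hij
            simp only [Fin.cons_zero, Fin.cons_succ] at hij
            exact absurd hij.symm (hUP x hx _ (ha' _))
          · intro hij
            simp only [Fin.cons_succ] at hij
            rw [hai hij]
      · intro i j hij
        refine Fin.cases ?_ (fun i' => ?_) i hij <;> clear hij i
        · intro hij
          refine Fin.cases ?_ (fun j' => ?_) j hij <;> clear hij j
          · intro _; rfl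
          · intro hij
            simp only [Fin.cons_zero, Fin.cons_succ] at hij
            exact absurd hij (hUP z hz _ (hb' _))
        · intro hij
          refine Fin.cases ?_ (fun j' => ?_) j hij <;> clear hij j
          · intro hij
            simp only [Fin.cons_zero, Fin.cons_succ] at hij
            exact absurd hij.symm (hUP z hz _ (hb' _))
          · intro hij
            simp only [Fin.cons_succ] at hij
            rw [hbi hij]
      · intro i j
        refine Fin.cases ?_ (fun i' => ?_) i <;> refine Fin.cases ?_ (fun j' => ?_) j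
        · simpa using hxz
        · simpa using hUP x hx _ (hb' _)
        · simpa using (hUP z hz _ (ha' _)).symm
        · simpa using habi _ _
    · intro i j hij
      refine Fin.cases ?_ (fun i' => ?_) i hij <;> clear hij i
      · intro hij
        refine Fin.cases ?_ (fun j' => ?_) j hij <;> clear hij j
        · intro _; rfl
        · intro hij
          simp only [Fin.cons_zero, Fin.cons_succ] at hij
          exact absurd hij (hUP y hy _ (hc' _))
      · intro hij
        refine Fin.cases ?_ (fun j' => ?_) j hij <;> clear hij j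
        · intro hij
          simp only [Fin.cons_zero, Fin.cons_succ] at hij
          exact absurd hij.symm (hUP y hy _ (hc' _))
        · intro hij
          simp only [Fin.cons_succ] at hij
          rw [hc hij]
    · intro i j
      refine Fin.cases ?_ (fun i' => ?_) i <;> refine Fin.cases ?_ (fun j' => ?_) j
      · simpa using hxy
      · simpa using hUP x hx _ (hc' _)
      · simpa using (hUP y hy _ (ha' _)).symm
      · simpa using h2 _ _
    · intro i j
      refine Fin.cases ?_ (fun i' => ?_) i <;> refine Fin.cases ?_ (fun j' => ?_) j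
      · simpa using hyz.symm
      · simpa using hUP z hz _ (hc' _)
      · simpa using (hUP y hy _ (hb' _)).symm
      · simpa using h3 _ _
    · intro i
      refine Fin.cases ?_ (fun i' => ?_) i
      · simpa using hrel
      · simpa using h4 _
    · intro i
      refine Fin.cases ?_ (fun i' => ?_) i
      · simpa using hnrel
      · simpa using h5 _
  by_cases htr : ∀ x ∈ U, ∀ y ∈ U, rel H x y → x = y
  · exfalso
    obtain ⟨k, hk1, hk2⟩ := index_of_transversal U htr
    have hk : q + 3 ≤ k := by omega
    have := two_pow_lt_fact q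
    have h6 := Nat.factorial_le hk
    omega
  · push Not at htr
    obtain ⟨x, hx, y, hy, hrel, hxy⟩ := htr
    refine ⟨x, ?_⟩
    have hsub : U ⊆ univ.filter (fun z => rel H x z) := by
      intro z hz
      simp only [mem_filter, mem_univ, true_and]
      exact hno x hx y hy z hz hxy hrel
    have := card_le_card hsub
    omega

/-! ### canonical supports -/

/-- the canonical support of `H`: the points whose class has at most half of all points -/
noncomputable def sp (H : Subgroup (Perm α)) : Finset α := by
  classical
  exact univ.filter (fun a => 2 * (univ.filter (fun x => rel H a x)).card ≤ Fintype.card α)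

theorem sp_card {q : ℕ} (hq : H.index < 2 ^ q) (hn : 16 * q ≤ Fintype.card α) :
    (sp H).card ≤ 3 * q ∧ ∀ σ : Perm α, sign σ = 1 → (∀ x ∈ sp H, σ x = x) → σ ∈ H := by
  classical
  have hq1 : 1 ≤ q := by
    rcases Nat.eq_zero_or_pos q with rfl | h
    · have : H.index ≠ 0 := Subgroup.index_ne_zero_of_finite
      simp at hq
      exact absurd hq this
    · exact h
  obtain ⟨a, ha⟩ := exists_class hq (by omega)
  have hbig : Fintype.card α < 2 * (univ.filter (fun x => rel H a x)).card := by omega
  have hmem : ∀ x, x ∈ sp H ↔ ¬ rel H a x := by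
    intro x
    simp only [sp, mem_filter, mem_univ, true_and]
    constructor
    · intro hx hax
      have : (univ.filter (fun y => rel H x y)) = univ.filter (fun y => rel H a y) := by
        ext y
        simp only [mem_filter, mem_univ, true_and]
        exact ⟨fun h => rel_trans hax h, fun h => rel_trans (rel_symm hax) h⟩
      rw [this] at hx
      omega
    · intro hax
      have hdisj : Disjoint (univ.filter (fun y => rel H x y)) (univ.filter (fun y => rel H a y)) := by
        rw [Finset.disjoint_left]
        intro y hy hy'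
        simp only [mem_filter, mem_univ, true_and] at hy hy'
        exact hax (rel_trans hy' (rel_symm hy))
      have := card_union_of_disjoint hdisj
      have h2 := card_le_univ (univ.filter (fun y => rel H x y) ∪ univ.filter (fun y => rel H a y))
      omega
  constructor
  · have hsp : sp H = univ \ (univ.filter (fun x => rel H a x)) := by
      ext x
      simp [hmem]
    rw [hsp, card_sdiff_of_subset (subset_univ _), card_univ]
    omega
  · intro σ hσ hfix
    apply even_mem hσ
    intro x y hx hy
    have h1 : rel H a x := by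
      by_contra h
      exact hx (hfix x ((hmem x).mpr h))
    have h2 : rel H a y := by
      by_contra h
      exact hy (hfix y ((hmem y).mpr h))
    exact rel_trans (rel_symm h1) h2

theorem sp_conj (g : Perm α) {H H' : Subgroup (Perm α)} (hH : ∀ x ∈ H, g * x * g⁻¹ ∈ H')
    (hH' : ∀ x ∈ H', g⁻¹ * x * g ∈ H) (a : α) : g a ∈ sp H' ↔ a ∈ sp H := by
  classical
  have key : ∀ x y, rel H' (g x) (g y) ↔ rel H x y := by
    intro x y
    constructor
    · intro h
      have := rel_conj g⁻¹ (H' := H) (fun x hx => by simpa using hH' x hx) h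
      simpa using this
    · intro h
      exact rel_conj g hH h
  have hcard : (univ.filter (fun x => rel H' (g a) x)).card =
      (univ.filter (fun x => rel H a x)).card := by
    rw [← card_map (s := univ.filter (fun x => rel H a x)) g.toEmbedding]
    congr 1
    ext x
    simp only [mem_filter, mem_univ, true_and, mem_map, Equiv.coe_toEmbedding]
    constructor
    · intro h
      refine ⟨g⁻¹ x, ?_, by simp⟩
      rw [← key]; simpa using h
    · rintro ⟨y, hy, rfl⟩
      exact (key _ _).mpr hy
  simp only [sp, mem_filter, mem_univ, true_and]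
  rw [hcard]

end Pool.Agent.Lib.MP_51bb46_lc.SymPerm
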