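import Pool.Agent.Lib.MP_51bb46_lc.SymDefs
import Pool.Agent.Lib.MP_51bb46_lc.SymPerm

set_option autoImplicit false

/-!
Evaluation of symmetric circuits with small supports under injections of the points into a large
model, and the proof of the lower bound.
-/

namespace Pool.Agent.Lib.MP_51bb46_lc.Sym

open Equiv Finset

variable {V X : Type} {n : ℕ}

/-! ### extension lemmas -/

/-- extend a partial injection to an even permutation -/
theorem ext_perm (T : Finset (Fin n)) (f : Fin n → Fin n)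
    (hf : ∀ x ∈ T, ∀ y ∈ T, f x = f y → x = y) (hT : T.card + 2 ≤ n) :
    ∃ π : Perm (Fin n), Perm.sign π = 1 ∧ ∀ x ∈ T, π x = f x := by
  classical
  let e : {x // x ∈ T} ≃ {x // x ∈ T.image f} :=
    Equiv.ofBijective (fun x => ⟨f x, mem_image_of_mem f x.2⟩) (by
      constructor
      · intro x y hxy
        exact Subtype.ext (hf _ x.2 _ y.2 (congrArg Subtype.val hxy))
      · rintro ⟨y, hy⟩
        obtain ⟨x, hx, rfl⟩ := mem_image.mp hy
        exact ⟨⟨x, hx⟩, rfl⟩)
  have hext : ∀ x ∈ T, e.extendSubtype x = f x := by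
    intro x hx
    rw [Equiv.extendSubtype_apply_of_mem e x hx]
    rfl
  by_cases hs : Perm.sign e.extendSubtype = 1
  · exact ⟨e.extendSubtype, hs, hext⟩
  · have hcard : 1 < (univ \ T).card := by
      rw [card_sdiff_of_subset (subset_univ _), card_univ, Fintype.card_fin]
      omega
    obtain ⟨a, ha, b, hb, hab⟩ := Finset.one_lt_card.mp hcard
    simp only [mem_sdiff, mem_univ, true_and] at ha hb
    refine ⟨e.extendSubtype * swap a b, ?_, ?_⟩
    · rw [Perm.sign_mul, Perm.sign_swap hab]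
      rcases Int.units_eq_one_or (Perm.sign e.extendSubtype) with h | h
      · exact absurd h hs
      · rw [h]; rfl
    · intro x hx
      rw [Perm.mul_apply, swap_apply_of_ne_of_ne, hext x hx]
      · rintro rfl; exact ha hx
      · rintro rfl; exact hb hx

/-- change an injection off `T` so that it covers `Y` -/
theorem cover [DecidableEq X] (T : Finset (Fin n)) (h : Fin n → X) (hh : Function.Injective h)
    (Y : Finset X) (hTY : T.card + Y.card ≤ n) :
    ∃ h' : Fin n → X, Function.Injective h' ∧ (∀ x ∈ T, h' x = h x) ∧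
      ∃ Z : Finset (Fin n), Z.card ≤ Y.card ∧ ∀ y ∈ Y, ∃ z ∈ Z, h' z = y := by
  induction Y using Finset.induction_on with
  | empty => exact ⟨h, hh, fun _ _ => rfl, ∅, le_rfl, by simp⟩
  | insert y Y hy ih =>
    rw [card_insert_of_notMem hy] at hTY
    obtain ⟨h', hh', hT, Z, hZ, hcov⟩ := ih (by omega)
    by_cases hyr : ∃ z, h' z = y
    · obtain ⟨z, hz⟩ := hyr
      refine ⟨h', hh', hT, insert z Z, ?_, ?_⟩
      · rw [card_insert_of_notMem hy]
        exact (card_insert_le _ _).trans (by omega)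
      · intro y' hy'
        rcases mem_insert.mp hy' with rfl | hy'
        · exact ⟨z, mem_insert_self _ _, hz⟩
        · obtain ⟨z', hz', h⟩ := hcov y' hy'
          exact ⟨z', mem_insert_of_mem hz', h⟩
    · obtain ⟨z, hz⟩ : ∃ z, z ∉ T ∪ Z := by
        by_contra hcon
        push Not at hcon
        have h1 : (univ : Finset (Fin n)) ⊆ T ∪ Z := fun x _ => hcon x
        have h2 := card_le_card h1
        have h3 := card_union_le T Z
        rw [card_univ, Fintype.card_fin] at h2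
        omega
      rw [mem_union, not_or] at hz
      refine ⟨Function.update h' z y, ?_, ?_, insert z Z, ?_, ?_⟩
      · intro a b hab
        by_cases ha : a = z
        · by_cases hb : b = z
          · rw [ha, hb]
          · exfalso
            rw [ha, Function.update_self, Function.update_of_ne hb] at hab
            exact hyr ⟨b, hab.symm⟩
        · by_cases hb : b = z
          · exfalso
            rw [hb, Function.update_self, Function.update_of_ne ha] at hab
            exact hyr ⟨a, hab⟩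
          · rw [Function.update_of_ne ha, Function.update_of_ne hb] at hab
            exact hh' hab
      · intro x hx
        rw [Function.update_of_ne, hT x hx]
        rintro rfl; exact hz.1 hx
      · rw [card_insert_of_notMem hy]
        exact (card_insert_le _ _).trans (by omega)
      · intro y' hy'
        rcases mem_insert.mp hy' with rfl | hy'
        · exact ⟨z, mem_insert_self _ _, Function.update_self _ _ _⟩
        · obtain ⟨z', hz', h⟩ := hcov y' hy'
          refine ⟨z', mem_insert_of_mem hz', ?_⟩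
          rw [Function.update_of_ne, h]
          rintro rfl; exact hz.2 hz'

/-! ### simulations -/

/-- the laws of an action -/
structure IsAct (act : Perm (Fin n) → V → V) : Prop where
  one : act 1 = id
  mul : ∀ π ρ, act (π * ρ) = act π ∘ act ρ

theorem Img.var {C : Circ V} {a : V → V} {x y : C.Gate} (h : Img C a x y) :
    C.var y = (C.var x).map a := by
  obtain ⟨R, hR, hxy⟩ := h
  exact (hR x y hxy).1

theorem Img.left {C : Circ V} {a : V → V} {x y : C.Gate} (h : Img C a x y)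
    (hx : C.var x = none) {p : C.Gate × Bool} (hp : p ∈ C.ch x) :
    ∃ q ∈ C.ch y, q.2 = p.2 ∧ Img C a p.1 q.1 := by
  obtain ⟨R, hR, hxy⟩ := h
  obtain ⟨q, hq, h1, h2⟩ := ((hR x y hxy).2 hx).1 p hp
  exact ⟨q, hq, h1, R, hR, h2⟩

theorem Img.right {C : Circ V} {a : V → V} {x y : C.Gate} (h : Img C a x y)
    (hx : C.var x = none) {q : C.Gate × Bool} (hq : q ∈ C.ch y) :
    ∃ p ∈ C.ch x, q.2 = p.2 ∧ Img C a p.1 q.1 := by
  obtain ⟨R, hR, hxy⟩ := h
  obtain ⟨p, hp, h1, h2⟩ := ((hR x y hxy).2 hx).2 q hq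
  exact ⟨p, hp, h1, R, hR, h2⟩

theorem Img.refl (C : Circ V) {act : Perm (Fin n) → V → V} (ha : IsAct act) (x : C.Gate) :
    Img C (act 1) x x := by
  refine ⟨fun x y => y = x, ?_, rfl⟩
  rintro x y rfl
  rw [ha.one]
  exact ⟨by simp, fun _ => ⟨fun p hp => ⟨p, hp, rfl, rfl⟩, fun p hp => ⟨p, hp, rfl, rfl⟩⟩⟩

theorem Img.trans {C : Circ V} {act : Perm (Fin n) → V → V} (ha : IsAct act)
    {π ρ : Perm (Fin n)} {x y z : C.Gate} (h1 : Img C (act ρ) x y) (h2 : Img C (act π) y z) :
    Img C (act (π * ρ)) x z := by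
  obtain ⟨R, hR, hxy⟩ := h1
  obtain ⟨R', hR', hyz⟩ := h2
  refine ⟨fun x z => ∃ y, R x y ∧ R' y z, ?_, y, hxy, hyz⟩
  rintro x z ⟨y, hxy, hyz⟩
  obtain ⟨h1, h2⟩ := hR x y hxy
  obtain ⟨h3, h4⟩ := hR' y z hyz
  refine ⟨by rw [h3, h1, ha.mul]; simp, fun hx => ?_⟩
  have hy : C.var y = none := by rw [h1, hx]; rfl
  constructor
  · intro p hp
    obtain ⟨q, hq, e1, r1⟩ := (h2 hx).1 p hp
    obtain ⟨t, ht, e2, r2⟩ := (h4 hy).1 q hq
    exact ⟨t, ht, e2.trans e1, q.1, r1, r2⟩
  · intro t ht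
    obtain ⟨q, hq, e2, r2⟩ := (h4 hy).2 t ht
    obtain ⟨p, hp, e1, r1⟩ := (h2 hx).2 q hq
    exact ⟨p, hp, e2.trans e1, q.1, r1, r2⟩

theorem Img.symm {C : Circ V} {act : Perm (Fin n) → V → V} (ha : IsAct act)
    {π : Perm (Fin n)} {x y : C.Gate} (h : Img C (act π) x y) : Img C (act π⁻¹) y x := by
  have hinv : act π⁻¹ ∘ act π = id := by
    rw [← ha.mul, inv_mul_cancel, ha.one]
  obtain ⟨R, hR, hxy⟩ := h
  refine ⟨fun y x => R x y, ?_, hxy⟩
  intro y x hxy
  obtain ⟨h1, h2⟩ := hR x y hxy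
  refine ⟨by rw [h1, Option.map_map, hinv, Option.map_id]; rfl, fun hy => ?_⟩
  have hx : C.var x = none := by
    rw [h1] at hy
    simpa using hy
  constructor
  · intro q hq
    obtain ⟨p, hp, e, r⟩ := (h2 hx).2 q hq
    exact ⟨p, hp, e.symm, r⟩
  · intro p hp
    obtain ⟨q, hq, e, r⟩ := (h2 hx).1 p hp
    exact ⟨q, hq, e.symm, r⟩

theorem IsAut.img {C : Circ V} {a : V → V} {f : Perm C.Gate} (hf : IsAut C a f) (x : C.Gate) :
    Img C a x (f x) := by
  refine ⟨fun x y => y = f x, ?_, rfl⟩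
  rintro x y rfl
  refine ⟨hf.1 x, fun _ => ?_⟩
  rw [hf.2]
  constructor
  · intro p hp
    exact ⟨(f p.1, p.2), ⟨p, hp, rfl⟩, rfl, rfl⟩
  · rintro q ⟨p, hp, rfl⟩
    exact ⟨p, hp, rfl, rfl⟩

/-- stabilizer of a gate -/
def stabG (C : Circ V) (act : Perm (Fin n) → V → V) (ha : IsAct act) (g : C.Gate) :
    Subgroup (Perm (Fin n)) where
  carrier := symGate C act g
  one_mem' := Img.refl C ha g
  mul_mem' := fun h1 h2 => Img.trans ha h2 h1
  inv_mem' := fun h => Img.symm ha h

/-- image of a sequent -/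
def ImgS (C : Circ V) (a : V → V) (Γ Γ' : Set (C.Gate × Bool)) : Prop :=
  (∀ p ∈ Γ, ∃ q ∈ Γ', q.2 = p.2 ∧ Img C a p.1 q.1) ∧
    (∀ q ∈ Γ', ∃ p ∈ Γ, q.2 = p.2 ∧ Img C a p.1 q.1)

theorem ImgS.refl (C : Circ V) {act : Perm (Fin n) → V → V} (ha : IsAct act)
    (Γ : Set (C.Gate × Bool)) : ImgS C (act 1) Γ Γ :=
  ⟨fun p hp => ⟨p, hp, rfl, Img.refl C ha _⟩, fun p hp => ⟨p, hp, rfl, Img.refl C ha _⟩⟩

theorem ImgS.trans {C : Circ V} {act : Perm (Fin n) → V → V} (ha : IsAct act)
    {π ρ : Perm (Fin n)} {Γ Γ' Γ'' : Set (C.Gate × Bool)} (h1 : ImgS C (act ρ) Γ Γ')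
    (h2 : ImgS C (act π) Γ' Γ'') : ImgS C (act (π * ρ)) Γ Γ'' := by
  constructor
  · intro p hp
    obtain ⟨q, hq, e1, r1⟩ := h1.1 p hp
    obtain ⟨t, ht, e2, r2⟩ := h2.1 q hq
    exact ⟨t, ht, e2.trans e1, Img.trans ha r1 r2⟩
  · intro t ht
    obtain ⟨q, hq, e2, r2⟩ := h2.2 t ht
    obtain ⟨p, hp, e1, r1⟩ := h1.2 q hq
    exact ⟨p, hp, e2.trans e1, Img.trans ha r1 r2⟩

theorem ImgS.symm {C : Circ V} {act : Perm (Fin n) → V → V} (ha : IsAct act)
    {π : Perm (Fin n)} {Γ Γ' : Set (C.Gate × Bool)} (h : ImgS C (act π) Γ Γ') :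
    ImgS C (act π⁻¹) Γ' Γ := by
  constructor
  · intro q hq
    obtain ⟨p, hp, e, r⟩ := h.2 q hq
    exact ⟨p, hp, e.symm, Img.symm ha r⟩
  · intro p hp
    obtain ⟨q, hq, e, r⟩ := h.1 p hp
    exact ⟨q, hq, e.symm, Img.symm ha r⟩

theorem IsAut.imgS {C : Circ V} {a : V → V} {f : Perm C.Gate} (hf : IsAut C a f)
    (Γ : Set (C.Gate × Bool)) : ImgS C a Γ (rename f Γ) := by
  constructor
  · intro p hp
    exact ⟨(f p.1, p.2), ⟨p, hp, rfl⟩, rfl, hf.img _⟩
  · rintro q ⟨p, hp, rfl⟩
    exact ⟨p, hp, rfl, hf.img _⟩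

/-- stabilizer of a sequent -/
def stabS (C : Circ V) (act : Perm (Fin n) → V → V) (ha : IsAct act) (Γ : Set (C.Gate × Bool)) :
    Subgroup (Perm (Fin n)) where
  carrier := symSeq C act Γ
  one_mem' := ImgS.refl C ha Γ
  mul_mem' := fun h1 h2 => ImgS.trans ha h2 h1
  inv_mem' := fun h => ImgS.symm ha h

theorem mem_stabG {C : Circ V} {act : Perm (Fin n) → V → V} {ha : IsAct act} {g : C.Gate}
    {π : Perm (Fin n)} : π ∈ stabG C act ha g ↔ Img C (act π) g g := Iff.rfl

theorem mem_stabS {C : Circ V} {act : Perm (Fin n) → V → V} {ha : IsAct act}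
    {Γ : Set (C.Gate × Bool)} {π : Perm (Fin n)} :
    π ∈ stabS C act ha Γ ↔ ImgS C (act π) Γ Γ := Iff.rfl

theorem stabG_card {C : Circ V} {act : Perm (Fin n) → V → V} (ha : IsAct act) (g : C.Gate) :
    (symGate C act g).ncard * (stabG C act ha g).index = n.factorial := by
  have h := Subgroup.card_mul_index (stabG C act ha g)
  rw [Nat.card_eq_fintype_card (α := Perm (Fin n)), Fintype.card_perm, Fintype.card_fin] at h
  exact h

theorem stabS_card {C : Circ V} {act : Perm (Fin n) → V → V} (ha : IsAct act)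
    (Γ : Set (C.Gate × Bool)) :
    (symSeq C act Γ).ncard * (stabS C act ha Γ).index = n.factorial := by
  have h := Subgroup.card_mul_index (stabS C act ha Γ)
  rw [Nat.card_eq_fintype_card (α := Perm (Fin n)), Fintype.card_perm, Fintype.card_fin] at h
  exact h

theorem stabG_index {C : Circ V} {act : Perm (Fin n) → V → V} (ha : IsAct act)
    (hC : Symmetric C act) (g : C.Gate) :
    (stabG C act ha g).index ≤ Nat.card C.Gate := by
  classical
  have := C.fin
  let F : C.Gate → (Perm (Fin n) ⧸ stabG C act ha g) := fun z =>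
    if h : ∃ π : Perm (Fin n), Img C (act π) g z then (h.choose : _) else ((1 : Perm (Fin n)) : _)
  have hF : Function.Surjective F := by
    intro y
    obtain ⟨π, rfl⟩ := QuotientGroup.mk_surjective y
    obtain ⟨f, hf⟩ := hC π
    have hex : ∃ π : Perm (Fin n), Img C (act π) g (f g) := ⟨π, hf.img g⟩
    refine ⟨f g, ?_⟩
    simp only [F, dif_pos hex]
    apply QuotientGroup.eq.mpr
    exact Img.trans ha (hf.img g) (Img.symm ha hex.choose_spec)
  exact Nat.card_le_card_of_surjective F hF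

theorem stabS_index {C : Circ V} {act : Perm (Fin n) → V → V} (ha : IsAct act)
    (hC : Symmetric C act) (Γ : Set (C.Gate × Bool)) {L : Set (Set (C.Gate × Bool))}
    (hL : ∀ π f, IsAut C (act π) f → rename f Γ ∈ L) :
    (stabS C act ha Γ).index ≤ L.ncard := by
  classical
  have := C.fin
  let F : L → (Perm (Fin n) ⧸ stabS C act ha Γ) := fun z =>
    if h : ∃ π : Perm (Fin n), ImgS C (act π) Γ z.1 then (h.choose : _)
      else ((1 : Perm (Fin n)) : _)
  have hF : Function.Surjective F := by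
    intro y
    obtain ⟨π, rfl⟩ := QuotientGroup.mk_surjective y
    obtain ⟨f, hf⟩ := hC π
    have hex : ∃ π : Perm (Fin n), ImgS C (act π) Γ (rename f Γ) := ⟨π, hf.imgS Γ⟩
    refine ⟨⟨rename f Γ, hL π f hf⟩, ?_⟩
    simp only [F, dif_pos hex]
    apply QuotientGroup.eq.mpr
    exact ImgS.trans ha (hf.imgS Γ) (ImgS.symm ha hex.choose_spec)
  exact Nat.card_le_card_of_surjective F hF

/-- the canonical support of a gate -/
noncomputable def spt (C : Circ V) (act : Perm (Fin n) → V → V) (ha : IsAct act) (g : C.Gate) :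
    Finset (Fin n) := SymPerm.sp (stabG C act ha g)

theorem spt_aut {C : Circ V} {act : Perm (Fin n) → V → V} (ha : IsAct act)
    {π : Perm (Fin n)} {g g' : C.Gate} (hf : Img C (act π) g g') (a : Fin n) :
    π a ∈ spt C act ha g' ↔ a ∈ spt C act ha g := by
  apply SymPerm.sp_conj
  · intro ρ hρ
    exact Img.trans ha (Img.symm ha hf) (Img.trans ha hρ hf)
  · intro ρ hρ
    exact Img.trans ha hf (Img.trans ha hρ (Img.symm ha hf))

/-! ### evaluation -/

/-- value of a gate at an injection -/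
noncomputable def val (C : Circ V) (ev : V → (Fin n → X) → Prop)
    (sp : C.Gate → Finset (Fin n)) (g : C.Gate) (h : Fin n → X) : Prop :=
  match C.var g with
  | some v => ev v h
  | none => ∃ h' : Fin n → X, Function.Injective h' ∧ (∀ x ∈ sp g, h' x = h x) ∧
      ∃ p : C.Gate × Bool, ∃ _ : p ∈ C.ch g, (val C ev sp p.1 h' ↔ p.2 = true)
termination_by C.rank g
decreasing_by exact C.ch_rank g p ‹_›

theorem val_some {C : Circ V} {ev : V → (Fin n → X) → Prop} {sp : C.Gate → Finset (Fin n)}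
    {g : C.Gate} {v : V} (hg : C.var g = some v) (h : Fin n → X) :
    val C ev sp g h ↔ ev v h := by
  rw [val, hg]

theorem val_none {C : Circ V} {ev : V → (Fin n → X) → Prop} {sp : C.Gate → Finset (Fin n)}
    {g : C.Gate} (hg : C.var g = none) (h : Fin n → X) :
    val C ev sp g h ↔ ∃ h' : Fin n → X, Function.Injective h' ∧ (∀ x ∈ sp g, h' x = h x) ∧
      ∃ p ∈ C.ch g, (val C ev sp p.1 h' ↔ p.2 = true) := by
  rw [val, hg]
  simp only [exists_prop]

/-- the hypotheses on the variables and clauses -/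
structure Model (n : ℕ) (V X : Type) (act : Perm (Fin n) → V → V)
    (F : Set (Set (V × Bool))) (ev : V → (Fin n → X) → Prop) : Prop where
  isAct : IsAct act
  equiv : ∀ π v h, ev (act π v) h ↔ ev v (h ∘ π)
  dep : ∀ v (Δ : Finset (Fin n)), Δ.card + 3 ≤ n →
    (∀ π : Perm (Fin n), Perm.sign π = 1 → (∀ x ∈ Δ, π x = x) → act π v = v) →
    ∀ h h' : Fin n → X, (∀ x ∈ Δ, h x = h' x) → (ev v h ↔ ev v h')
  clause : ∀ c ∈ F, ∀ Δ : Finset (Fin n), Δ.card ≤ 6 * (n / 16) →
    ∀ h : Fin n → X, Function.Injective h → ∃ h' : Fin n → X, Function.Injective h' ∧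
      (∀ x ∈ Δ, h' x = h x) ∧ ∃ q ∈ c, (ev q.1 h' ↔ q.2 = true)
  start : ∃ h : Fin n → X, Function.Injective h

/-- `Δ` supports the set `Γ` of signed gates -/
def Supp (C : Circ V) (act : Perm (Fin n) → V → V) (Δ : Finset (Fin n))
    (Γ : Set (C.Gate × Bool)) : Prop :=
  ∀ π : Perm (Fin n), Perm.sign π = 1 → (∀ x ∈ Δ, π x = x) → ∀ p ∈ Γ,
    ∃ q ∈ Γ, q.2 = p.2 ∧ Img C (act π) p.1 q.1

section eval

variable {act : Perm (Fin n) → V → V} {F : Set (Set (V × Bool))} {ev : V → (Fin n → X) → Prop}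
  (hM : Model n V X act F ev) {C : Circ V}

/-- gates have small supports -/
def Small (C : Circ V) (act : Perm (Fin n) → V → V) (ha : IsAct act) : Prop :=
  ∀ g, (spt C act ha g).card ≤ 3 * (n / 16) ∧
    ∀ π : Perm (Fin n), Perm.sign π = 1 → (∀ x ∈ spt C act ha g, π x = x) → Img C (act π) g g

include hM in
theorem val_dep (hn : 1 ≤ n / 16) (hS : Small C act hM.isAct) (g : C.Gate) {h h' : Fin n → X}
    (hhh : ∀ x ∈ spt C act hM.isAct g, h x = h' x) : val C ev (spt C act hM.isAct) g h ↔ val C ev (spt C act hM.isAct) g h' := by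
  cases hg : C.var g with
  | some v =>
    rw [val_some hg, val_some hg]
    refine hM.dep v _ ?_ ?_ h h' hhh
    · have := (hS g).1
      omega
    · intro π hπ hfix
      have h1 := ((hS g).2 π hπ hfix).var
      rw [hg] at h1
      simpa using h1.symm
  | none =>
    rw [val_none hg, val_none hg]
    constructor
    · rintro ⟨k, hk, hk2, hk3⟩
      exact ⟨k, hk, fun x hx => (hk2 x hx).trans (hhh x hx), hk3⟩
    · rintro ⟨k, hk, hk2, hk3⟩
      exact ⟨k, hk, fun x hx => (hk2 x hx).trans (hhh x hx).symm, hk3⟩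

include hM in
theorem val_aut {π : Perm (Fin n)} :
    ∀ (r : ℕ) (g g' : C.Gate), C.rank g < r → Img C (act π) g g' →
      ∀ h : Fin n → X, val C ev (spt C act hM.isAct) g' h ↔ val C ev (spt C act hM.isAct) g (h ∘ π) := by
  intro r
  induction r with
  | zero =>
    intro g g' hr
    exact absurd hr (Nat.not_lt_zero _)
  | succ r ih =>
    intro g g' hr hf h
    cases hg : C.var g with
    | some v =>
      have hg' : C.var g' = some (act π v) := by rw [hf.var, hg]; rfl
      rw [val_some hg, val_some hg', hM.equiv]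
    | none =>
      have hg' : C.var g' = none := by rw [hf.var, hg]; rfl
      rw [val_none hg, val_none hg']
      constructor
      · rintro ⟨k, hk, hk2, q, hq, hv⟩
        obtain ⟨p, hp, e, hpq⟩ := hf.right hg hq
        refine ⟨k ∘ π, hk.comp π.injective, ?_, p, hp, ?_⟩
        · intro x hx
          exact hk2 _ ((spt_aut hM.isAct hf x).mpr hx)
        · rw [← ih p.1 q.1 (by have := C.ch_rank g p hp; omega) hpq, ← e]
          exact hv
      · rintro ⟨k, hk, hk2, p, hp, hv⟩
        obtain ⟨q, hq, e, hpq⟩ := hf.left hg hp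
        refine ⟨k ∘ π.symm, hk.comp π.symm.injective, ?_, q, hq, ?_⟩
        · intro x hx
          have h1 : π (π.symm x) ∈ spt C act hM.isAct g' := by simpa using hx
          have h2 := hk2 _ ((spt_aut hM.isAct hf _).mp h1)
          simpa using h2
        · rw [ih p.1 q.1 (by have := C.ch_rank g p hp; omega) hpq, e]
          have : (k ∘ π.symm) ∘ π = k := by funext x; simp
          rw [this]
          exact hv

include hM in
theorem transport (hn : 1 ≤ n / 16) (hS : Small C act hM.isAct) {Δ D : Finset (Fin n)}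
    {Γ : Set (C.Gate × Bool)} (hΓ : Supp C act Δ Γ) (hΔ : Δ.card ≤ 3 * (n / 16))
    (hD : D.card ≤ 6 * (n / 16)) {h h' : Fin n → X} (hh : Function.Injective h)
    (hh' : Function.Injective h') (hag : ∀ x ∈ Δ, h' x = h x) {p : C.Gate × Bool} (hp : p ∈ Γ)
    (hv : val C ev (spt C act hM.isAct) p.1 h' ↔ p.2 = true) :
    ∃ h'' : Fin n → X, Function.Injective h'' ∧ (∀ x ∈ Δ ∪ D, h'' x = h x) ∧
      ∃ q ∈ Γ, (val C ev (spt C act hM.isAct) q.1 h'' ↔ q.2 = true) := by
  classical
  let s := spt C act hM.isAct p.1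
  have hs : s.card ≤ 3 * (n / 16) := (hS p.1).1
  have hnn : 16 * (n / 16) ≤ n := Nat.mul_div_le n 16
  have hc1 : (Δ ∪ D).card ≤ 9 * (n / 16) := by
    have := card_union_le Δ D
    omega
  have hc2 : (s.image h').card ≤ 3 * (n / 16) := card_image_le.trans hs
  obtain ⟨k, hk, hkE, Z, hZ, hcov⟩ := cover (Δ ∪ D) h hh (s.image h') (by omega)
  have hpre : ∀ x, ∃ z, x ∈ s ∪ Δ → k z = h' x := by
    intro x
    by_cases hx : x ∈ s
    · obtain ⟨z, -, hz⟩ := hcov (h' x) (mem_image_of_mem _ hx)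
      exact ⟨z, fun _ => hz⟩
    · refine ⟨x, fun hx' => ?_⟩
      rcases mem_union.mp hx' with h1 | h1
      · exact absurd h1 hx
      · rw [hkE x (mem_union_left _ h1), hag x h1]
  choose f hf using hpre
  obtain ⟨π, hπ, hπf⟩ := ext_perm (s ∪ Δ) f (by
      intro x hx y hy hxy
      have h1 := hf x hx
      have h2 := hf y hy
      rw [hxy] at h1
      exact hh' (h1.symm.trans h2)) (by
      have := card_union_le s Δ
      omega)
  have hfix : ∀ x ∈ Δ, π x = x := by
    intro x hx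
    rw [hπf x (mem_union_right _ hx)]
    apply hk
    rw [hf x (mem_union_right _ hx), hag x hx, hkE x (mem_union_left _ hx)]
  obtain ⟨q, hq, e, hpq⟩ := hΓ π hπ hfix p hp
  refine ⟨k, hk, hkE, q, hq, ?_⟩
  rw [val_aut hM _ p.1 q.1 (Nat.lt_succ_self _) hpq k, e]
  rw [val_dep hM hn hS p.1 (h' := h')]
  · exact hv
  · intro x hx
    have h1 : x ∈ s ∪ Δ := mem_union_left _ hx
    rw [Function.comp_apply, hπf x h1, hf x h1]

/-- `Γ` is densely true -/
def Tr (C : Circ V) (ev : V → (Fin n → X) → Prop) (sp : C.Gate → Finset (Fin n))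
    (Γ : Set (C.Gate × Bool)) : Prop :=
  ∀ h : Fin n → X, Function.Injective h → ∀ D : Finset (Fin n), D.card ≤ 6 * (n / 16) →
    ∃ h' : Fin n → X, Function.Injective h' ∧ (∀ x ∈ D, h' x = h x) ∧
      ∃ p ∈ Γ, (val C ev sp p.1 h' ↔ p.2 = true)

include hM in
/-- a supported sequent that is not densely true is false near some injection -/
theorem not_tr (hn : 1 ≤ n / 16) (hS : Small C act hM.isAct) {Δ : Finset (Fin n)}
    {Γ : Set (C.Gate × Bool)} (hΓ : Supp C act Δ Γ) (hΔ : Δ.card ≤ 3 * (n / 16))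
    (hT : ¬ Tr C ev (spt C act hM.isAct) Γ) :
    ∃ h : Fin n → X, Function.Injective h ∧ ∀ h' : Fin n → X, Function.Injective h' →
      (∀ x ∈ Δ, h' x = h x) → ∀ p ∈ Γ, ¬ (val C ev (spt C act hM.isAct) p.1 h' ↔ p.2 = true) := by
  classical
  by_contra hcon
  push Not at hcon
  apply hT
  intro h hh D hD
  obtain ⟨h', hh', hag, p, hp, hv⟩ := hcon h hh
  obtain ⟨k, hk, hkE, q, hq, hvq⟩ := transport hM hn hS hΓ hΔ hD hh hh' hag hp hv
  exact ⟨k, hk, fun x hx => hkE x (mem_union_right _ hx), q, hq, hvq⟩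

include hM in
theorem sound (hn : 1 ≤ n / 16) (hS : Small C act hM.isAct) {L : Set (Set (C.Gate × Bool))}
    (hL : ∀ Γ ∈ L, ∃ Δ : Finset (Fin n), Supp C act Δ Γ ∧ Δ.card ≤ 3 * (n / 16))
    {Γ : Set (C.Gate × Bool)} (hd : Der F C L Γ) : Tr C ev (spt C act hM.isAct) Γ := by
  classical
  have hch : ∀ g, C.var g = none → Supp C act (spt C act hM.isAct g) (C.ch g) := by
    intro g hg π hπ hfix p hp
    exact ((hS g).2 π hπ hfix).left hg hp
  induction hd with
  | ax Γ hΓ c hc h =>
    intro k hk D hD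
    obtain ⟨k', hk', hag, q, hq, hv⟩ := hM.clause c hc D hD k hk
    obtain ⟨g, hg, hgΓ⟩ := h q hq
    exact ⟨k', hk', hag, (g, q.2), hgΓ, by rw [val_some hg]; exact hv⟩
  | em Γ hΓ g h1 h0 =>
    intro k hk D hD
    by_cases hv : val C ev (spt C act hM.isAct) g k
    · exact ⟨k, hk, fun _ _ => rfl, (g, true), h1, by simpa using hv⟩
    · exact ⟨k, hk, fun _ _ => rfl, (g, false), h0, by simpa using hv⟩
  | weak Γ hΓ Γ' h d ih =>
    intro k hk D hD
    obtain ⟨k', hk', hag, p, hp, hv⟩ := ih k hk D hD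
    exact ⟨k', hk', hag, p, h hp, hv⟩
  | cut Γ hΓ g d1 d0 ih1 ih0 =>
    by_contra hT
    obtain ⟨Δ, hsupp, hΔ⟩ := hL Γ hΓ
    obtain ⟨h, hh, hF⟩ := not_tr hM hn hS hsupp hΔ hT
    have hcard : (Δ ∪ spt C act hM.isAct g).card ≤ 6 * (n / 16) := by
      have h1 := card_union_le Δ (spt C act hM.isAct g)
      have h2 := (hS g).1
      omega
    by_cases hv : val C ev (spt C act hM.isAct) g h
    · obtain ⟨k, hk, hag, p, hp, hvp⟩ := ih0 h hh _ hcard
      rcases hp with rfl | hp
      · have := (val_dep hM hn hS g (h := k) (h' := h)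
          (fun x hx => hag x (mem_union_right _ hx))).mpr hv
        simp [this] at hvp
      · exact hF k hk (fun x hx => hag x (mem_union_left _ hx)) p hp hvp
    · obtain ⟨k, hk, hag, p, hp, hvp⟩ := ih1 h hh _ hcard
      rcases hp with rfl | hp
      · apply hv
        have hvk : val C ev (spt C act hM.isAct) g k := by simpa using hvp
        exact (val_dep hM hn hS g (h := k) (h' := h)
          (fun x hx => hag x (mem_union_right _ hx))).mp hvk
      · exact hF k hk (fun x hx => hag x (mem_union_left _ hx)) p hp hvp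
  | orI Γ hΓ g hg hgΓ p0 hp0 d ih =>
    by_contra hT
    obtain ⟨Δ, hsupp, hΔ⟩ := hL Γ hΓ
    obtain ⟨h, hh, hF⟩ := not_tr hM hn hS hsupp hΔ hT
    have hcard : (Δ ∪ spt C act hM.isAct g).card ≤ 6 * (n / 16) := by
      have h1 := card_union_le Δ (spt C act hM.isAct g)
      have h2 := (hS g).1
      omega
    obtain ⟨k, hk, hag, p, hp, hvp⟩ := ih h hh _ hcard
    rcases hp with rfl | hp
    · have hvk : val C ev (spt C act hM.isAct) g k := (val_none hg k).mpr ⟨k, hk, fun _ _ => rfl, p, hp0, hvp⟩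
      have hvh : val C ev (spt C act hM.isAct) g h := (val_dep hM hn hS g (h := k) (h' := h)
        (fun x hx => hag x (mem_union_right _ hx))).mp hvk
      exact hF h hh (fun _ _ => rfl) (g, true) hgΓ (by simpa using hvh)
    · exact hF k hk (fun x hx => hag x (mem_union_left _ hx)) p hp hvp
  | orE Γ hΓ g hg hgΓ d ih =>
    by_contra hT
    obtain ⟨Δ, hsupp, hΔ⟩ := hL Γ hΓ
    obtain ⟨h, hh, hF⟩ := not_tr hM hn hS hsupp hΔ hT
    have hvh : val C ev (spt C act hM.isAct) g h := by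
      by_contra hv
      exact hF h hh (fun _ _ => rfl) (g, false) hgΓ (by simpa using hv)
    obtain ⟨h', hh', hag, p, hp, hv⟩ := (val_none hg h).mp hvh
    have hΔ6 : Δ.card ≤ 6 * (n / 16) := by omega
    obtain ⟨k, hk, hkE, q, hq, hvq⟩ :=
      transport hM hn hS (hch g hg) (hS g).1 hΔ6 hh hh' hag hp hv
    have hcard : (Δ ∪ spt C act hM.isAct q.1).card ≤ 6 * (n / 16) := by
      have h1 := card_union_le Δ (spt C act hM.isAct q.1)
      have h2 := (hS q.1).1
      omega
    obtain ⟨k', hk', hag', q', hq', hvq'⟩ := ih q hq k hk _ hcard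
    rcases hq' with rfl | hq'
    · have h1 := val_dep hM hn hS q.1 (h := k') (h' := k)
        (fun x hx => hag' x (mem_union_right _ hx))
      simp only at hvq'
      rw [h1, hvq] at hvq'
      cases h2 : q.2 <;> simp [h2] at hvq'
    · refine hF k' hk' (fun x hx => ?_) q' hq' hvq'
      rw [hag' x (mem_union_left _ hx), hkE x (mem_union_right _ hx)]

end eval

theorem der_gate {F : Set (Set (V × Bool))} {C : Circ V} {L : Set (Set (C.Gate × Bool))}
    (hF : ∀ c ∈ F, c.Nonempty) {Γ : Set (C.Gate × Bool)} (hd : Der F C L Γ) :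
    Nonempty C.Gate := by
  induction hd with
  | ax Γ hΓ c hc h =>
    obtain ⟨x, hx⟩ := hF c hc
    obtain ⟨g, -⟩ := h x hx
    exact ⟨g⟩
  | em Γ hΓ g h1 h0 => exact ⟨g⟩
  | weak Γ hΓ Γ' h d ih => exact ih
  | cut Γ hΓ g d1 d0 ih1 ih0 => exact ih1
  | orI Γ hΓ g hg hgΓ p0 hp0 d ih => exact ih
  | orE Γ hΓ g hg hgΓ d ih => exact ⟨g⟩

/-- the abstract lower bound, in terms of indices -/
theorem core {act : Perm (Fin n) → V → V} {F : Set (Set (V × Bool))}
    {ev : V → (Fin n → X) → Prop} (hM : Model n V X act F ev) {s : ℕ} (hs : 1 ≤ s)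
    (C : Circ V) (L : Set (Set (C.Gate × Bool))) (hd : Der F C L ∅) :
    (∃ g, 2 ^ (n / (16 * s)) ≤ (stabG C act hM.isAct g).index) ∨
      ∃ Γ ∈ L, s < Γ.ncard ∧ 2 ^ (n / 16) ≤ (stabS C act hM.isAct Γ).index := by
  classical
  have := C.fin
  by_contra hcon
  push Not at hcon
  obtain ⟨hG, hLL⟩ := hcon
  have hne : Nonempty C.Gate := by
    refine der_gate ?_ hd
    intro c hc
    obtain ⟨h, hh⟩ := hM.start
    obtain ⟨_, _, _, q, hq, _⟩ := hM.clause c hc ∅ (by simp) h hh
    exact ⟨q, hq⟩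
  obtain ⟨g0⟩ := hne
  have hpos : 1 ≤ n / (16 * s) := by
    by_contra hc
    have h0 : n / (16 * s) = 0 := Nat.lt_one_iff.mp (not_le.mp hc)
    have := hG g0
    rw [h0, pow_zero] at this
    have h1 : (stabG C act hM.isAct g0).index ≠ 0 := Subgroup.index_ne_zero_of_finite
    omega
  have hsn : s * (n / (16 * s)) ≤ n / 16 := by
    rw [Nat.le_div_iff_mul_le (by norm_num)]
    calc s * (n / (16 * s)) * 16 = (16 * s) * (n / (16 * s)) := by ring
      _ ≤ n := Nat.mul_div_le n (16 * s)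
  have hle : n / (16 * s) ≤ n / 16 := le_trans (Nat.le_mul_of_pos_left _ hs) hsn
  have hn : 1 ≤ n / 16 := hpos.trans hle
  have hnn : 16 * (n / 16) ≤ n := Nat.mul_div_le n 16
  have hsp : ∀ g, (spt C act hM.isAct g).card ≤ 3 * (n / (16 * s)) ∧
      ∀ π : Perm (Fin n), Perm.sign π = 1 → (∀ x ∈ spt C act hM.isAct g, π x = x) →
        Img C (act π) g g := by
    intro g
    refine SymPerm.sp_card (hG g) ?_
    rw [Fintype.card_fin]
    omega
  have hS : Small C act hM.isAct := by
    intro g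
    exact ⟨(hsp g).1.trans (by omega), (hsp g).2⟩
  have hL : ∀ Γ ∈ L, ∃ Δ : Finset (Fin n), Supp C act Δ Γ ∧ Δ.card ≤ 3 * (n / 16) := by
    intro Γ hΓ
    by_cases hcard : s < Γ.ncard
    · have h1 := SymPerm.sp_card (hLL Γ hΓ hcard) (by rw [Fintype.card_fin]; exact hnn)
      refine ⟨SymPerm.sp (stabS C act hM.isAct Γ), ?_, h1.1⟩
      intro π hπ hfix p hp
      exact (h1.2 π hπ hfix).1 p hp
    · have hfin : Γ.Finite := Set.toFinite Γ
      refine ⟨hfin.toFinset.biUnion (fun p => spt C act hM.isAct p.1), ?_, ?_⟩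
      · intro π hπ hfix p hp
        exact ⟨p, hp, rfl, (hsp p.1).2 π hπ (fun x hx => hfix x (by
          rw [mem_biUnion]
          exact ⟨p, by simpa using hp, hx⟩))⟩
      · calc (hfin.toFinset.biUnion (fun p => spt C act hM.isAct p.1)).card
            ≤ ∑ p ∈ hfin.toFinset, (spt C act hM.isAct p.1).card := card_biUnion_le
          _ ≤ ∑ p ∈ hfin.toFinset, 3 * (n / (16 * s)) := Finset.sum_le_sum fun p _ => (hsp p.1).1
          _ = Γ.ncard * (3 * (n / (16 * s))) := by
              rw [Finset.sum_const, smul_eq_mul, Set.ncard_eq_toFinset_card Γ hfin]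
          _ ≤ s * (3 * (n / (16 * s))) := Nat.mul_le_mul_right _ (by omega)
          _ = 3 * (s * (n / (16 * s))) := by ring
          _ ≤ 3 * (n / 16) := Nat.mul_le_mul_left _ hsn
  have hT := sound hM hn hS hL hd
  obtain ⟨h, hh⟩ := hM.start
  obtain ⟨_, _, _, p, hp, _⟩ := hT h hh ∅ (by simp)
  exact hp

/-- the abstract lower bound -/
theorem lowerBound {act : Perm (Fin n) → V → V} {F : Set (Set (V × Bool))}
    {ev : V → (Fin n → X) → Prop} (ha : IsAct act) (hF : ∀ c ∈ F, c.Nonempty)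
    (hM : 16 ≤ n → Model n V X act F ev) {s : ℕ} (hs : 1 ≤ s) : LowerBound n s act F := by
  intro C L hd
  have := C.fin
  have key : (∃ g, 2 ^ (n / (16 * s)) ≤ (stabG C act ha g).index) ∨
      ∃ Γ ∈ L, s < Γ.ncard ∧ 2 ^ (n / 16) ≤ (stabS C act ha Γ).index := by
    by_cases hn : 16 ≤ n
    · exact core (hM hn) hs C L hd
    · left
      obtain ⟨g⟩ := der_gate hF hd
      refine ⟨g, ?_⟩
      have h0 : n / (16 * s) = 0 := by
        rw [Nat.div_eq_zero_iff]
        right
        omega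
      rw [h0, pow_zero]
      exact Nat.one_le_iff_ne_zero.mpr Subgroup.index_ne_zero_of_finite
  constructor
  · rcases key with ⟨g, hg⟩ | ⟨Γ, hΓ, h1, h2⟩
    · left
      refine ⟨g, ?_⟩
      rw [← stabG_card ha g, mul_comm]
      exact Nat.mul_le_mul_left _ hg
    · right
      refine ⟨Γ, hΓ, h1, ?_⟩
      rw [← stabS_card ha Γ, mul_comm]
      exact Nat.mul_le_mul_left _ h2
  · intro hC hcl
    rcases key with ⟨g, hg⟩ | ⟨Γ, hΓ, h1, h2⟩
    · left
      exact hg.trans (stabG_index ha hC g)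
    · right
      exact h2.trans (stabS_index ha hC Γ (hcl Γ hΓ h1))

end Pool.Agent.Lib.MP_51bb46_lc.Sym
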