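import Pool.Agent.Lib.MP_51bb46_lc.SymEval

set_option autoImplicit false

/-!
Relational schemes with a large model satisfy the hypotheses of the abstract lower bound.
-/

namespace Pool.Agent.Lib.MP_51bb46_lc.Sym

open Equiv Finset

variable {n : ℕ}

/-- a point outside `Δ` is moved by an even permutation fixing `Δ` -/
theorem moved (Δ : Finset (Fin n)) (hΔ : Δ.card + 3 ≤ n) (i : Fin n) (hi : i ∉ Δ) :
    ∃ π : Perm (Fin n), Perm.sign π = 1 ∧ (∀ x ∈ Δ, π x = x) ∧ π i ≠ i := by
  classical
  have hcard : 1 < (univ \ (insert i Δ)).card := by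
    rw [card_sdiff_of_subset (subset_univ _), card_univ, Fintype.card_fin,
      card_insert_of_notMem hi]
    omega
  obtain ⟨a, ha, b, hb, hab⟩ := Finset.one_lt_card.mp hcard
  simp only [mem_sdiff, mem_univ, true_and, mem_insert, not_or] at ha hb
  refine ⟨SymPerm.tc i a b, ?_, ?_, ?_⟩
  · rw [SymPerm.tc, Perm.sign_mul, Perm.sign_swap (Ne.symm ha.1), Perm.sign_swap hab]
    rfl
  · intro x hx
    apply SymPerm.tc_of
    · rintro rfl; exact hi hx
    · rintro rfl; exact ha.2 hx
    · rintro rfl; exact hb.2 hx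
  · rw [SymPerm.tc_a (Ne.symm ha.1) (Ne.symm hb.1)]
    exact ha.1

theorem mapAtom_comp {S : Sig} {D E G : Type} (f : D → E) (g : E → G) (a : Atom S D) :
    mapAtom g (mapAtom f a) = mapAtom (g ∘ f) a := rfl

theorem model_ae {S : Sig} {P : Type} (K : Set (AE S P)) (n : ℕ)
    (hK : ∀ φ ∈ K, 2 * (φ.k + φ.l) ≤ n)
    {X : Type} (I : Atom S (X ⊕ P) → Prop) (hI : ∀ φ ∈ K, Holds I φ)
    (hX : Nonempty (Fin n ↪ X)) :
    Model n (Atom S (Fin n ⊕ P)) X (actAtom S P n) (cnf K n)
      (fun a h => I (mapAtom (Sum.map h id) a)) := by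
  classical
  refine ⟨⟨?_, ?_⟩, ?_, ?_, ?_, ?_⟩
  · funext a
    simp [actAtom, mapAtom]
  · intro π ρ
    funext a
    simp only [actAtom, mapAtom, Function.comp_apply, ← Function.comp_assoc, Sum.map_comp_map,
      Perm.coe_mul, Function.id_comp]
  · intro π v h
    simp only [actAtom, mapAtom, ← Function.comp_assoc, Sum.map_comp_map, Function.id_comp]
  · intro v Δ hΔ hfix h h' hhh
    have hmem : ∀ j i, v.2 j = Sum.inl i → i ∈ Δ := by
      intro j i hji
      by_contra hj
      obtain ⟨π, hπ, hπΔ, hmv⟩ := moved Δ hΔ i hj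
      have h1 := hfix π hπ hπΔ
      obtain ⟨R, u⟩ := v
      have h2 : (Sum.map π id ∘ u) = u := by
        have h3 : (⟨R, Sum.map π id ∘ u⟩ : Atom S (Fin n ⊕ P)) = ⟨R, u⟩ := h1
        injection h3 with _ h4
      have h5 := congrFun h2 j
      simp only at hji
      rw [Function.comp_apply, hji, Sum.map_inl] at h5
      exact hmv (Sum.inl_injective h5)
    have : mapAtom (Sum.map h id) v = mapAtom (Sum.map h' id) v := by
      unfold mapAtom
      congr 1
      funext j
      rcases hv : v.2 j with i | b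
      · simp [hv, hhh i (hmem j i hv)]
      · simp [hv]
    rw [this]
  · rintro c ⟨φ, hφ, x, htriv, rfl⟩ Δ hΔ h hh
    have hk := hK φ hφ
    obtain ⟨y', hy'⟩ := hI φ hφ (h ∘ x)
    have hc1 : (Δ ∪ univ.image x).card ≤ 6 * (n / 16) + φ.k := by
      have h1 := card_union_le Δ (univ.image x)
      have h2 := card_image_le (s := (univ : Finset (Fin φ.k))) (f := x)
      rw [card_univ, Fintype.card_fin] at h2
      omega
    have hc2 : (univ.image y').card ≤ φ.l := by
      have h2 := card_image_le (s := (univ : Finset (Fin φ.l))) (f := y')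
      rw [card_univ, Fintype.card_fin] at h2
      exact h2
    have hnn : 16 * (n / 16) ≤ n := Nat.mul_div_le n 16
    obtain ⟨k, hk, hkT, Z, hZ, hcov⟩ := cover (Δ ∪ univ.image x) h hh (univ.image y') (by omega)
    have hch : ∀ j, ∃ z, k z = y' j := fun j => by
      obtain ⟨z, -, hz⟩ := hcov (y' j) (mem_image_of_mem _ (mem_univ _))
      exact ⟨z, hz⟩
    choose y hy using hch
    have hkx : k ∘ x = h ∘ x := by
      funext j
      exact hkT _ (mem_union_right _ (mem_image_of_mem _ (mem_univ _)))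
    have hky : k ∘ y = y' := funext hy
    have helim : Sum.elim (h ∘ x) y' = k ∘ Sum.elim x y := by
      rw [Sum.comp_elim, hkx, hky]
    rw [helim] at hy'
    refine ⟨k, hk, fun z hz => hkT z (mem_union_left _ hz), ?_⟩
    rcases hy' with ⟨e, he, h1⟩ | ⟨p, hp, h1⟩
    · exfalso
      apply htriv y
      refine ⟨e, he, ?_⟩
      rw [← h1]
      simp only [Function.comp_apply]
      exact ⟨fun h => by rw [h], fun h => hk h⟩
    · refine ⟨_, ⟨y, p, hp, rfl⟩, ?_⟩
      rw [← h1]
      simp only [mapAtom, ← Function.comp_assoc, Sum.map_comp_map, Function.id_comp]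
  · obtain ⟨e⟩ := hX
    exact ⟨e, e.injective⟩

end Pool.Agent.Lib.MP_51bb46_lc.Sym
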